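import Mathlib
import Pool.Agent.H765.CS.Ind
import Pool.Agent.H765.MM.Def

/-! Surgeries on a knot and Seifert fibred homology spheres: the statements of the lemmas.

Notation: `W ρ f` absolute convergence at `ρ`, `ev μ f` the value at `μ`, `th f = w f'`
(`CS/Wt.lean`), `shR = sinh(√w)/√w`, `chR = cosh(√w)` (`CS/Sh.lean`), `Ent f`: entire, `Ln μ = 1 + w/μ`,
`geo μ = 1/(1 + w/μ)`, `Mj j f` (`CS/Sing.lean`), `Ea b = ∏_{l ∈ b} sh(w/l²)` (`CS/Pole.lean`),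
`As`, `T`, `Rapid`, `Sm` (`CS/Asym.lean`), `tt`, `sg`, `lead` (`CS/Sig.lean`), `IsFib`, `Cv`
(`CS/Ind.lean`), `hexp b = e^{b h}` (`GK/Def.lean`), `ohtsuki`, `mmCoeff`, `shift` (`MM/Def.lean`). -/

namespace Pool.Agent.H765.BZ

open PowerSeries Finset Nat Real Filter Topology
open Pool.Agent.H765.CS

noncomputable section

/-- `e^{c x}` -/
def expR (c : ℝ) : ℝ⟦X⟧ := rescale c (PowerSeries.exp ℝ)

/-- the Gaussian transform `f_k ↦ (2k+1)!! f_k` -/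
def Tg (f : ℝ⟦X⟧) : ℝ⟦X⟧ := PowerSeries.mk fun k => (((2 * k + 1)‼ : ℕ) : ℝ) * coeff k f

/-- `∏_{l ∈ b} sh(w/l²) / sh(w)^m` -/
def Gm (b : Finset ℕ) (m : ℕ) : ℝ⟦X⟧ := Ea b * shR⁻¹ ^ m

/-- the logarithmic derivative of `sh` -/
def Lsh : ℝ⟦X⟧ := th shR * shR⁻¹

/-- `∏_{l ∈ b} sh(w/l²) sh(y w) / sh(w)^m` -/
def Gy (b : Finset ℕ) (m : ℕ) (y : ℝ) : ℝ⟦X⟧ := Ea b * rescale y shR * shR⁻¹ ^ m

/-- LOG. The logarithmic derivatives: `log sh(w) = w/6 - w²/180 + ...`. -/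
def S_LOG : Prop :=
  constantCoeff Lsh = 0 ∧ coeff 1 Lsh = 1 / 6 ∧ coeff 2 Lsh = -1 / 90 ∧
  (∀ (b : Finset ℕ) (m : ℕ) (x : ℝ), constantCoeff (rescale x (Gm b m)) = 1 ∧
    th (rescale x (Gm b m)) = rescale x (Gm b m) *
      PowerSeries.mk fun k => coeff k Lsh * x ^ k * (∑ l ∈ b, 1 / (l : ℝ) ^ (2 * k) - m)) ∧
  (∀ (b : Finset ℕ) (m : ℕ) (y x : ℝ), constantCoeff (rescale x (Gy b m y)) = 1 ∧
    th (rescale x (Gy b m y)) = rescale x (Gy b m y) *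
      PowerSeries.mk fun k => coeff k Lsh * x ^ k * (∑ l ∈ b, 1 / (l : ℝ) ^ (2 * k) + y ^ k - m))

/-- ODE. Solutions of `th f = f L` depend continuously on `L`, coefficientwise. Proof: strong
induction on `k`; for `k ≥ 1`: `k f_k = ∑_{i + j = k, j ≥ 1} f_i L_j`. -/
def S_ODE : Prop := ∀ (F : Filter ℤ) (f L : ℤ → ℝ⟦X⟧) (f0 L0 : ℝ⟦X⟧),
  (∀ᶠ n in F, constantCoeff (f n) = 1 ∧ constantCoeff (L n) = 0 ∧ th (f n) = f n * L n) →
  constantCoeff f0 = 1 → constantCoeff L0 = 0 → th f0 = f0 * L0 →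
  (∀ k, Tendsto (fun n => coeff k (L n)) F (𝓝 (coeff k L0))) →
  ∀ k, Tendsto (fun n => coeff k (f n)) F (𝓝 (coeff k f0))

/-- NORM2. If `th f = f L` and `f(0) = 1` then the coefficients of `V = e^{r x} Tg(f)` satisfy
`V_2 - V_1²/2 = 15/2 L_2 + 3 L_1²`, because `f_1 = L_1`, `f_2 = (L_2 + L_1²)/2`,
`V_1 = r + 3 f_1`, `V_2 = r²/2 + 3 r f_1 + 15 f_2`. -/
def S_NORM2 : Prop := ∀ (f L : ℝ⟦X⟧) (r : ℝ), constantCoeff f = 1 → constantCoeff L = 0 →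
  th f = f * L →
  coeff 1 (expR r * Tg f) = r + 3 * coeff 1 L ∧
  coeff 2 (expR r * Tg f) - (coeff 1 (expR r * Tg f)) ^ 2 / 2 =
    15 / 2 * coeff 2 L + 3 * (coeff 1 L) ^ 2

/-- SUMS. For finite sets of integers `≥ 2`: `∑ 1/l^(2k) ≤ 3/4` for `k ≥ 1`. Proof: it suffices
`k = 1`; `1/4 + ∑_{l ≥ 3} 1/(l (l-1)) ≤ 1/4 + 1/2`. -/
def S_SUMS : Prop := ∀ (b : Finset ℕ) (k : ℕ), (∀ l ∈ b, 2 ≤ l) → 1 ≤ k →
  0 ≤ ∑ l ∈ b, 1 / (l : ℝ) ^ (2 * k) ∧ ∑ l ∈ b, 1 / (l : ℝ) ^ (2 * k) ≤ 3 / 4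

/-- DOM. Let `F` be an ultrafilter on `ℤ`, `a n` finite sets of integers `≥ 2` with exactly `N`
elements for `F`-almost all `n`. There is a finite set `b` (those `l` which lie in `a n` for
`F`-almost all `n`), `b ⊆ a n` for `F`-almost all `n`, and
`∑_{l ∈ a n} 1/l^(2k) → ∑_{l ∈ b} 1/l^(2k)` along `F`, for all `k ≥ 1`. Proof: `b` has at most `N`
elements, since every finite subset of `b` lies in `a n` for `F`-almost all `n`. Convergence: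
`tendsto_tsum_of_dominated_convergence` with the bound `1/l^2` on `ℕ` (write the sums as tsums of
indicator functions; for each `l`, by `Ultrafilter.em`, `l ∈ a n` is eventually true or eventually
false). -/
def S_DOM : Prop := ∀ (F : Ultrafilter ℤ) (a : ℤ → Finset ℕ) (N : ℕ),
  (∀ᶠ n in (F : Filter ℤ), (∀ l ∈ a n, 2 ≤ l) ∧ (a n).card = N) →
  ∃ b : Finset ℕ, (∀ᶠ n in (F : Filter ℤ), b ⊆ a n) ∧
    ∀ k, 1 ≤ k → Tendsto (fun n => ∑ l ∈ a n, 1 / (l : ℝ) ^ (2 * k)) F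
      (𝓝 (∑ l ∈ b, 1 / (l : ℝ) ^ (2 * k)))

/-- the data along an ultrafilter -/
def LimData (F : Ultrafilter ℤ) (a : ℤ → Finset ℕ) (x s : ℤ → ℝ) (lam γ : ℝ) (α : ℝ⟦X⟧) : Prop :=
  (∀ᶠ n in (F : Filter ℤ), IsFib (a n)) ∧ Tendsto x F (𝓝 lam) ∧ Tendsto s F (𝓝 γ) ∧
  (∃ K : ℝ, ∀ᶠ n in (F : Filter ℤ), |x n| * (((a n).card : ℝ) - 2) ≤ K) ∧
  ∀ k, Tendsto (fun n => coeff k (expR (s n) * Tg (rescale (x n) (Gm (a n) ((a n).card - 2))))) F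
    (𝓝 (coeff k α))

/-- LIM0. Use S_LOG, S_NORM2, S_SUMS as hypotheses.
Proof. Take an ultrafilter `F ≤ cofinite ⊓ 𝓟 S` (`Ultrafilter.of`, `NeBot` as `S` is infinite). Put `x_n = P n / n`,
`c_n = card (a n)`, `e_{k,n} = (c_n - 2) - ∑_{l ∈ a n} l^(-2k)`, so `(c_n - 2)/4 ≤ e_{k,n} ≤ c_n - 2` for `k ≥ 1` (S_SUMS, `c_n ≥ 3`).
`sg (a n) P = Tg (rescale P (Gm (a n) (c_n - 2)))` (immediate from the definitions, `GR a = Gm a (a.card - 2)`). Applying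
`rescale (1/n)` gives `V_n := rescale (1/n) (v n) = expR (r_n/n) * Tg (rescale x_n (Gm (a n) (c_n-2)))`, and
`coeff k V_n = coeff k (v n) / n^k → coeff k α`. By S_LOG and S_NORM2 (`L_1 = - x e_1/6`, `L_2 = x² e_2/90`):
`coeff 2 V - (coeff 1 V)^2/2 = x_n² (e_1² + e_2)/12`, which converges along `F`, so it is
bounded along `F`; hence `|x_n| (c_n - 2)` is bounded (`e_2 ≥ 0`, `e_1 ≥ (c_n-2)/4`) and so is `x_n` (`c_n - 2 ≥ 1`).
Bounded real functions converge along the ultrafilter `F` (`isCompact_Icc`, `IsCompact.ultrafilter_le_nhds`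
applied to `F.map x`). `coeff 1 V_n = r_n/n - x_n e_1/2` converges and `x_n e_1` is bounded, so `r_n / n` is bounded and converges
along `F`. -/
def S_LIM0 : Prop := ∀ (v : ℤ → ℝ⟦X⟧) (α : ℝ⟦X⟧) (S : Set ℤ) (a : ℤ → Finset ℕ) (P : ℤ → ℤ)
  (r : ℤ → ℝ), S.Infinite →
  (∀ n ∈ S, n ≠ 0 ∧ IsFib (a n) ∧ v n = expR (r n) * sg (a n) (P n)) →
  (∀ k, Tendsto (fun n : ℤ => coeff k (v n) / (n : ℝ) ^ k) cofinite (𝓝 (coeff k α))) →
  ∃ (F : Ultrafilter ℤ) (lam γ : ℝ), (F : Filter ℤ) ≤ cofinite ∧ S ∈ F ∧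
    LimData F a (fun n => (P n : ℝ) / n) (fun n => r n / (n : ℝ)) lam γ α

/-- LIM1. Use S_LOG, S_ODE, S_DOM as hypotheses. Proof. Take `b` from S_DOM. With
`L_n = mk (coeff k Lsh * x_n^k * (∑_{l ∈ a n} l^(-2k) - m))`, `L0 = mk (coeff k Lsh * lam^k * (∑_{l ∈ b} l^(-2k) - m))`
(`coeff 0 Lsh = 0`), S_ODE with `f_n = rescale x_n (Gm (a n) m)`, `f0 = rescale lam (Gm b m)` gives the
coefficientwise convergence `f_n → f0`, hence `expR (s n) * Tg f_n → expR γ * Tg f0` coefficientwise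
(finite sums); limits along `F` are unique. -/
def S_LIM1 : Prop := ∀ (F : Ultrafilter ℤ) (a : ℤ → Finset ℕ) (x s : ℤ → ℝ) (lam γ : ℝ)
  (α : ℝ⟦X⟧) (m : ℕ), LimData F a x s lam γ α → (∀ᶠ n in (F : Filter ℤ), (a n).card = m + 2) →
  ∃ b : Finset ℕ, (∀ᶠ n in (F : Filter ℤ), b ⊆ a n) ∧ α = expR γ * Tg (rescale lam (Gm b m))

/-- LIM2. Use S_LOG, S_ODE, S_SUMS as hypotheses. Proof. `c_n = card (a n) → ∞` along `F` (for each `N` the set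
`{c_n ≤ N}` is the finite union of the sets `{c_n = i}`, none of which lies in `F`). As `|x_n| (c_n - 2) ≤ K`:
`x_n → 0`. Put `e_{k,n} = (c_n - 2) - ∑_{l ∈ a n} l^(-2k)`, `0 ≤ e_{k,n} ≤ c_n - 2` for `k ≥ 1`. For `k ≥ 2`: `|x_n^k e_{k,n}| ≤ |x_n|^(k-1) K → 0`;
for `k = 1` the bounded `x_n e_{1,n}` converges along the ultrafilter to some `τ`. S_ODE with `L0 = C (-τ/6) * X`,
`f0 = expR (-τ/6)` (`coeff 1 Lsh = 1/6`) gives `rescale x_n (Gm (a n) (c_n - 2)) → expR (-τ/6)` coefficientwise, so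
`α = expR γ * Tg (expR (-τ/6))`, which is `Cv`: `(2k+1)!! ≤ 3^k k!`, and the product of two `Cv` series is `Cv`
(prove it directly: `∑_{i+j=k} C R^i C' R'^j ≤ C C' (k+1) max^k ≤ C C' (2 max)^k`). -/
def S_LIM2 : Prop := ∀ (F : Ultrafilter ℤ) (a : ℤ → Finset ℕ) (x s : ℤ → ℝ) (lam γ : ℝ)
  (α : ℝ⟦X⟧), LimData F a x s lam γ α → (∀ N, ∀ᶠ n in (F : Filter ℤ), (a n).card ≠ N) → Cv α

/-- LIM. Use S_LIM0, S_LIM1, S_LIM2 as hypotheses. Proof: take `F, lam, γ` from S_LIM0. If for some `N` the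
cardinality is `N` along `F` (`N ≥ 3`, so `N = m + 2`, `m ≥ 1`), S_LIM1 gives `b`. If `lam = 0`: `rescale 0 (Gm b m) = 1`
(constant coefficient `1`), `Tg 1 = 1` and `α = expR γ` is `Cv`. If `lam ≠ 0`: `b.card ≤ m + 1`, because otherwise `b = a n` along `F`
(`Finset.eq_of_subset_of_card_le`), `|P n| = ∏ b` is constant along `F` and `P n / n → 0` (`F ≤ cofinite`; `|n| → ∞`). The elements
of `b` are pairwise coprime and `≥ 2` (they are elements of some `a n` with `IsFib (a n)`). If the cardinality is not constant along `F`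
(`Ultrafilter.eventually_not`), S_LIM2 gives `Cv α`. -/
def S_LIM : Prop := ∀ (v : ℤ → ℝ⟦X⟧) (α : ℝ⟦X⟧) (S : Set ℤ) (a : ℤ → Finset ℕ) (P : ℤ → ℤ)
  (r : ℤ → ℝ), S.Infinite →
  (∀ n ∈ S, n ≠ 0 ∧ IsFib (a n) ∧ |P n| = ∏ l ∈ a n, (l : ℤ) ∧
    v n = expR (r n) * sg (a n) (P n)) →
  (∀ k, Tendsto (fun n : ℤ => coeff k (v n) / (n : ℝ) ^ k) cofinite (𝓝 (coeff k α))) →
  Cv α ∨ ∃ (F : Ultrafilter ℤ) (b : Finset ℕ) (m : ℕ) (lam γ : ℝ),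
    (F : Filter ℤ) ≤ cofinite ∧ S ∈ F ∧ 1 ≤ m ∧ (∀ l ∈ b, 2 ≤ l) ∧
    (∀ l ∈ b, ∀ l' ∈ b, l ≠ l' → Nat.Coprime l l') ∧ b.card ≤ m + 1 ∧ lam ≠ 0 ∧
    (∀ᶠ n in (F : Filter ℤ), (a n).card = m + 2 ∧ b ⊆ a n) ∧
    Tendsto (fun n : ℤ => (P n : ℝ) / n) F (𝓝 lam) ∧
    Tendsto (fun n : ℤ => r n / (n : ℝ)) F (𝓝 γ) ∧
    α = expR γ * Tg (rescale lam (Gm b m))

/-- ZERO. The size of an entire function near `1-`. Proof: `e(z) = ev z E` is analytic on `ℝ`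
(`FormalMultilinearSeries.ofScalars`, radius `∞`; or `HasFPowerSeriesOnBall`), not identically zero near `1` (identity theorem
`AnalyticOnNhd.eqOn_zero_of_preconnected_of_eventuallyEq_zero`; a power series which vanishes near `0` is zero), so near `1`
`e(z) = (z-1)^p e_1(z)` with `e_1` analytic and nonzero at `1` (`AnalyticAt.exists_eventuallyEq_pow_smul_nonzero_iff`). -/
def S_ZERO : Prop := ∀ E : ℝ⟦X⟧, E ≠ 0 → Ent E → ∃ (p : ℕ) (c K ε : ℝ), 0 < c ∧ 0 < ε ∧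
  ∀ z : ℝ, 1 - ε < z → z < 1 → c * (1 - z) ^ p ≤ |ev z E| ∧ |ev z E| ≤ K * (1 - z) ^ p

/-- POLEB. Logarithmic growth. Proof: the coefficients are bounded, so `ψ` converges absolutely on `[0,1)` (`W.of_bdd`). (2): for
`κ > 0` the coefficients are `≥ κ/(2(k+1))` for `k ≥ k0`; if `|ψ(z)| ≤ K` on `(1-ε, 1)`, the partial sums
`∑_{k0 ≤ k ≤ N} coeff k ψ z^k ≤ K + ∑_{k<k0} |coeff k ψ|`, let `z → 1`: contradiction with the divergence of the harmonic series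
(`Real.tendsto_sum_range_one_div_nat_succ_atTop`); `κ < 0`: replace `ψ, κ` by `-ψ, -κ`. (3): the coefficients tend to `0`, so
`|ψ(z)| ≤ C_δ + (δ/2)/(1-z)`. -/
def S_POLEB : Prop := ∀ (ψ : ℝ⟦X⟧) (κ K : ℝ),
  (∀ k : ℕ, |coeff k ψ - κ / ((k : ℝ) + 1)| ≤ K / ((k : ℝ) + 1) ^ 2) →
  (∀ z : ℝ, 0 ≤ z → z < 1 → W z ψ) ∧
  (κ ≠ 0 → ∀ M ε : ℝ, 0 < ε → ∃ z : ℝ, 1 - ε < z ∧ 0 ≤ z ∧ z < 1 ∧ M < |ev z ψ|) ∧
  (∀ δ : ℝ, 0 < δ → ∃ ε : ℝ, 0 < ε ∧ ∀ z : ℝ, 1 - ε < z → 0 ≤ z → z < 1 → (1 - z) * |ev z ψ| ≤ δ)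

/-- POLE. Use S_ZERO, S_POLEB as hypotheses. A quotient `ψ = H/E` of entire functions cannot have coefficients
`(κ/(k+1) + O(1/(k+1)²)) x^(-k)` with `κ ≠ 0` (logarithmic singularity).

Proof. Replace `ψ, E, H` by their images under `rescale x`, so `x = 1` (`rescale x` is a ring homomorphism, preserves `Ent`
(`Ent.rescale`) and is injective for `x ≠ 0`). Suppose `κ ≠ 0`. If `H = 0` then `ψ = 0` and `ev z ψ = 0` contradicts S_POLEB (2).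
Otherwise take `p, c, K` for `E` and `q, c', K'` for `H` from S_ZERO. For `z` in `[0,1)` near `1`: `ev z ψ * ev z E = ev z H` (`ev_mul`), so
if `q ≥ p`: `|ev z ψ| ≤ K'/c`, contradiction with (2); if `q < p`: `|ev z ψ| ≥ (c'/K) (1-z)^(q-p) ≥ (c'/K)/(1-z)`, contradiction with (3)
for small `δ`. -/
def S_POLE : Prop := ∀ (ψ E H : ℝ⟦X⟧) (x κ C : ℝ), E ≠ 0 → Ent E → Ent H → ψ * E = H → x ≠ 0 →
  (∀ k : ℕ, |coeff k ψ * x ^ k - κ / ((k : ℝ) + 1)| ≤ C / ((k : ℝ) + 1) ^ 2) → κ = 0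

/-- quotients of entire functions -/
def QE (u : ℝ⟦X⟧) : Prop := ∃ E : ℝ⟦X⟧, E ≠ 0 ∧ Ent E ∧ Ent (u * E)

/-- QEC. Closure properties: `th u * E² = E th(u E) - (u E) th E`; `Mj j (geo ν) * Ln ν^(j+1) = Nm ν j` is entire
(`Nm_ent`). -/
def S_QEC : Prop := (∀ u v, QE u → QE v → QE (u + v)) ∧ (∀ (c : ℝ) u, QE u → QE (C c * u)) ∧
  (∀ u, QE u → QE (th u)) ∧ (∀ (j : ℕ) (ν : ℝ), 0 < ν → QE (Mj j (geo ν)))

/-- ALIEN. Use S_POLE, S_QEC as hypotheses. If `u` is a quotient of entire functions and `Tg u` is asymptotic (in the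
sense of `As`) to `δ(x) T(-x)` with `t_k = tt J (1/π²) k = (2(k+J)+1)!! π^(-2k)`, then `δ` is a polynomial of degree
`≤ J`.

Proof. Strong induction: let `i0 ≥ 1`, `coeff (J+i) δ = 0` for `1 ≤ i < i0`. Use `As` with
`M = J + i0 + 1`, at the index `k' = k + M` (all large `k'`), divide by `(2k'+1)!!` and multiply by
`(-π²)^(k')`. Put `d_i = coeff i δ * (-π²)^i`. Because
`(-1)^(k'-i) tt J (1/π²) (k'-i) = (2(k'-i+J)+1)!! (-π²)^(i-k')`: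
`coeff k' u * (-π²)^(k') = ∑_{i ≤ J} d_i Q(J-i, k') + d_(J+i0) (2(k'-i0)+1)!!/(2k'+1)!! + O((2(k'-i0-1)+1)!!/(2k'+1)!!)`,
where `(2(k'+j)+1)!! = (2k'+1)!! Q j k'` (`odd_Q`). The series `u' = u - ∑_{i ≤ J} d_i Mj (J-i) (geo (π²))` is
again a quotient of entire functions (S_QEC). Its normalised coefficients `coeff k' u' * (-π²)^(k')` are
`d_(J+i0)/((2k'+1)(2k'-1)...(2k'-2 i0+3)) + O(1/((2k'+1)...(2k'-2 i0+1)))`. Multiply the coefficients by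
`(2k'+1)(2k'-1)...(2k'-2 i0+5)` (`i0 - 1` factors): this is the composite of operators `2 th + c`, which
preserve `QE`. Result: `d_(J+i0)/(2k'-2 i0+3) + O(1/k'^2) = (d_(J+i0)/2)/(k'+1) + O(1/(k'+1)²)` (finitely many `k'`
are absorbed in the constant). S_POLE with `x = -π²` gives `d_(J+i0) = 0`. -/
def S_ALIEN : Prop := ∀ (u δ : ℝ⟦X⟧) (J : ℕ), QE u →
  As (tt J (1 / π ^ 2)) (-1) (Tg u) δ 0 → ∀ i, J < i → coeff i δ = 0

/-- LEADG. The asymptotics of `Tg (Gm b m)`. Proof: copy `lead_data` (`CS/Ind.lean`) and `sg_lead`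
(`CS/Sig.lean`, with `Ps = 1`, `ω = -1`, `J = m`), which treat `Gm a (a.card - 2) = GR a`; nothing else
uses the relation between `m` and the number of elements. `A = lead m m c (-1/π²)`, nonzero as in `lead_ne`. -/
def S_LEADG : Prop := ∀ (b : Finset ℕ) (m : ℕ), 1 ≤ m → (∀ l ∈ b, 2 ≤ l) →
  ∃ A : Polynomial ℝ, A ≠ 0 ∧ As (tt m (1 / π ^ 2)) (-1) (Tg (Gm b m)) (A : ℝ⟦X⟧) 0

/-- EXPPOLY. `e^{γ x} A(x)` is not a polynomial if `γ ≠ 0`, `A ≠ 0`. Proof: if it is `B(x)`,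
differentiate (`PowerSeries.derivative`) `natDegree B + 1` times: `e^{γ x} (γ + d/dx)^N A = 0`, but `γ + d/dx` preserves the degree
and multiplies the leading coefficient by `γ`. -/
def S_EXPPOLY : Prop := ∀ (A : Polynomial ℝ) (γ : ℝ) (J : ℕ), A ≠ 0 →
  (∀ i, J < i → coeff i (expR γ * (A : ℝ⟦X⟧)) = 0) → γ = 0

/-- ALPHA. Use S_ALIEN, S_LEADG, S_EXPPOLY as hypotheses. Proof: `expR γ` has trivial asymptotics (`As.gevrey`, its coefficients are `O(ρ^k (2k+1)!!)` for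
every `ρ > 0`, e.g. `ρ = 1/(2π²)`), so by `As.mul` (with `tt_rapid`) and S_LEADG
`As (tt m (1/π²)) (-1) (Tg u) (expR γ * A) 0`; by S_ALIEN `expR γ * A` is a polynomial and by S_EXPPOLY
`γ = 0`. -/
def S_ALPHA : Prop := ∀ (u : ℝ⟦X⟧) (b : Finset ℕ) (m : ℕ) (γ : ℝ), QE u → 1 ≤ m →
  (∀ l ∈ b, 2 ≤ l) → Tg u = expR γ * Tg (Gm b m) → γ = 0

/-- `f` has a zero of order exactly `k` at `-ν` -/
def Od (ν : ℝ) (k : ℕ) (f : ℝ⟦X⟧) : Prop := ∃ g : ℝ⟦X⟧, Ent g ∧ ev (-ν) g ≠ 0 ∧ f = g * Ln ν ^ k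

/-- ORD. Proof: uniqueness by cancelling `Ln ν` (domain) and `ev_Ln`. If `f` is entire and `ev (-ν) f = 0` then
`f = g * Ln ν` with `g = f * geo ν` entire (`W.div`, `W.of_bdd`, `geo_mul`). For `s ν = (jπ)²`, `j ≥ 1`, write
`rescale s shR = g * Ln ν` (`ev_rescale`, `ev_shR_zero`); `ev (-ν) (th (rescale s shR)) = ev (-(jπ)²) (th shR) ≠ 0` (`ev_th_ne`,
`th (rescale s f) = rescale s (th f)`) implies `ev (-ν) g ≠ 0` by `th (g * Ln ν) = th g * Ln ν + g * th (Ln ν)`. If `s ν`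
is not of the form `(jπ)²`, `j ≥ 1`, then `ev (-ν) (rescale s shR) ≠ 0`: for `s ν > 0` by `ev_shR`
(`x ev(-x²) shR = sin x`, `Real.sin_eq_zero_iff`), for `s ν ≤ 0` all terms of the series are `≥ 0` and the first is `1`. -/
def S_ORD : Prop := ∀ ν : ℝ, 0 < ν →
  (∀ (f g : ℝ⟦X⟧) (k l : ℕ), Od ν k f → Od ν l g → Od ν (k + l) (f * g)) ∧
  (∀ (f g : ℝ⟦X⟧) (k l : ℕ), Od ν k f → Ent g → f = g * Ln ν ^ l → l ≤ k) ∧
  (∀ f : ℝ⟦X⟧, Ent f → ev (-ν) f ≠ 0 → Od ν 0 f) ∧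
  (∀ (s : ℝ) (j : ℕ), 1 ≤ j → s * ν = (j * π) ^ 2 → Od ν 1 (rescale s shR)) ∧
  (∀ s : ℝ, (∀ j : ℕ, 1 ≤ j → s * ν ≠ (j * π) ^ 2) → Od ν 0 (rescale s shR))

/-- BETA. Use S_ORD as hypothesis. The relation is `shR * (rescale μ shR)^m = D * ∏_{l ∈ b} rescale (μ/l²) shR`
(multiply `D * rescale μ (Gm b m) = shR` by `(rescale μ shR)^m`).

Proof. Step 1, `ν = π²`: the left side vanishes at `-π²` (`ev_shR_zero 1`), `ev (-π²) D ≠ 0`, so some `l ∈ b` has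
`ev (-π²) (rescale (μ/l²) shR) = 0`, hence (S_ORD, last two items) `μ/l² = j²`, `μ = A²` with the natural number `A = l j ≥ 1`. Now the
left side has order `1 + m` at `-π²`, the right side has order `#{l ∈ b : l ∣ A} ≤ b.card ≤ m + 1` (`(A/l)²` is the square of a natural
number iff `l ∣ A`; `D` has order `0`). So `b.card = m + 1` and all `l ∈ b` divide `A`; they are pairwise coprime, so
`A = κ ∏_{l ∈ b} l` (`Finset.prod_dvd_of_coprime` or similar).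
Step 2: suppose `κ ≥ 2`, `ν = (π/κ)²`. `shR` has order `0` at `-ν`, `rescale (A²) shR` has order `1`
(`A²ν = (∏ l · π)²`), so the left side has order `m`; every `rescale (A²/l²) shR` has order `1`, `D` is entire, so the right side
is `g * Ln ν^(m+1)` with `g` entire and `m + 1 ≤ m` by S_ORD (second item), a contradiction. Hence `κ = 1`. -/
def S_BETA : Prop := ∀ (D : ℝ⟦X⟧) (b : Finset ℕ) (m : ℕ) (μ : ℝ), Ent D →
  (∀ j : ℕ, 1 ≤ j → ev (-(j * π) ^ 2) D ≠ 0) → 1 ≤ m → (∀ l ∈ b, 2 ≤ l) →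
  (∀ l ∈ b, ∀ l' ∈ b, l ≠ l' → Nat.Coprime l l') → b.card ≤ m + 1 →
  D * rescale μ (Gm b m) = shR → μ = (∏ l ∈ b, (l : ℝ)) ^ 2 ∧ b.card = m + 1

/-- the relation between the Alexander polynomial and the leading part `w` of the Melvin-Morton
expansion: `B(e^{2y}) w(y) = e^{k y} (e^y - e^{-y})`, `B(1) = 1` -/
def Alx (B : Polynomial ℤ) (k : ℤ) (w : ℚ⟦X⟧) : Prop := B.eval 1 = 1 ∧
  (∑ i ∈ range (B.natDegree + 1), C ((B.coeff i : ℤ) : ℚ) * GK.hexp (2 * (i : ℚ))) * w =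
    GK.hexp k * (GK.hexp 1 - GK.hexp (-1)) ∧ (∀ j, Even j → coeff j w = 0)

/-- the odd part, in the variable `w = y²` -/
def hf (w : ℚ⟦X⟧) : ℝ⟦X⟧ := PowerSeries.mk fun k => ((coeff (2 * k + 1) w : ℚ) : ℝ) / 2

/-- DSER. Proof: `D = ∑_i b_i rescale ((2i-k)²) chR`. Put `g = hexp(-k) ∑ b_i hexp(2i) = ∑ b_i hexp(2i-k)`, so
`g w = hexp 1 - hexp (-1)`. `rescale (-1)` gives `rescale (-1) g * (-w) = -(hexp 1 - hexp (-1))`, hence
`rescale (-1) g = g` (as `w ≠ 0`), the odd coefficients of `g` vanish and `coeff (2j) g = ∑ b_i (2i-k)^(2j)/(2j)!` is the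
coefficient of `w^j` in `D`. Compare coefficients of `y^(2j+1)` in `g w = hexp 1 - hexp(-1)`. Values:
`ev (-(jπ)²) (rescale (c²) chR) = cos (c j π)` (`ev_chR`, `ev_rescale`) `= (-1)^(k j)` for `c = 2i - k`, so `ev (-(jπ)²) D = ± B(1) = ± 1`. -/
def S_DSER : Prop := ∀ (B : Polynomial ℤ) (k : ℤ) (w : ℚ⟦X⟧), Alx B k w →
  ∃ D : ℝ⟦X⟧, Ent D ∧ D * hf w = shR ∧ ∀ j : ℕ, 1 ≤ j → ev (-(j * π) ^ 2) D ≠ 0

/-- ENT. If `w` is entire then `B` is a monomial. Proof: otherwise `B` has a complex root `β ≠ 0`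
(`B = X^s B'`, `B'(0) ≠ 0`, `B'` not constant). Let `e^{2 y0} = β`. Evaluate the relation at the complex number
`y0` (absolutely convergent series over `ℂ`, product formula
`tsum_mul_tsum_eq_tsum_sum_antidiagonal_of_summable_norm`, `hexp c` evaluates to `exp (c y0)`): `0 = e^{k y0} (e^{y0} - e^{-y0})`,
so `β = e^{2 y0} = 1`, but `B(1) = 1 ≠ 0`. -/
def S_ENT : Prop := ∀ (B : Polynomial ℤ) (k : ℤ) (w : ℚ⟦X⟧), Alx B k w →
  (∀ ρ : ℝ, 0 ≤ ρ → Summable fun n : ℕ => |((coeff n w : ℚ) : ℝ)| * ρ ^ n) →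
  ¬ ∃ i j, i < j ∧ B.coeff i ≠ 0 ∧ B.coeff j ≠ 0

/-- the Gaussian integral of `2 sinh(y/n) g(y)` -/
def gb (n : ℤ) (g : ℚ⟦X⟧) : ℚ⟦X⟧ := PowerSeries.mk fun k =>
  ((2 * k - 1).doubleFactorial : ℚ) * (-(n : ℚ)) ^ k *
    ∑ s ∈ range (2 * k + 1), (1 - (-1) ^ s) / ((s.factorial : ℚ) * (n : ℚ) ^ s) * coeff (2 * k - s) g

/-- the Gaussian integral of `g(y - h) - g(y + h)` -/
def kap (n : ℤ) (g : ℚ⟦X⟧) : ℚ⟦X⟧ := PowerSeries.mk fun j => ∑ i ∈ range (j + 1),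
  coeff (j + i) g * (((j + i).factorial : ℚ) / (((j - i).factorial : ℚ) * 2 ^ i * (i.factorial : ℚ))) *
    (-(n : ℚ)) ^ i * ((-1) ^ (j - i) - 1)

/-- POLY1. Proof: both sides are linear in `g` and each coefficient of `h^m` depends on finitely many coefficients
of `g`, so it suffices to check `g = hexp c`, `c = 0, 1, 2, ...` (`Um.eq` in `CS/Umb.lean`; copy the structure `Um`, `Um.zero`, `Um.eq`, `Ev`,
`Um.Ev`, `Ev_hexp` from there instead of importing it, its imports are heavy). For `g = hexp c` the left side is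
`Ev (-n) (hexp (c + 1/n) - hexp (c - 1/n)) = hexp(-n(c+1/n)²/2) - hexp(-n(c-1/n)²/2) = hexp(-1/(2n)) hexp(-n c²/2) (hexp(-c) - hexp(c))`,
and `kap n (hexp c)` has the coefficients `∑_i c^(j+i)/((j-i)! 2^i i!) (-n)^i ((-1)^(j-i) - 1)`, which are those of
`hexp(-n c²/2) * (hexp(-c) - hexp c)`. -/
def S_POLY1 : Prop := ∀ (n : ℤ) (g : ℚ⟦X⟧), n ≠ 0 → gb n g = GK.hexp (-1 / (2 * (n : ℚ))) * kap n g

/-- POLY. Use S_POLY1 as hypothesis. The coefficients of the Ohtsuki series of the `1/n`-surgeries are polynomials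
in `n`, with the value of `S³` at `n = 0`.

Write `F = ∑ d_{l,b} y^l h^b`, `d = mmCoeff J`, `F_b(y) = mk (l ↦ d_{l,b})`, `D = hexp 1 - hexp (-1)`,
`dd = shift D`, `X dd = D`, `constantCoeff dd = 2`. For `n ≠ 0`: `dd * ohtsuki n J = shift (C(-1/2) hexp((n+1/n)/2) gauss n d)`
(`dd * dd⁻¹ = 1`), and `coeff m (gauss n d) = ∑_{b ≤ m} coeff (m-b) (gb n F_b)` (definition of `gauss`, substitute `b = m - k`) `=`
the coefficient of `h^m` in `hexp(-1/(2n)) * K n`, where `coeff m (K n) = ∑_{b ≤ m} coeff (m-b) (kap n F_b)` (exchange of two finite sums).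
So `dd * ohtsuki n J = shift (C(-1/2) hexp(n/2) K n)`, whose coefficients are polynomials in `n`; at `n = 0` only `i = 0` survives in `kap`:
`C(-1/2) K 0` has the coefficient `∑_{l + b = m} d_{l,b} (1 - (-1)^l)/2 = ∑_{l+b=m} d_{l,b}` (`d_{l,b} = 0` for even `l`) `= coeff m D` (hypothesis).
Construct the polynomials: `Polynomial.C`, `Polynomial.X ^ i`, finite sums (closure of the set of functions of `n ∈ ℤ` which are
given by a polynomial under sums, products, constants). -/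
def S_POLY : Prop := ∀ (J : ℤ → ℚ⟦X⟧), (∀ l b, Even l → MM.mmCoeff J l b = 0) →
  (∀ m, ∑ l ∈ range (m + 1), MM.mmCoeff J l (m - l) = coeff m (GK.hexp 1 - GK.hexp (-1))) →
  ∀ k, ∃ V : Polynomial ℚ,
    V.eval 0 = coeff k (C (1 / 2 : ℚ) * MM.shift (GK.hexp 1 - GK.hexp (-1))) ∧
    ∀ n : ℤ, n ≠ 0 → coeff k (C (1 / 2 : ℚ) * MM.shift (GK.hexp 1 - GK.hexp (-1)) *
      MM.ohtsuki n J) = V.eval (n : ℚ)

/-- MPOLY. Proof. `Gy b m (1/c²)` has coefficients `∑_i g_{k-i} c^(-2i)/(2i+1)!`, so the coefficient of `x^k` in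
`S(c) = Tg (rescale (A c) (Gy b m (1/c²)))` times `c^k` is a polynomial in `c`. The normalised series
`N(v) = v * expR (- coeff 1 v)` does not change if `v` is multiplied by `expR ρ`; the coefficient of `x^k` in `N(S(c))`,
times `c^k`, is a polynomial `R_k(c)`. For `n ∈ N`, `c_n = -(A n + t)` (nonzero for all but one `n`):
`c_n^k coeff k (N(∑_k W_k(n) x^k)) = R_k(c_n)`; the left side is also a polynomial in `n`, so the identity holds for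
all `n`, in particular for `n = 0`, `c_0 = -t ≠ 0`; divide by `(-t)^k`. So `N(∑ W_k(0) x^k) = N(S(-t))`, and
`θ = coeff 1 (∑ W_k(0) x^k) - coeff 1 (S(-t))`. -/
def S_MPOLY : Prop := ∀ (b : Finset ℕ) (m : ℕ) (A t : ℝ) (Wp : ℕ → Polynomial ℝ) (N : Set ℤ),
  A ≠ 0 → t ≠ 0 → N.Infinite →
  (∀ n ∈ N, ∃ ρ : ℝ, ∀ k, (Wp k).eval (n : ℝ) =
    coeff k (expR ρ * Tg (rescale (A * (-(A * n + t))) (Gy b m (1 / (-(A * n + t)) ^ 2))))) →
  ∃ θ : ℝ, ∀ k, (Wp k).eval 0 =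
    coeff k (expR θ * Tg (rescale (A * (-t)) (Gy b m (1 / (-t) ^ 2))))

/-- SQ. Proof: `p(n)/n² → A²` along `F ≤ cofinite`, so `p` has degree at most `2` (an integer-indexed ultrafilter `≤ cofinite` has `|n| → ∞`),
`p = A² X² + y X + z`. `(c_n + A n)(c_n - A n) = y n + z` and `(c_n - A n)/n → -2A ≠ 0`, so `c_n + A n → y/(-2A)`;
a convergent function with integer values is eventually constant. -/
def S_SQ : Prop := ∀ (F : Ultrafilter ℤ) (c : ℤ → ℤ) (p : Polynomial ℝ) (A : ℕ),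
  (F : Filter ℤ) ≤ cofinite → 1 ≤ A → (∀ᶠ n in (F : Filter ℤ), ((c n : ℤ) : ℝ) ^ 2 = p.eval (n : ℝ)) →
  Tendsto (fun n : ℤ => ((c n : ℤ) : ℝ) / n) F (𝓝 (-(A : ℝ))) →
  ∃ t : ℤ, ∀ᶠ n in (F : Filter ℤ), c n = -((A : ℤ) * n + t)

/-- CONV. Proof: `(2k+1)!! |g_k x^k| ≤ C R^k` implies that `g = Gy b m (1/t²)` is entire
(`(2k+1)!! ≥ k!`). `g * shR^m = Ea b * rescale (1/t²) shR`. At `-π²`: the left side vanishes (`m ≥ 1`, `ev_shR_zero 1`),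
`ev (-π²) (Ea b) ≠ 0` (`ev_Ea_eq_zero` with `m = 1`, all `l ≥ 2`), so `ev (-π²/t²) shR = 0`, `sin (π/|t|) = 0`, `|t| = 1`. Then
`rescale 1 shR = shR` can be cancelled: `g * shR^(m-1) = Ea b`; if `m ≥ 2` evaluation at `-π²` gives a contradiction. -/
def S_CONV : Prop := ∀ (b : Finset ℕ) (m : ℕ) (t : ℤ) (x : ℝ), (∀ l ∈ b, 2 ≤ l) → 1 ≤ m → t ≠ 0 →
  x ≠ 0 → Cv (Tg (rescale x (Gy b m (1 / (t : ℝ) ^ 2)))) → m = 1 ∧ |t| = 1

end

end Pool.Agent.H765.BZ
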