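import Mathlib
import Pool.Agent.H765.BZ.Stm

/-! # Project BZ (helper765), task ALIEN -/

namespace Pool.Agent.H765.BZ.ALIEN

open PowerSeries Finset Nat Real Filter Topology
open Pool.Agent.H765.BZ Pool.Agent.H765.CS

noncomputable section

/-- odd double factorials -/
def o (n : ℕ) : ℝ := ((2 * n + 1)‼ : ℕ)

theorem o_pos (n : ℕ) : 0 < o n := by
  unfold o
  exact_mod_cast Nat.doubleFactorial_pos _

theorem o_succ (n : ℕ) : o (n + 1) = (2 * (n : ℝ) + 3) * o n := by
  unfold o
  rw [odd_succ]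
  push_cast
  ring

theorem coeff_trunc_mul (M n : ℕ) (hn : M ≤ n) (δ g : ℝ⟦X⟧) :
    coeff n ((trunc M δ : ℝ⟦X⟧) * g) = ∑ i ∈ range M, coeff i δ * coeff (n - i) g := by
  rw [coeff_mul, Finset.Nat.sum_antidiagonal_eq_sum_range_succ
    (fun i j => coeff i (trunc M δ : ℝ⟦X⟧) * coeff j g) n]
  have h : range M ⊆ range (n + 1) := by
    intro i hi
    rw [Finset.mem_range] at hi ⊢
    omega
  rw [← Finset.sum_subset h]
  · refine sum_congr rfl fun i hi => ?_
    rw [Polynomial.coeff_coe, coeff_trunc, if_pos (Finset.mem_range.1 hi)]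
  · intro i _ hi
    rw [Finset.mem_range] at hi
    rw [Polynomial.coeff_coe, coeff_trunc, if_neg hi, MulZeroClass.zero_mul]

/-- multiplication of the coefficients by linear factors -/
def vr (u : ℝ⟦X⟧) : ℕ → ℝ⟦X⟧
  | 0 => u
  | r + 1 => C 2 * th (vr u r) + C (1 - 2 * (r : ℝ)) * vr u r

theorem vr_QE (h2 : S_QEC) {u : ℝ⟦X⟧} (hu : QE u) (r : ℕ) : QE (vr u r) := by
  induction r with
  | zero => exact hu
  | succ r ih => exact h2.1 _ _ (h2.2.1 _ _ (h2.2.2.1 _ ih)) (h2.2.1 _ _ ih)

theorem vr_coeff (u : ℝ⟦X⟧) (n r : ℕ) (h : r ≤ n) : o (n - r) * coeff n (vr u r) =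
    o n * coeff n u := by
  induction r with
  | zero => rfl
  | succ r ih =>
    rw [← ih (by omega), vr, map_add, coeff_C_mul, coeff_C_mul, th, coeff_mk]
    obtain ⟨m, rfl⟩ : ∃ m, n = m + 1 + r := ⟨n - r - 1, by omega⟩
    rw [show m + 1 + r - (r + 1) = m by omega, show m + 1 + r - r = m + 1 by omega, o_succ]
    push_cast
    ring

theorem QE_sum (h2 : S_QEC) {u : ℝ⟦X⟧} (hu : QE u) (s : Finset ℕ) (f : ℕ → ℝ⟦X⟧)
    (hf : ∀ i ∈ s, QE (f i)) : QE (u + ∑ i ∈ s, f i) := by
  classical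
  induction s using Finset.induction_on with
  | empty => simpa using hu
  | insert a s ha ih =>
    rw [sum_insert ha]
    have h3 : u + (f a + ∑ i ∈ s, f i) = (u + ∑ i ∈ s, f i) + f a := by ring
    rw [h3]
    exact h2.1 _ _ (ih fun i hi => hf i (mem_insert_of_mem hi)) (hf a (mem_insert_self a s))

theorem final_est (y d Cc a b N p i0 : ℝ) (hp : 0 ≤ p) (hi : 1 ≤ i0) (hC : 0 ≤ Cc)
    (ha : a = 2 * p + 5) (hb : b = 2 * p + 3) (hN : N = p + i0 + 2)
    (h : |a * b * y - d * b| ≤ Cc) :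
    |y - d / 2 / N| ≤ (Cc + |d| * (2 * i0)) * (i0 + 2) ^ 2 / N ^ 2 := by
  have ha0 : 0 < a := by rw [ha]; linarith
  have hb0 : 0 < b := by rw [hb]; linarith
  have hN0 : 0 < N := by rw [hN]; linarith
  have h1 : |y - d / a| ≤ Cc / (a * b) := by
    rw [le_div_iff₀ (by positivity), ← abs_of_pos (show 0 < a * b by positivity), ← abs_mul]
    have : (y - d / a) * (a * b) = a * b * y - d * b := by
      field_simp
    rw [this]
    exact h
  have h2 : |d / a - d / 2 / N| ≤ |d| * (2 * i0) / (a * N) := by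
    have e : d / a - d / 2 / N = d * ((2 * i0 - 1) / 2) / (a * N) := by
      field_simp
      rw [ha, hN]
      ring
    rw [e, abs_div, abs_mul, abs_of_pos (show 0 < a * N by positivity)]
    refine div_le_div_of_nonneg_right ?_ (by positivity)
    refine mul_le_mul_of_nonneg_left ?_ (abs_nonneg _)
    rw [abs_of_nonneg (by linarith)]
    linarith
  have h3 : |y - d / 2 / N| ≤ Cc / (a * b) + |d| * (2 * i0) / (a * N) := by
    have e : y - d / 2 / N = (y - d / a) + (d / a - d / 2 / N) := by ring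
    rw [e]
    exact (abs_add_le _ _).trans (add_le_add h1 h2)
  refine h3.trans ?_
  have hp1 : 0 < (p + 1) ^ 2 := by positivity
  have h4 : Cc / (a * b) ≤ Cc / (p + 1) ^ 2 := by
    refine div_le_div_of_nonneg_left hC hp1 ?_
    rw [ha, hb]
    nlinarith
  have h5 : |d| * (2 * i0) / (a * N) ≤ |d| * (2 * i0) / (p + 1) ^ 2 := by
    refine div_le_div_of_nonneg_left (by positivity) hp1 ?_
    rw [ha, hN]
    nlinarith
  have h6 : Cc / (p + 1) ^ 2 + |d| * (2 * i0) / (p + 1) ^ 2 ≤
      (Cc + |d| * (2 * i0)) * (i0 + 2) ^ 2 / N ^ 2 := by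
    rw [← add_div, div_le_div_iff₀ hp1 (by positivity)]
    have h7 : N ^ 2 ≤ (i0 + 2) ^ 2 * (p + 1) ^ 2 := by
      rw [← mul_pow]
      refine pow_le_pow_left₀ hN0.le ?_ 2
      rw [hN]
      nlinarith
    have h8 : 0 ≤ Cc + |d| * (2 * i0) := by positivity
    calc (Cc + |d| * (2 * i0)) * N ^ 2 ≤
        (Cc + |d| * (2 * i0)) * ((i0 + 2) ^ 2 * (p + 1) ^ 2) := mul_le_mul_of_nonneg_left h7 h8
      _ = _ := by ring
  linarith

theorem inv_pow_mul {x : ℝ} (hx0 : x ≠ 0) (n i : ℕ) (hi : i ≤ n) :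
    x⁻¹ ^ (n - i) * x ^ n = x ^ i := by
  obtain ⟨m, rfl⟩ := Nat.exists_eq_add_of_le hi
  rw [Nat.add_sub_cancel_left, pow_add, mul_comm (x ^ i), ← mul_assoc, ← mul_pow,
    inv_mul_cancel₀ hx0, one_pow, one_mul]

theorem t_ALIEN (h1 : S_POLE) (h2 : S_QEC) : S_ALIEN := by
  intro u δ J hu hAs
  have hpi := Real.pi_pos
  have hp2 : (0 : ℝ) < π ^ 2 := by positivity
  set x : ℝ := -π ^ 2 with hx
  have hx0 : x ≠ 0 := by
    rw [hx]
    linarith
  have hxa : |x| = π ^ 2 := by rw [hx, abs_neg, abs_of_pos hp2]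
  -- the main step
  have key : ∀ i0 : ℕ, 1 ≤ i0 → coeff (J + i0) δ = 0 := by
    intro i0
    induction i0 using Nat.strong_induction_on with
    | _ i0 ih =>
    intro hi0
    obtain ⟨C0, hC0⟩ := hAs (J + i0 + 1)
    set d : ℝ := coeff (J + i0) δ * x ^ (J + i0) with hd
    -- the expansion
    have e1 : ∀ p : ℕ, J ≤ p →
        |o (p + i0 + 1) * coeff (p + i0 + 1) u * x ^ (p + i0 + 1) -
          (∑ i ∈ range (J + 1), coeff i δ * x ^ i * (o (p + i0 + 1) * Q (J - i) (p + i0 + 1))) -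
          d * o (p + 1)| ≤ C0 * (π ^ 2) ^ (J + i0 + 1) * o p := by
      intro p hp
      obtain ⟨k, rfl⟩ := Nat.exists_eq_add_of_le hp
      have h3 := hC0 k
      have hn : k + (J + i0 + 1) = J + k + i0 + 1 := by ring
      rw [hn] at h3
      set n := J + k + i0 + 1 with hndef
      have h4 : coeff n (Tg u - (trunc (J + i0 + 1) δ : ℝ⟦X⟧) * T (tt J (1 / π ^ 2)) (-1) -
          (trunc (J + i0 + 1) (0 : ℝ⟦X⟧) : ℝ⟦X⟧) * T (tt J (1 / π ^ 2)) (- -1)) =
          o n * coeff n u - ∑ i ∈ range (J + i0 + 1), coeff i δ * (x⁻¹ ^ (n - i) *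
            o (n - i + J)) := by
        rw [map_zero, Polynomial.coe_zero, MulZeroClass.zero_mul, sub_zero, map_sub,
          coeff_trunc_mul _ _ (by omega), Tg, coeff_mk]
        congr 1
        refine sum_congr rfl fun i _ => ?_
        rw [T, coeff_mk, tt]
        have h5 : (-1 : ℝ) ^ (n - i) * (1 / π ^ 2) ^ (n - i) = x⁻¹ ^ (n - i) := by
          rw [← mul_pow]
          congr 1
          rw [hx]
          field_simp
        rw [← h5, o]
        ring
      rw [h4] at h3
      have h5 : ∑ i ∈ range (J + i0 + 1), coeff i δ * (x⁻¹ ^ (n - i) * o (n - i + J)) =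
          (∑ i ∈ range (J + 1), coeff i δ * (x⁻¹ ^ (n - i) * o (n - i + J))) +
            coeff (J + i0) δ * (x⁻¹ ^ (n - (J + i0)) * o (n - (J + i0) + J)) := by
        rw [sum_range_succ]
        congr 1
        have h6 : range (J + 1) ⊆ range (J + i0) := by
          intro i hi
          rw [Finset.mem_range] at hi ⊢
          omega
        rw [← Finset.sum_subset h6]
        intro i hi hi'
        rw [Finset.mem_range] at hi hi'
        have h7 := ih (i - J) (by omega) (by omega)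
        rw [show J + (i - J) = i by omega] at h7
        rw [h7, MulZeroClass.zero_mul]
      rw [h5] at h3
      -- multiply by `x ^ n`
      have h6 : o n * coeff n u * x ^ n -
          (∑ i ∈ range (J + 1), coeff i δ * x ^ i * (o n * Q (J - i) n)) - d * o (J + k + 1) =
          (o n * coeff n u -
          ((∑ i ∈ range (J + 1), coeff i δ * (x⁻¹ ^ (n - i) * o (n - i + J))) +
            coeff (J + i0) δ * (x⁻¹ ^ (n - (J + i0)) * o (n - (J + i0) + J)))) * x ^ n := by
        have hxp : ∀ i, i ≤ n → x⁻¹ ^ (n - i) * x ^ n = x ^ i := inv_pow_mul hx0 n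
        rw [sub_mul, add_mul, sum_mul]
        have h7 : ∀ i ∈ range (J + 1), coeff i δ * x ^ i * (o n * Q (J - i) n) =
            coeff i δ * (x⁻¹ ^ (n - i) * o (n - i + J)) * x ^ n := by
          intro i hi
          rw [Finset.mem_range] at hi
          have h8 : o (n - i + J) = o n * Q (J - i) n := by
            rw [show n - i + J = n + (J - i) by omega]
            exact odd_Q (J - i) n
          rw [h8, ← hxp i (by omega)]
          ring
        have h9 : d * o (J + k + 1) =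
            coeff (J + i0) δ * (x⁻¹ ^ (n - (J + i0)) * o (n - (J + i0) + J)) * x ^ n := by
          rw [hd, ← hxp (J + i0) (by omega), show n - (J + i0) + J = J + k + 1 by omega]
          ring
        rw [sum_congr rfl h7, h9]
        ring
      rw [h6, abs_mul, abs_pow, hxa]
      have h7 : C0 * tt J (1 / π ^ 2) k * (π ^ 2) ^ n = C0 * (π ^ 2) ^ (J + i0 + 1) * o (J + k) := by
        rw [tt, o, show n = k + (J + i0 + 1) by omega, pow_add, one_div, inv_pow,
          show k + J = J + k by ring]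
        field_simp
      rw [← h7]
      exact mul_le_mul_of_nonneg_right h3 (by positivity)
    -- the series `u'`
    set u' : ℝ⟦X⟧ := u + ∑ i ∈ range (J + 1), C (-(coeff i δ * x ^ i)) * Mj (J - i) (geo (π ^ 2))
      with hu'
    have hQ : QE u' := QE_sum h2 hu _ _ fun i _ => h2.2.1 _ _ (h2.2.2.2 _ _ hp2)
    have hc' : ∀ n, coeff n u' * x ^ n = coeff n u * x ^ n -
        ∑ i ∈ range (J + 1), coeff i δ * x ^ i * Q (J - i) n := by
      intro n
      rw [hu', map_add, map_sum, add_mul, sum_mul, sub_eq_add_neg, ← sum_neg_distrib]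
      congr 1
      refine sum_congr rfl fun i _ => ?_
      rw [coeff_C_mul, Mj, coeff_mk, geo, coeff_mk, ← hx]
      have h3 : x⁻¹ ^ n * x ^ n = 1 := by
        rw [← mul_pow, inv_mul_cancel₀ hx0, one_pow]
      linear_combination (-(coeff i δ * x ^ i) * Q (J - i) n) * h3
    set V : ℝ⟦X⟧ := vr u' (i0 - 1) with hV
    have hVQ : QE V := vr_QE h2 hQ _
    set C1 : ℝ := C0 * (π ^ 2) ^ (J + i0 + 1) with hC1
    have hC1n : 0 ≤ C1 := by
      have h3 := (abs_nonneg _).trans (e1 J le_rfl)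
      exact nonneg_of_mul_nonneg_left h3 (o_pos J)
    have e2 : ∀ p : ℕ, J ≤ p → |(2 * (p : ℝ) + 5) * (2 * p + 3) *
        (coeff (p + i0 + 1) V * x ^ (p + i0 + 1)) - d * (2 * p + 3)| ≤ C1 := by
      intro p hp
      have h3 := e1 p hp
      have h4 := vr_coeff u' (p + i0 + 1) (i0 - 1) (by omega)
      rw [show p + i0 + 1 - (i0 - 1) = p + 1 + 1 by omega, o_succ, o_succ, ← hV] at h4
      have h5 := hc' (p + i0 + 1)
      have h6 : o (p + i0 + 1) * coeff (p + i0 + 1) u * x ^ (p + i0 + 1) -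
          (∑ i ∈ range (J + 1), coeff i δ * x ^ i * (o (p + i0 + 1) * Q (J - i) (p + i0 + 1))) -
          d * o (p + 1) = ((2 * (p : ℝ) + 5) * (2 * p + 3) *
        (coeff (p + i0 + 1) V * x ^ (p + i0 + 1)) - d * (2 * p + 3)) * o p := by
        have h7 : ∑ i ∈ range (J + 1), coeff i δ * x ^ i *
            (o (p + i0 + 1) * Q (J - i) (p + i0 + 1)) =
            o (p + i0 + 1) * ∑ i ∈ range (J + 1), coeff i δ * x ^ i * Q (J - i) (p + i0 + 1) := by
          rw [mul_sum]
          exact sum_congr rfl fun i _ => by ring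
        rw [h7, o_succ p]
        push_cast at h4
        linear_combination (-o (p + i0 + 1)) * h5 - x ^ (p + i0 + 1) * h4
      rw [h6, abs_mul, abs_of_pos (o_pos p)] at h3
      exact le_of_mul_le_mul_right h3 (o_pos p)
    -- the final estimate
    obtain ⟨E, hE0, hE, hVE⟩ := hVQ
    set K1 : ℝ := (C1 + |d| * (2 * (i0 : ℝ))) * ((i0 : ℝ) + 2) ^ 2 with hK1
    have hK1n : 0 ≤ K1 := by positivity
    have hk := h1 V E (V * E) x (d / 2)
      (K1 + ∑ n ∈ range (J + i0 + 1), |coeff n V * x ^ n - d / 2 / ((n : ℝ) + 1)| *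
        ((n : ℝ) + 1) ^ 2) hE0 hE hVE rfl hx0 (by
      intro n
      have hn0 : (0 : ℝ) < (n : ℝ) + 1 := by positivity
      rcases lt_or_ge n (J + i0 + 1) with hn | hn
      · rw [le_div_iff₀ (by positivity)]
        have h3 := single_le_sum (s := range (J + i0 + 1))
          (f := fun n : ℕ => |coeff n V * x ^ n - d / 2 / ((n : ℝ) + 1)| * ((n : ℝ) + 1) ^ 2)
          (fun n _ => by positivity) (Finset.mem_range.2 hn)
        linarith
      · obtain ⟨p, rfl⟩ : ∃ p, n = p + i0 + 1 := ⟨n - i0 - 1, by omega⟩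
        have h3 := final_est (coeff (p + i0 + 1) V * x ^ (p + i0 + 1)) d C1 (2 * (p : ℝ) + 5)
          (2 * (p : ℝ) + 3) (((p + i0 + 1 : ℕ) : ℝ) + 1) p i0 (Nat.cast_nonneg p)
          (by exact_mod_cast hi0) hC1n rfl rfl (by push_cast; ring) (e2 p (by omega))
        refine h3.trans ?_
        refine div_le_div_of_nonneg_right ?_ (by positivity)
        have h4 : 0 ≤ ∑ n ∈ range (J + i0 + 1),
            |coeff n V * x ^ n - d / 2 / ((n : ℝ) + 1)| * ((n : ℝ) + 1) ^ 2 :=
          sum_nonneg fun n _ => by positivity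
        linarith)
    have h3 : d = 0 := by linarith
    rw [hd] at h3
    rcases mul_eq_zero.1 h3 with h4 | h4
    · exact h4
    · exact absurd h4 (pow_ne_zero _ hx0)
  intro i hi
  have h3 := key (i - J) (by omega)
  rwa [show J + (i - J) = i by omega] at h3

end

end Pool.Agent.H765.BZ.ALIEN
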