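import Pool.Agent.H765.BZ.Stm

/-! ALPHA -/

namespace Pool.Agent.H765.BZ.ALPHA

open PowerSeries Finset Nat Real Filter Topology
open Pool.Agent.H765.BZ Pool.Agent.H765.CS

noncomputable section

theorem expR_bound (γ : ℝ) {ρ : ℝ} (hρ : 0 < ρ) (k : ℕ) :
    |coeff k (expR γ)| ≤ Real.exp (|γ| / ρ) * (((2 * k + 1)‼ : ℕ) * ρ ^ k) := by
  have e : coeff k (expR γ) = γ ^ k / (k ! : ℝ) := by
    unfold expR
    rw [coeff_rescale, coeff_exp]
    simp [div_eq_mul_inv]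
  have h1 := Real.pow_div_factorial_le_exp (|γ| / ρ) (by positivity) k
  have hk : (0 : ℝ) < (k ! : ℝ) := by positivity
  have h2 : (1 : ℝ) ≤ ((2 * k + 1)‼ : ℕ) := by
    exact_mod_cast Nat.doubleFactorial_pos _
  have hρk : 0 < ρ ^ k := pow_pos hρ k
  rw [e, abs_div, abs_pow, abs_of_pos hk]
  calc |γ| ^ k / (k ! : ℝ) = ((|γ| / ρ) ^ k / (k ! : ℝ)) * ρ ^ k := by
        rw [div_pow]; field_simp
    _ ≤ Real.exp (|γ| / ρ) * ρ ^ k := mul_le_mul_of_nonneg_right h1 hρk.le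
    _ ≤ Real.exp (|γ| / ρ) * (((2 * k + 1)‼ : ℕ) * ρ ^ k) := by
        apply mul_le_mul_of_nonneg_left _ (Real.exp_pos _).le
        exact le_mul_of_one_le_left hρk.le h2

/-- ALPHA -/
theorem t_ALPHA (h1 : S_ALIEN) (h2 : S_LEADG) (h3 : S_EXPPOLY) : S_ALPHA := by
  intro u b m γ hQ hm hb hT
  obtain ⟨A, hA0, hA⟩ := h2 b m hm hb
  have hβ : (0 : ℝ) < 1 / π ^ 2 := by positivity
  have hg : As (tt m (1 / π ^ 2)) (-1) (expR γ) 0 0 :=
    As.gevrey m hβ (ρ := 1 / π ^ 2 / 2) (by positivity) (by linarith [half_lt_self hβ]) (-1)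
      (expR_bound γ (by positivity))
  have hm2 := As.mul (tt_rapid m hβ) (ω := -1) (by norm_num) hg hA
  simp only [MulZeroClass.mul_zero, add_zero] at hm2
  rw [← hT] at hm2
  exact h3 A γ m hA0 (h1 u _ m hQ hm2)

end

end Pool.Agent.H765.BZ.ALPHA
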