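import Pool.Agent.H765.BZ.Stm

/-! Project BZ (helper765), lemma BETA. -/

namespace Pool.Agent.H765.BZ.BETA

open PowerSeries Finset Nat Real Filter Topology
open Pool.Agent.H765.BZ Pool.Agent.H765.CS

noncomputable section

/-- orders of products -/
theorem od_prod {ν : ℝ}
    (hmul : ∀ (f g : ℝ⟦X⟧) (k l : ℕ), Od ν k f → Od ν l g → Od ν (k + l) (f * g))
    (hne : ∀ f : ℝ⟦X⟧, Ent f → ev (-ν) f ≠ 0 → Od ν 0 f)
    (s : Finset ℕ) (f : ℕ → ℝ⟦X⟧) (k : ℕ → ℕ) (h : ∀ i ∈ s, Od ν (k i) (f i)) :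
    Od ν (∑ i ∈ s, k i) (∏ i ∈ s, f i) := by
  classical
  induction s using Finset.induction_on with
  | empty =>
    rw [sum_empty, prod_empty]
    exact hne 1 Ent.one (by rw [ev_one]; exact one_ne_zero)
  | insert a s ha ih =>
    rw [sum_insert ha, prod_insert ha]
    exact hmul _ _ _ _ (h a (mem_insert_self a s)) (ih fun i hi => h i (mem_insert_of_mem hi))

theorem od_pow {ν : ℝ}
    (hmul : ∀ (f g : ℝ⟦X⟧) (k l : ℕ), Od ν k f → Od ν l g → Od ν (k + l) (f * g))
    (hne : ∀ f : ℝ⟦X⟧, Ent f → ev (-ν) f ≠ 0 → Od ν 0 f)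
    {f : ℝ⟦X⟧} (h : Od ν 1 f) (m : ℕ) : Od ν m (f ^ m) := by
  induction m with
  | zero =>
    rw [pow_zero]
    exact hne 1 Ent.one (by rw [ev_one]; exact one_ne_zero)
  | succ m ih =>
    rw [pow_succ]
    exact hmul _ _ _ _ ih h

theorem prod_dvd (b : Finset ℕ) (A : ℕ) (hc : ∀ l ∈ b, ∀ l' ∈ b, l ≠ l' → Nat.Coprime l l')
    (hA : ∀ l ∈ b, l ∣ A) : ∏ l ∈ b, l ∣ A := by
  classical
  induction b using Finset.induction_on with
  | empty => rw [prod_empty]; exact one_dvd _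
  | insert a s ha ih =>
    rw [prod_insert ha]
    apply Nat.Coprime.mul_dvd_of_dvd_of_dvd _ (hA a (mem_insert_self a s))
      (ih (fun l hl l' hl' h => hc l (mem_insert_of_mem hl) l' (mem_insert_of_mem hl') h)
        (fun l hl => hA l (mem_insert_of_mem hl)))
    apply Nat.Coprime.prod_right
    intro i hi
    exact hc a (mem_insert_self a s) i (mem_insert_of_mem hi) (by rintro rfl; exact ha hi)

/-- the relation without denominators -/
theorem rel (D : ℝ⟦X⟧) (b : Finset ℕ) (m : ℕ) (μ : ℝ) (h : D * rescale μ (Gm b m) = shR) :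
    shR * (rescale μ shR) ^ m = D * ∏ l ∈ b, rescale (μ / (l : ℝ) ^ 2) shR := by
  have h1 : rescale μ (Gm b m) * (rescale μ shR) ^ m = ∏ l ∈ b, rescale (μ / (l : ℝ) ^ 2) shR := by
    rw [Gm, map_mul, map_pow, mul_assoc, ← mul_pow, ← map_mul,
      PowerSeries.inv_mul_cancel _ shR_const, map_one, one_pow, mul_one, Ea, map_prod]
    refine prod_congr rfl fun l _ => ?_
    rw [rescale_rescale]
    congr 2
    ring
  rw [← h1, ← mul_assoc, h]

theorem t_BETA (h1 : S_ORD) : S_BETA := by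
  intro D b m μ hD hDne hm hb2 hbc hcard hrel
  have hR := rel D b m μ hrel
  have hpi := Real.pi_pos
  have hpi2 : (0 : ℝ) < π ^ 2 := by positivity
  have hr1 : rescale (1 : ℝ) shR = shR := by rw [rescale_one]; rfl
  obtain ⟨o1, o2, o3, o4, o5⟩ := h1 (π ^ 2) hpi2
  have hDe : ev (-π ^ 2) D ≠ 0 := by
    have := hDne 1 le_rfl
    rwa [Nat.cast_one, one_mul] at this
  have hEb : ∀ l : ℕ, Ent (rescale (μ / (l : ℝ) ^ 2) shR) := fun l => Ent.shR.rescale _
  -- Step 1: `μ` is the square of a natural number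
  obtain ⟨A, hA1, hA⟩ : ∃ A : ℕ, 1 ≤ A ∧ μ = (A : ℝ) ^ 2 := by
    have e1 : ev (-π ^ 2) (D * ∏ l ∈ b, rescale (μ / (l : ℝ) ^ 2) shR) = 0 := by
      rw [← hR, Ent.shR.ev_mul ((Ent.shR.rescale _).pow m)]
      have := ev_shR_zero 1 le_rfl
      rw [Nat.cast_one, one_mul] at this
      rw [this, zero_mul]
    rw [hD.ev_mul (Ent.prod b _ fun l _ => hEb l)] at e1
    have e2 := (mul_eq_zero.1 e1).resolve_left hDe
    rw [ev_prod (ρ := |-π ^ 2|) le_rfl b _ fun l _ => hEb l _ (abs_nonneg _), prod_eq_zero_iff] at e2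
    obtain ⟨l, hl, hl0⟩ := e2
    by_contra hcon
    have h3 : ∀ j : ℕ, 1 ≤ j → μ / (l : ℝ) ^ 2 * π ^ 2 ≠ (j * π) ^ 2 := by
      intro j hj hjj
      apply hcon
      have hl2 := hb2 l hl
      have hl0' : (0 : ℝ) < l := by exact_mod_cast (by omega : 0 < l)
      refine ⟨l * j, Nat.mul_pos (by omega) hj, ?_⟩
      rw [mul_pow] at hjj
      have h4 := mul_right_cancel₀ hpi2.ne' hjj
      rw [div_eq_iff (by positivity)] at h4
      rw [h4]
      push_cast
      ring
    obtain ⟨g, -, hg, hfg⟩ := o5 _ h3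
    rw [pow_zero, mul_one] at hfg
    rw [hfg] at hl0
    exact hg hl0
  subst hA
  have hA0 : (0 : ℝ) < A := by exact_mod_cast hA1
  -- the orders at `-π²`
  have hL : Od (π ^ 2) (1 + m) (shR * (rescale ((A : ℝ) ^ 2) shR) ^ m) := by
    apply o1
    · have := o4 1 1 le_rfl (by simp)
      rwa [hr1] at this
    · exact od_pow o1 o3 (o4 _ A hA1 (by ring)) m
  have hRR : Od (π ^ 2) (0 + ∑ l ∈ b, if l ∣ A then 1 else 0)
      (D * ∏ l ∈ b, rescale ((A : ℝ) ^ 2 / (l : ℝ) ^ 2) shR) := by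
    apply o1 _ _ _ _ (o3 D hD hDe)
    apply od_prod o1 o3
    intro l hl
    have hl2 := hb2 l hl
    have hl0 : (0 : ℝ) < l := by exact_mod_cast (by omega : 0 < l)
    split_ifs with hd
    · obtain ⟨k, hk⟩ := hd
      have hk1 : 1 ≤ k := by
        rcases Nat.eq_zero_or_pos k with h0 | h0
        · rw [h0, Nat.mul_zero] at hk
          omega
        · exact h0
      apply o4 _ k hk1
      rw [hk]
      push_cast
      field_simp
    · apply o5
      intro j hj hjj
      apply hd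
      refine ⟨j, ?_⟩
      rw [mul_pow] at hjj
      have h4 := mul_right_cancel₀ hpi2.ne' hjj
      rw [div_eq_iff (by positivity), ← mul_pow] at h4
      have h5 := (pow_left_inj₀ hA0.le (by positivity) two_ne_zero).1 h4
      have h6 : A = j * l := by exact_mod_cast h5
      rw [h6, Nat.mul_comm]
  rw [← hR] at hRR
  have hle1 : 0 + ∑ l ∈ b, (if l ∣ A then 1 else 0) ≤ 1 + m := by
    obtain ⟨g, hg, -, hfg⟩ := hRR
    exact o2 _ g _ _ hL hg hfg
  have hle2 : 1 + m ≤ 0 + ∑ l ∈ b, (if l ∣ A then 1 else 0) := by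
    obtain ⟨g, hg, -, hfg⟩ := hL
    exact o2 _ g _ _ hRR hg hfg
  rw [zero_add, sum_boole, Nat.cast_id] at hle2
  have hfc : (b.filter fun l => l ∣ A).card ≤ b.card := card_filter_le _ _
  have hbm : b.card = m + 1 := by omega
  have hfil : b.filter (fun l => l ∣ A) = b :=
    eq_of_subset_of_card_le (filter_subset _ _) (by omega)
  have hdiv : ∀ l ∈ b, l ∣ A := fun l hl => by
    rw [← hfil, mem_filter] at hl
    exact hl.2
  obtain ⟨κ, hκ⟩ := prod_dvd b A hbc hdiv
  set P := ∏ l ∈ b, l with hP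
  have hP0 : 0 < P := Nat.pos_of_ne_zero (by
    intro h0
    rw [h0, Nat.zero_mul] at hκ
    omega)
  have hκ0 : 0 < κ := Nat.pos_of_ne_zero (by
    intro h0
    rw [h0, Nat.mul_zero] at hκ
    omega)
  have hPR : (0 : ℝ) < P := by exact_mod_cast hP0
  have hκR : (0 : ℝ) < κ := by exact_mod_cast hκ0
  have hAR : (A : ℝ) = P * κ := by rw [hκ]; push_cast; ring
  -- Step 2
  have hκ1 : κ = 1 := by
    by_contra hcon
    have hκ2 : 2 ≤ κ := by omega
    have hν : (0 : ℝ) < (π / κ) ^ 2 := by positivity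
    obtain ⟨q1, q2, q3, q4, q5⟩ := h1 ((π / κ) ^ 2) hν
    have e1 : Od ((π / κ) ^ 2) 0 shR := by
      have h2 := q5 1 (by
        intro j hj hjj
        rw [one_mul] at hjj
        have h5 := (pow_left_inj₀ (by positivity) (by positivity) two_ne_zero).1 hjj
        rw [div_eq_iff hκR.ne'] at h5
        have h6 : (1 : ℝ) = j * κ := by
          have h7 : π * 1 = π * (j * κ) := by rw [mul_one]; linarith
          exact mul_left_cancel₀ hpi.ne' h7
        have h8 : 1 = j * κ := by exact_mod_cast h6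
        nlinarith)
      rwa [hr1] at h2
    have e2 : Od ((π / κ) ^ 2) 1 (rescale ((A : ℝ) ^ 2) shR) := by
      apply q4 _ P hP0
      rw [hAR]
      field_simp
    have e3 := q1 _ _ _ _ e1 (od_pow q1 q3 e2 m)
    have e4 : Od ((π / κ) ^ 2) (∑ l ∈ b, 1) (∏ l ∈ b, rescale ((A : ℝ) ^ 2 / (l : ℝ) ^ 2) shR) := by
      apply od_prod q1 q3
      intro l hl
      have hl2 := hb2 l hl
      have hl0 : (0 : ℝ) < l := by exact_mod_cast (by omega : 0 < l)
      obtain ⟨k, hk⟩ : l ∣ P := dvd_prod_of_mem _ hl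
      have hk1 : 1 ≤ k := by
        rcases Nat.eq_zero_or_pos k with h0 | h0
        · rw [h0, Nat.mul_zero] at hk
          omega
        · exact h0
      apply q4 _ k hk1
      rw [hAR, hk]
      push_cast
      field_simp
    obtain ⟨g, hg, -, hfg⟩ := e4
    rw [hR, hfg, ← mul_assoc] at e3
    have h9 := q2 _ (D * g) _ _ e3 (hD.mul hg) rfl
    rw [sum_const, smul_eq_mul, mul_one] at h9
    omega
  refine ⟨?_, hbm⟩
  rw [hAR, hκ1, hP]
  push_cast
  ring

end

end Pool.Agent.H765.BZ.BETA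

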