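import Pool.Agent.H765.BZ.Stm

/-! Project BZ (helper765): the lemma CONV. -/

set_option autoImplicit false

namespace Pool.Agent.H765.BZ.CONV

open PowerSeries Finset Nat Real Filter Topology
open Pool.Agent.H765.BZ Pool.Agent.H765.CS

theorem fac_le (k : ℕ) : k ! ≤ (2 * k + 1)‼ := by
  induction k with
  | zero => simp
  | succ k ih =>
    rw [Nat.factorial_succ, show 2 * (k + 1) + 1 = (2 * k + 1) + 2 by ring,
      Nat.doubleFactorial_add_two]
    exact Nat.mul_le_mul (by omega) ih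

/-- a series with a convergent transform is entire -/
theorem ent_of_cv {g : ℝ⟦X⟧} {x : ℝ} (hx : x ≠ 0) (h : Cv (Tg (rescale x g))) : Ent g := by
  obtain ⟨C, R, hR, hC⟩ := h
  have hx0 : 0 < |x| := abs_pos.2 hx
  intro ρ hρ
  have hs := (Real.summable_pow_div_factorial (R * ρ / |x|)).mul_left C
  refine Summable.of_nonneg_of_le (fun n => by positivity) (fun n => ?_) hs
  have h1 := hC n
  rw [Tg, coeff_mk, coeff_rescale, abs_mul, abs_mul, abs_pow,
    abs_of_nonneg (Nat.cast_nonneg _ : (0 : ℝ) ≤ (((2 * n + 1)‼ : ℕ) : ℝ))] at h1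
  have hf : ((n ! : ℕ) : ℝ) ≤ (((2 * n + 1)‼ : ℕ) : ℝ) := by exact_mod_cast fac_le n
  have hf0 : (0 : ℝ) < ((n ! : ℕ) : ℝ) := by exact_mod_cast Nat.factorial_pos n
  have h2 : ((n ! : ℕ) : ℝ) * (|x| ^ n * |coeff n g|) ≤ C * R ^ n :=
    (mul_le_mul_of_nonneg_right hf (by positivity)).trans h1
  have h3 : |coeff n g| * ρ ^ n * (((n ! : ℕ) : ℝ) * |x| ^ n) ≤ C * R ^ n * ρ ^ n := by
    have := mul_le_mul_of_nonneg_right h2 (pow_nonneg hρ n)
    linarith
  have h4 : C * ((R * ρ / |x|) ^ n / ((n ! : ℕ) : ℝ)) =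
      (C * R ^ n * ρ ^ n) / (((n ! : ℕ) : ℝ) * |x| ^ n) := by
    rw [div_pow, mul_pow]
    field_simp
  rw [h4, le_div_iff₀ (by positivity)]
  exact h3

theorem const_ne : constantCoeff shR ≠ 0 := by
  rw [← coeff_zero_eq_constantCoeff_apply, shR, coeff_mk]
  norm_num

theorem t_CONV : S_CONV := by
  intro b m t x hb hm ht hx hcv
  obtain ⟨g, hg⟩ : ∃ g, g = Gy b m (1 / (t : ℝ) ^ 2) := ⟨_, rfl⟩
  rw [← hg] at hcv
  have hge : Ent g := ent_of_cv hx hcv
  have hmul : g * shR ^ m = Ea b * rescale (1 / (t : ℝ) ^ 2) shR := by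
    rw [hg, Gy, mul_assoc, ← mul_pow, PowerSeries.inv_mul_cancel _ const_ne, one_pow, mul_one]
  have h0 : ev (-(((1 : ℕ) : ℝ) * π) ^ 2) shR = 0 := ev_shR_zero 1 le_rfl
  have hE : ev (-(((1 : ℕ) : ℝ) * π) ^ 2) (Ea b) ≠ 0 := by
    intro h
    obtain ⟨l, hl, hd⟩ := (ev_Ea_eq_zero hb le_rfl).1 h
    have h1 := hb l hl
    have h2 := Nat.le_of_dvd one_pos hd
    omega
  have hpow : ∀ k : ℕ, 1 ≤ k → ev (-(((1 : ℕ) : ℝ) * π) ^ 2) (g * shR ^ k) = 0 := by
    intro k hk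
    rw [hge.ev_mul (Ent.shR.pow k), ev_pow le_rfl (Ent.shR.W _), h0, zero_pow (by omega),
      MulZeroClass.mul_zero]
  -- the first evaluation
  have h1 : ev (1 / (t : ℝ) ^ 2 * -(((1 : ℕ) : ℝ) * π) ^ 2) shR = 0 := by
    have h2 := hpow m hm
    rw [hmul, (Ent.Ea b).ev_mul (Ent.shR.rescale _), ev_rescale] at h2
    exact (mul_eq_zero.1 h2).resolve_left hE
  have hT : 1 ≤ t.natAbs := Int.natAbs_pos.2 ht
  have hTr : (1 : ℝ) ≤ (t.natAbs : ℝ) := by exact_mod_cast hT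
  have ht2 : (t : ℝ) ^ 2 = (t.natAbs : ℝ) ^ 2 := by
    rw [Nat.cast_natAbs, Int.cast_abs, sq_abs]
  have hT1 : t.natAbs = 1 := by
    by_contra hne
    have hT2 : 2 ≤ t.natAbs := by omega
    have hT2r : (2 : ℝ) ≤ (t.natAbs : ℝ) := by exact_mod_cast hT2
    have e : 1 / (t : ℝ) ^ 2 * -(((1 : ℕ) : ℝ) * π) ^ 2 = -(π / (t.natAbs : ℝ)) ^ 2 := by
      rw [ht2, Nat.cast_one, one_mul, div_pow]
      ring
    rw [e] at h1
    have h4 := ev_shR (π / (t.natAbs : ℝ))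
    rw [h1, MulZeroClass.mul_zero] at h4
    have h5 : 0 < Real.sin (π / (t.natAbs : ℝ)) := by
      refine Real.sin_pos_of_pos_of_lt_pi (div_pos Real.pi_pos (by linarith)) ?_
      rw [div_lt_iff₀ (by linarith)]
      nlinarith [Real.pi_pos]
    linarith
  refine ⟨?_, ?_⟩
  · obtain ⟨k, rfl⟩ : ∃ k, m = k + 1 := ⟨m - 1, by omega⟩
    have hr : rescale (1 / (t : ℝ) ^ 2) shR = shR := by
      rw [ht2, hT1, Nat.cast_one, one_pow, div_one, rescale_one]
      rfl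
    rw [hr, pow_succ, ← mul_assoc] at hmul
    have hne : (shR : ℝ⟦X⟧) ≠ 0 := by
      intro h
      apply const_ne
      rw [h, map_zero]
    have h2 := mul_right_cancel₀ hne hmul
    by_contra hk
    have h3 := hpow k (by omega)
    rw [h2] at h3
    exact hE h3
  · rw [Int.abs_eq_natAbs, hT1]
    rfl

end Pool.Agent.H765.BZ.CONV
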