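import Mathlib
import Pool.Agent.H765.BZ.Stm

/-! Further statements (the case of trivial Alexander polynomial). -/

namespace Pool.Agent.H765.BZ

open PowerSeries Finset Nat Real Filter Topology
open Pool.Agent.H765.CS

noncomputable section

/-- second and third cumulant: the coefficients of `x²` and `x³` in `log V` (for `V(0) = 1`) -/
def cu2 (V : ℝ⟦X⟧) : ℝ := coeff 2 V - (coeff 1 V) ^ 2 / 2
def cu3 (V : ℝ⟦X⟧) : ℝ := coeff 3 V - coeff 1 V * coeff 2 V + (coeff 1 V) ^ 3 / 3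

/-- NORM3. `f_1 = L_1`, `f_2 = (L_2 + L_1²)/2`, `f_3 = (L_3 + f_1 L_2 + f_2 L_1)/3`; `Tg f = 1 + 3 f_1 x + 15 f_2 x² +
105 f_3 x³ + ...`; the cumulant does not change if `V` is multiplied by `expR r`. Also `coeff 3 Lsh = 1/945`
(`log sh(w) = w/6 - w²/180 + w³/2835 - ...`; use `Lsh * shR = th shR`). -/
def S_NORM3 : Prop := coeff 3 Lsh = 1 / 945 ∧ ∀ (f L : ℝ⟦X⟧) (r : ℝ), constantCoeff f = 1 →
  constantCoeff L = 0 → th f = f * L →
  cu3 (expR r * Tg f) = 35 * coeff 3 L + 30 * coeff 1 L * coeff 2 L + 4 * (coeff 1 L) ^ 3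

/-- RATIO. Use S_LOG, S_NORM2, S_NORM3, S_SUMS as hypotheses. Proof: `s = card - 2 ≥ 1`,
`e_k = s - ∑_{l ∈ a} l^(-2k)` lies in `[s/4, s]` for `k ≥ 1` (S_SUMS). `L_1 = -x e_1/6`, `L_2 = x² e_2/90`, `L_3 = -x³ e_3/945`, so
`cu2 = x² (e_1² + e_2)/12`, `cu3 = -x³ (2 e_3 + 3 e_1 e_2 + e_1³)/54`. Lower bounds from `e_1 ≥ s/4`, `e_k ≥ 0`, upper bounds from
`e_k ≤ s`, `s ≤ s² ≤ s³`. -/
def S_RATIO : Prop := ∀ (a : Finset ℕ) (x r : ℝ), IsFib a →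
  x ^ 2 / 192 ≤ cu2 (expR r * sg a x) ∧
  (cu2 (expR r * sg a x)) ^ 3 ≤ 55296 * (cu3 (expR r * sg a x)) ^ 2 ∧
  (cu3 (expR r * sg a x)) ^ 2 ≤ 87382 * (cu2 (expR r * sg a x)) ^ 3

/-- PAR. Parity of the degrees. Proof: `q = a n + b`, `a ≠ 0`, `S` infinite in `ℤ`, so there is a sequence in `S` with `|n| → ∞`;
`|q(n)|³ ~ |a|³|n|³` and `s(n)² ~ l² n^(2d)` (`s ≠ 0` because otherwise `q(n)³ ≤ 0 ≤ q(n)` gives `q(n) = 0` infinitely often); both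
inequalities force `2 d = 3`. -/
def S_PAR : Prop := ∀ (q s : Polynomial ℝ) (S : Set ℤ) (C1 C2 : ℝ), S.Infinite →
  (∀ n ∈ S, 0 ≤ q.eval (n : ℝ) ∧ (q.eval (n : ℝ)) ^ 3 ≤ C1 * (s.eval (n : ℝ)) ^ 2 ∧
    (s.eval (n : ℝ)) ^ 2 ≤ C2 * (q.eval (n : ℝ)) ^ 3) → q.natDegree ≠ 1

/-- DEG. Proof: a polynomial of degree `d ≥ 2` satisfies `|q(n)|/n² → ∞` or a nonzero constant. -/
def S_DEG : Prop := ∀ q : Polynomial ℝ,
  Tendsto (fun n : ℤ => q.eval (n : ℝ) / (n : ℝ) ^ 2) cofinite (𝓝 0) → q.natDegree ≤ 1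

/-- CONST. Proof: `|P n| = ∏ a n ≤ K` leaves finitely many pairs `(a n, P n)` (every element of `a n` is `≤ K`), so by the pigeonhole
principle some pair `(a, P)` occurs for all `n` in an infinite subset `S'`. Put `u = sg a P` (`coeff 0 u = 1`, e.g. from S_LOG or
directly: `coeff 0 (GR a) = 1`). For `n ∈ S'`: `r n = (V 1).eval n - coeff 1 u`, so the coefficient of `x^k` in `expR (r n) * u` is a
polynomial in `n`, namely `∑_{i+j=k} ((V 1).eval n - coeff 1 u)^i / i! * coeff j u`; it agrees with `V k` on `S'`, hence for all `n`,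
in particular at `n = 0`: `mk (k ↦ (V k).eval 0) = expR ρ * u`. So `u` is `Cv` (multiply by `expR (-ρ)`; `Cv` is closed under products:
theorem `cv_mul` in the comment below), so `|(2k+1)!! coeff k (GR a) P^k| ≤ C R^k` and `GR a` is entire. But
`GR a * shR^(a.card - 2) = Ea a`; evaluate at `-π²` (`ev_shR_zero 1`, `a.card - 2 ≥ 1`): the left side vanishes, the right side does
not (`ev_Ea_eq_zero` with `m = 1`, all `l ≥ 2`).
(`cv_mul`: `∑_{i+j=k} K R^i K' R'^j ≤ K K' (k+1) (R+R')^k ≤ K K' (2 (R+R'))^k`.) -/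
def S_CONST : Prop := ∀ (V : ℕ → Polynomial ℝ) (S : Set ℤ) (a : ℤ → Finset ℕ) (P : ℤ → ℤ)
  (r : ℤ → ℝ) (K : ℤ), S.Infinite →
  (∀ n ∈ S, IsFib (a n) ∧ |P n| = ∏ l ∈ a n, (l : ℤ) ∧ |P n| ≤ K ∧
    ∀ k, (V k).eval (n : ℝ) = coeff k (expR (r n) * sg (a n) (P n))) →
  ¬ Cv (PowerSeries.mk fun k => (V k).eval 0)

end

end Pool.Agent.H765.BZ
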