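import Mathlib
import Pool.Agent.H765.BZ.Stm2

set_option autoImplicit false

/-! Project BZ part 2: `S_DEG`. -/

namespace Pool.Agent.H765.BZ.DEG

open Filter Topology
open Pool.Agent.H765.BZ Pool.Agent.H765.CS

theorem t_DEG : S_DEG := by
  intro q hq
  by_contra hd
  have hd2 : 2 ≤ q.natDegree := by omega
  have hq0 : q ≠ 0 := by
    rintro rfl
    rw [Polynomial.natDegree_zero] at hd2
    omega
  -- restrict to the natural numbers
  have h1 : Tendsto (fun m : ℕ => q.eval (m : ℝ) / (m : ℝ) ^ 2) atTop (𝓝 0) := by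
    have h2 : Tendsto (fun m : ℕ => (m : ℤ)) atTop cofinite := by
      rw [← Nat.cofinite_eq_atTop]
      exact Function.Injective.tendsto_cofinite Nat.cast_injective
    have h3 := hq.comp h2
    refine h3.congr ?_
    intro m
    change q.eval (((m : ℤ) : ℝ)) / (((m : ℤ) : ℝ)) ^ 2 = _
    rw [Int.cast_natCast]
  have hX : (Polynomial.X ^ 2 : Polynomial ℝ).degree = 2 := Polynomial.degree_X_pow 2
  have hX0 : (Polynomial.X ^ 2 : Polynomial ℝ) ≠ 0 := pow_ne_zero _ Polynomial.X_ne_zero
  have hev : ∀ x : ℝ, (Polynomial.X ^ 2 : Polynomial ℝ).eval x = x ^ 2 := fun x => by simp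
  rcases Nat.lt_or_ge 2 q.natDegree with h | h
  · have hdeg : (Polynomial.X ^ 2 : Polynomial ℝ).degree < q.degree := by
      rw [hX, Polynomial.degree_eq_natDegree hq0]
      exact_mod_cast h
    have h4 := (Polynomial.abs_div_tendsto_atTop_atTop_of_degree_gt q (Polynomial.X ^ 2) hdeg hX0).comp
      tendsto_natCast_atTop_atTop
    have h5 := h1.abs
    rw [abs_zero] at h5
    refine not_tendsto_nhds_of_tendsto_atTop h4 0 ?_
    refine h5.congr ?_
    intro m
    change _ = |q.eval (m : ℝ) / (Polynomial.X ^ 2 : Polynomial ℝ).eval (m : ℝ)|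
    rw [hev]
  · have hdeg : q.degree = (Polynomial.X ^ 2 : Polynomial ℝ).degree := by
      rw [hX, Polynomial.degree_eq_natDegree hq0]
      have : q.natDegree = 2 := by omega
      rw [this]
      rfl
    have h4 := (Polynomial.div_tendsto_atTop_leadingCoeff_div_of_degree_eq q (Polynomial.X ^ 2) hdeg).comp
      tendsto_natCast_atTop_atTop
    have h5 : q.leadingCoeff / (Polynomial.X ^ 2 : Polynomial ℝ).leadingCoeff = 0 := by
      refine tendsto_nhds_unique h4 ?_
      refine h1.congr ?_
      intro m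
      change _ = q.eval (m : ℝ) / (Polynomial.X ^ 2 : Polynomial ℝ).eval (m : ℝ)
      rw [hev]
    rw [Polynomial.leadingCoeff_X_pow, div_one] at h5
    exact hq0 (Polynomial.leadingCoeff_eq_zero.mp h5)

end Pool.Agent.H765.BZ.DEG
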