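import Pool.Agent.H765.BZ.Stm

/-! Project BZ (helper765): DSER. -/

set_option autoImplicit false

namespace Pool.Agent.H765.BZ.DSER

open PowerSeries Finset Nat Real Filter Topology
open Pool.Agent.H765.BZ Pool.Agent.H765.CS Pool.Agent.H765

noncomputable section

theorem coeff_hexp (c : ℚ) (n : ℕ) : coeff n (GK.hexp c) = c ^ n * (1 / (n ! : ℚ)) := by
  unfold GK.hexp
  rw [coeff_rescale, coeff_exp]
  rfl

theorem hexp_add (a b : ℚ) : GK.hexp a * GK.hexp b = GK.hexp (a + b) := by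
  unfold GK.hexp
  exact exp_mul_exp_eq_exp_add a b

theorem hexp_zero : GK.hexp 0 = 1 := by
  ext n
  rw [coeff_hexp, coeff_one]
  rcases Nat.eq_zero_or_pos n with h | h
  · subst h
    simp
  · rw [if_neg (by omega), zero_pow (by omega), zero_mul]

theorem rescale_hexp (c : ℚ) : rescale (-1 : ℚ) (GK.hexp c) = GK.hexp (-c) := by
  ext n
  rw [coeff_rescale, coeff_hexp, coeff_hexp, neg_pow c n]
  ring

theorem Ent_sum {ι : Type} (s : Finset ι) (f : ι → ℝ⟦X⟧) (hf : ∀ i ∈ s, Ent (f i)) :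
    Ent (∑ i ∈ s, f i) := by
  classical
  induction s using Finset.induction_on with
  | empty =>
    rw [sum_empty]
    have h := Ent.C 0
    rwa [map_zero] at h
  | insert a s ha ih =>
    rw [sum_insert ha]
    exact (hf a (mem_insert_self a s)).add (ih fun i hi => hf i (mem_insert_of_mem hi))

theorem ev_sum {ι : Type} (s : Finset ι) (f : ι → ℝ⟦X⟧) (μ : ℝ) (hf : ∀ i ∈ s, Ent (f i)) :
    ev μ (∑ i ∈ s, f i) = ∑ i ∈ s, ev μ (f i) := by
  classical
  induction s using Finset.induction_on with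
  | empty => rw [sum_empty, sum_empty, ev_zero]
  | insert a s ha ih =>
    rw [sum_insert ha, sum_insert ha, Ent.ev_add (hf a (mem_insert_self a s))
      (Ent_sum s f fun i hi => hf i (mem_insert_of_mem hi)),
      ih fun i hi => hf i (mem_insert_of_mem hi)]

/-- the even series `∑ b_i e^{(2i-k)y}` -/
def gg (B : Polynomial ℤ) (k : ℤ) : ℚ⟦X⟧ :=
  ∑ i ∈ range (B.natDegree + 1), C ((B.coeff i : ℤ) : ℚ) * GK.hexp (2 * (i : ℚ) - k)

/-- the series `D` -/
def DD (B : Polynomial ℤ) (k : ℤ) : ℝ⟦X⟧ :=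
  ∑ i ∈ range (B.natDegree + 1),
    C ((B.coeff i : ℤ) : ℝ) * rescale ((2 * (i : ℝ) - k) ^ 2) chR

theorem Ent_chR : Ent chR := fun ρ h => W.chR ρ h

theorem Ent_DD (B : Polynomial ℤ) (k : ℤ) : Ent (DD B k) :=
  Ent_sum _ _ fun _ _ => (Ent_chR.rescale _).C_mul _

theorem coeff_DD (B : Polynomial ℤ) (k : ℤ) (j : ℕ) :
    coeff j (DD B k) = ((coeff (2 * j) (gg B k) : ℚ) : ℝ) := by
  unfold DD gg
  rw [map_sum, map_sum]
  push_cast
  refine sum_congr rfl fun i _ => ?_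
  rw [coeff_C_mul, coeff_C_mul, coeff_rescale, coeff_hexp, chR, coeff_mk, ← pow_mul]
  push_cast
  ring

theorem gg_mul (B : Polynomial ℤ) (k : ℤ) (w : ℚ⟦X⟧) (h : Alx B k w) :
    gg B k * w = GK.hexp 1 - GK.hexp (-1) := by
  have h1 : gg B k = GK.hexp (-k) *
      ∑ i ∈ range (B.natDegree + 1), C ((B.coeff i : ℤ) : ℚ) * GK.hexp (2 * (i : ℚ)) := by
    unfold gg
    rw [mul_sum]
    refine sum_congr rfl fun i _ => ?_
    have h2 : (2 * (i : ℚ) - k) = -k + 2 * (i : ℚ) := by ring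
    rw [h2, ← hexp_add]
    ring
  rw [h1, mul_assoc, h.2.1, ← mul_assoc, hexp_add, neg_add_cancel, hexp_zero, one_mul]

theorem coeff_E (n : ℕ) : coeff (2 * n + 1) (GK.hexp 1 - GK.hexp (-1)) =
    2 * (1 / ((2 * n + 1)! : ℚ)) := by
  rw [map_sub, coeff_hexp, coeff_hexp, pow_succ (-1 : ℚ), pow_mul]
  norm_num
  ring

theorem w_ne (B : Polynomial ℤ) (k : ℤ) (w : ℚ⟦X⟧) (h : Alx B k w) : w ≠ 0 := by
  intro h0
  have h1 := gg_mul B k w h
  rw [h0, mul_zero] at h1
  have h2 := coeff_E 0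
  rw [← h1] at h2
  norm_num at h2

theorem gg_odd (B : Polynomial ℤ) (k : ℤ) (w : ℚ⟦X⟧) (h : Alx B k w) {n : ℕ} (hn : Odd n) :
    coeff n (gg B k) = 0 := by
  have hw : rescale (-1 : ℚ) w = -w := by
    ext m
    rw [coeff_rescale, map_neg]
    rcases Nat.even_or_odd m with hm | hm
    · rw [h.2.2 m hm]; ring
    · rw [hm.neg_one_pow]; ring
  have h1 := gg_mul B k w h
  have h2 := congrArg (rescale (-1 : ℚ)) h1
  rw [map_mul, hw, map_sub, rescale_hexp, rescale_hexp, neg_neg] at h2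
  have h3 : rescale (-1 : ℚ) (gg B k) * w = gg B k * w := by
    rw [h1]
    linear_combination -h2
  have h4 := mul_right_cancel₀ (w_ne B k w h) h3
  have h5 := congrArg (coeff n) h4
  rw [coeff_rescale, hn.neg_one_pow] at h5
  linarith

theorem DD_mul (B : Polynomial ℤ) (k : ℤ) (w : ℚ⟦X⟧) (h : Alx B k w) :
    DD B k * hf w = shR := by
  ext n
  have h1 : coeff (2 * n + 1) (gg B k * w) = 2 * (1 / ((2 * n + 1)! : ℚ)) := by
    rw [gg_mul B k w h, coeff_E]
  rw [coeff_mul] at h1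
  have h2 : ∑ p ∈ antidiagonal (2 * n + 1), coeff p.1 (gg B k) * coeff p.2 w =
      ∑ p ∈ antidiagonal n, coeff (2 * p.1) (gg B k) * coeff (2 * p.2 + 1) w := by
    have h3 : ∑ p ∈ (antidiagonal n).image (fun p : ℕ × ℕ => (2 * p.1, 2 * p.2 + 1)),
        coeff p.1 (gg B k) * coeff p.2 w =
        ∑ p ∈ antidiagonal n, coeff (2 * p.1) (gg B k) * coeff (2 * p.2 + 1) w := by
      rw [sum_image]
      intro p _ q _ hpq
      have e1 := (Prod.mk.injEq _ _ _ _).mp hpq
      exact Prod.ext (by omega) (by omega)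
    rw [← h3]
    symm
    refine sum_subset ?_ ?_
    · intro p hp
      obtain ⟨q, hq, rfl⟩ := mem_image.mp hp
      rw [HasAntidiagonal.mem_antidiagonal] at hq ⊢
      simp only
      omega
    · intro p hp hnot
      rw [HasAntidiagonal.mem_antidiagonal] at hp
      rcases Nat.even_or_odd p.1 with hp1 | hp1
      · exfalso
        apply hnot
        obtain ⟨r, hr⟩ := hp1
        refine mem_image.mpr ⟨(r, n - r), ?_, ?_⟩
        · rw [HasAntidiagonal.mem_antidiagonal]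
          simp only
          omega
        · exact Prod.ext (by simp only; omega) (by simp only; omega)
      · rw [gg_odd B k w h hp1, zero_mul]
  rw [h2] at h1
  rw [coeff_mul, shR, coeff_mk]
  have h4 : ∑ p ∈ antidiagonal n, coeff p.1 (DD B k) * coeff p.2 (hf w) =
      ((∑ p ∈ antidiagonal n, coeff (2 * p.1) (gg B k) * coeff (2 * p.2 + 1) w : ℚ) : ℝ) / 2 := by
    push_cast
    rw [sum_div]
    refine sum_congr rfl fun p _ => ?_
    rw [coeff_DD, hf, coeff_mk]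
    ring
  rw [h4, h1]
  push_cast
  ring

theorem ev_DD (B : Polynomial ℤ) (k : ℤ) (w : ℚ⟦X⟧) (h : Alx B k w) (j : ℕ) :
    ev (-(j * π) ^ 2) (DD B k) ≠ 0 := by
  unfold DD
  rw [ev_sum _ _ _ fun i _ => (Ent_chR.rescale _).C_mul _]
  have h1 : ∀ i ∈ range (B.natDegree + 1),
      ev (-(j * π) ^ 2) (C ((B.coeff i : ℤ) : ℝ) * rescale ((2 * (i : ℝ) - k) ^ 2) chR) =
      ((B.coeff i : ℤ) : ℝ) * Real.cos (((k * j : ℤ) : ℝ) * π) := by
    intro i _
    rw [ev_C_mul, ev_rescale]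
    have h2 : (2 * (i : ℝ) - k) ^ 2 * -(j * π) ^ 2 = -((2 * (i : ℝ) - k) * (j * π)) ^ 2 := by ring
    rw [h2, ev_chR]
    have h3 : (2 * (i : ℝ) - k) * (j * π) =
        -(((k * j : ℤ) : ℝ) * π) + ((i * j : ℤ) : ℝ) * (2 * π) := by
      push_cast
      ring
    rw [h3, Real.cos_add_int_mul_two_pi, Real.cos_neg]
  rw [sum_congr rfl h1, ← sum_mul]
  have h4 : ∑ i ∈ range (B.natDegree + 1), ((B.coeff i : ℤ) : ℝ) = 1 := by
    have h5 := h.1
    rw [Polynomial.eval_eq_sum_range] at h5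
    simp only [one_pow, mul_one] at h5
    exact_mod_cast h5
  rw [h4, one_mul, Real.cos_int_mul_pi]
  exact zpow_ne_zero _ (by norm_num)

/-- DSER -/
theorem t_DSER : S_DSER := by
  intro B k w h
  exact ⟨DD B k, Ent_DD B k, DD_mul B k w h, fun j _ => ev_DD B k w h j⟩

end

end Pool.Agent.H765.BZ.DSER
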