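import Pool.Agent.H765.BZ.Stm

/-! ENT: if the leading part of the Melvin-Morton expansion is entire, then the Alexander polynomial
is a monomial (helper597 for helper765). -/

set_option autoImplicit false

namespace Pool.Agent.H765.BZ.ENT

open Pool.Agent.H765.BZ Pool.Agent.H765.CS Pool.Agent.H765
open PowerSeries Finset

noncomputable section

/-- the terms of the series at a complex number -/
def tm (y : ℂ) (f : ℚ⟦X⟧) (n : ℕ) : ℂ := ((coeff n f : ℚ) : ℂ) * y ^ n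

/-- absolutely convergent at `y`, with the value `v` -/
def HE (y : ℂ) (f : ℚ⟦X⟧) (v : ℂ) : Prop := (Summable fun n => ‖tm y f n‖) ∧ HasSum (tm y f) v

theorem HE_C (y : ℂ) (a : ℚ) : HE y (C a) (a : ℂ) := by
  have h : ∀ n, n ≠ 0 → tm y (C a) n = 0 := by
    intro n hn
    unfold tm
    rw [coeff_C, if_neg hn]
    simp
  have h0 : tm y (C a) 0 = (a : ℂ) := by
    unfold tm
    rw [coeff_C, if_pos rfl]
    simp
  refine ⟨?_, ?_⟩
  · refine (hasSum_single 0 fun n hn => ?_).summable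
    rw [h n hn, norm_zero]
  · have := hasSum_single (f := tm y (C a)) 0 h
    rwa [h0] at this

theorem HE_add {y u v : ℂ} {f g : ℚ⟦X⟧} (hf : HE y f u) (hg : HE y g v) : HE y (f + g) (u + v) := by
  have h : tm y (f + g) = fun n => tm y f n + tm y g n := by
    funext n
    unfold tm
    rw [map_add]
    push_cast
    ring
  refine ⟨?_, ?_⟩
  · refine Summable.of_nonneg_of_le (fun n => norm_nonneg _) (fun n => ?_) (hf.1.add hg.1)
    rw [h]
    exact norm_add_le _ _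
  · rw [h]
    exact hf.2.add hg.2

theorem HE_mul {y u v : ℂ} {f g : ℚ⟦X⟧} (hf : HE y f u) (hg : HE y g v) : HE y (f * g) (u * v) := by
  have h : tm y (f * g) = fun n => ∑ kl ∈ antidiagonal n, tm y f kl.1 * tm y g kl.2 := by
    funext n
    unfold tm
    rw [coeff_mul, Rat.cast_sum, Finset.sum_mul]
    refine Finset.sum_congr rfl fun kl hkl => ?_
    rw [← Finset.HasAntidiagonal.mem_antidiagonal.1 hkl, pow_add]
    push_cast
    ring
  have h1 := summable_norm_sum_mul_antidiagonal_of_summable_norm hf.1 hg.1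
  have h2 := tsum_mul_tsum_eq_tsum_sum_antidiagonal_of_summable_norm hf.1 hg.1
  rw [hf.2.tsum_eq, hg.2.tsum_eq] at h2
  refine ⟨?_, ?_⟩
  · rw [h]
    exact h1
  · rw [h, h2]
    exact h1.of_norm.hasSum

theorem HE_sum {y : ℂ} (s : Finset ℕ) (f : ℕ → ℚ⟦X⟧) (v : ℕ → ℂ) (h : ∀ i, HE y (f i) (v i)) :
    HE y (∑ i ∈ s, f i) (∑ i ∈ s, v i) := by
  classical
  induction s using Finset.induction_on with
  | empty =>
    have := HE_C y 0
    simpa using this
  | insert a s ha ih =>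
    rw [Finset.sum_insert ha, Finset.sum_insert ha]
    exact HE_add (h a) ih

theorem HE_hexp (y : ℂ) (c : ℚ) : HE y (GK.hexp c) (Complex.exp ((c : ℂ) * y)) := by
  have h : tm y (GK.hexp c) = fun n : ℕ => ((c : ℂ) * y) ^ n / (n.factorial : ℂ) := by
    funext n
    unfold tm GK.hexp
    rw [coeff_rescale, coeff_exp]
    simp only [Algebra.algebraMap_self, RingHom.id_apply]
    push_cast
    rw [mul_pow]
    ring
  refine ⟨?_, ?_⟩
  · rw [h]
    exact NormedSpace.norm_expSeries_div_summable ((c : ℂ) * y)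
  · rw [h, Complex.exp_eq_exp_ℂ]
    exact NormedSpace.expSeries_div_hasSum_exp ((c : ℂ) * y)

theorem HE_unique {y u v : ℂ} {f : ℚ⟦X⟧} (h : HE y f u) (h' : HE y f v) : u = v :=
  h.2.unique h'.2

theorem HE_entire {w : ℚ⟦X⟧}
    (hw : ∀ ρ : ℝ, 0 ≤ ρ → Summable fun n : ℕ => |((coeff n w : ℚ) : ℝ)| * ρ ^ n) (y : ℂ) :
    ∃ v, HE y w v := by
  have h : (fun n => ‖tm y w n‖) = fun n : ℕ => |((coeff n w : ℚ) : ℝ)| * ‖y‖ ^ n := by
    funext n
    unfold tm
    have e : ((coeff n w : ℚ) : ℂ) = (((coeff n w : ℚ) : ℝ) : ℂ) := by push_cast; rfl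
    rw [norm_mul, norm_pow, e, Complex.norm_real, Real.norm_eq_abs]
  have h1 : Summable fun n => ‖tm y w n‖ := by
    rw [h]
    exact hw _ (norm_nonneg _)
  exact ⟨_, h1, h1.of_norm.hasSum⟩

/-- a polynomial with two nonzero coefficients has a nonzero complex root -/
theorem exists_nonzero_root (B : Polynomial ℤ) (i j : ℕ) (hij : i < j) (hi : B.coeff i ≠ 0)
    (hj : B.coeff j ≠ 0) :
    ∃ β : ℂ, β ≠ 0 ∧ (B.map (Int.castRingHom ℂ)).eval β = 0 := by
  obtain ⟨Q, hQ⟩ : ∃ Q, Q = B.map (Int.castRingHom ℂ) := ⟨_, rfl⟩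
  have hQi : Q.coeff i ≠ 0 := by
    rw [hQ, Polynomial.coeff_map]
    simpa using hi
  have hQj : Q.coeff j ≠ 0 := by
    rw [hQ, Polynomial.coeff_map]
    simpa using hj
  have hQ0 : Q ≠ 0 := by
    rintro rfl
    exact hQi (Polynomial.coeff_zero i)
  rw [← hQ]
  obtain ⟨q, hq, hnd⟩ := Polynomial.exists_eq_pow_rootMultiplicity_mul_and_not_dvd Q hQ0 0
  obtain ⟨m, hm⟩ : ∃ m, m = Q.rootMultiplicity 0 := ⟨_, rfl⟩
  rw [← hm, Polynomial.C_0, sub_zero] at hq
  rw [Polynomial.dvd_iff_isRoot] at hnd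
  by_cases hdeg : q.degree = 0
  · exfalso
    rw [Polynomial.eq_C_of_degree_eq_zero hdeg, mul_comm] at hq
    have e : ∀ l, Q.coeff l ≠ 0 → l = m := by
      intro l hl
      by_contra hlm
      apply hl
      rw [hq, Polynomial.coeff_C_mul, Polynomial.coeff_X_pow, if_neg hlm, mul_zero]
    have h1 := e i hQi
    have h2 := e j hQj
    omega
  · obtain ⟨z, hz⟩ := IsAlgClosed.exists_root q hdeg
    refine ⟨z, ?_, ?_⟩
    · rintro rfl
      exact hnd hz
    · rw [hq, Polynomial.eval_mul, hz.eq_zero, mul_zero]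

/-- **ENT**. -/
theorem t_ENT : S_ENT := by
  rintro B k w ⟨hB1, hrel, -⟩ hw ⟨i, j, hij, hi, hj⟩
  obtain ⟨β, hβ0, hβ⟩ := exists_nonzero_root B i j hij hi hj
  obtain ⟨y, hy⟩ : ∃ y : ℂ, Complex.exp (2 * y) = β :=
    ⟨Complex.log β / 2, by rw [mul_div_cancel₀ _ (two_ne_zero), Complex.exp_log hβ0]⟩
  obtain ⟨W, hW⟩ := HE_entire hw y
  have h1 : HE y (∑ i ∈ range (B.natDegree + 1), C ((B.coeff i : ℤ) : ℚ) * GK.hexp (2 * (i : ℚ)))
      (∑ i ∈ range (B.natDegree + 1), (((B.coeff i : ℤ) : ℚ) : ℂ) *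
        Complex.exp (((2 * (i : ℚ) : ℚ) : ℂ) * y)) :=
    HE_sum _ _ _ fun i => HE_mul (HE_C y _) (HE_hexp y _)
  have h2 : (∑ i ∈ range (B.natDegree + 1), (((B.coeff i : ℤ) : ℚ) : ℂ) *
        Complex.exp (((2 * (i : ℚ) : ℚ) : ℂ) * y)) = 0 := by
    rw [Polynomial.eval_map, Polynomial.eval₂_eq_sum_range] at hβ
    rw [← hβ]
    refine Finset.sum_congr rfl fun i _ => ?_
    have e : ((2 * (i : ℚ) : ℚ) : ℂ) * y = (i : ℂ) * (2 * y) := by
      push_cast
      ring
    rw [e, Complex.exp_nat_mul, hy]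
    simp
  rw [h2] at h1
  have h3 := HE_mul h1 hW
  rw [zero_mul, hrel] at h3
  have h4 : HE y (GK.hexp k * (GK.hexp 1 - GK.hexp (-1)))
      (Complex.exp (((k : ℚ) : ℂ) * y) * (Complex.exp (((1 : ℚ) : ℂ) * y) +
        ((-1 : ℚ) : ℂ) * Complex.exp (((-1 : ℚ) : ℂ) * y))) := by
    have e : GK.hexp 1 - GK.hexp (-1) = GK.hexp 1 + C (-1 : ℚ) * GK.hexp (-1) := by
      rw [map_neg, map_one]
      ring
    rw [e]
    exact HE_mul (HE_hexp y _) (HE_add (HE_hexp y _) (HE_mul (HE_C y _) (HE_hexp y _)))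
  have h5 := HE_unique h4 h3
  have h6 : Complex.exp y = Complex.exp (-y) := by
    have h7 := (mul_eq_zero.1 h5).resolve_left (Complex.exp_ne_zero _)
    push_cast at h7
    rw [one_mul, neg_one_mul, neg_one_mul] at h7
    exact eq_of_sub_eq_zero (by rw [sub_eq_add_neg]; exact h7)
  have h8 : β = 1 := by
    rw [← hy, two_mul, Complex.exp_add]
    nth_rewrite 2 [h6]
    rw [← Complex.exp_add, add_neg_cancel, Complex.exp_zero]
  rw [h8] at hβ
  have h9 : (B.map (Int.castRingHom ℂ)).eval 1 = ((B.eval 1 : ℤ) : ℂ) := by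
    simp
  rw [hβ, hB1] at h9
  simp at h9

end

end Pool.Agent.H765.BZ.ENT
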