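import Pool.Agent.H765.BZ.Stm

/-! `e^{γ x} A(x)` is not a polynomial. -/

namespace Pool.Agent.H765.BZ.EXPPOLY

open PowerSeries
open Pool.Agent.H765.BZ Pool.Agent.H765.CS

theorem d_expR (γ : ℝ) : PowerSeries.derivative ℝ (expR γ) = C γ * expR γ := by
  ext k
  rw [PowerSeries.coeff_derivative, coeff_C_mul, expR, coeff_rescale, coeff_rescale, coeff_exp,
    coeff_exp, Nat.factorial_succ]
  have h : ((k.factorial : ℕ) : ℝ) ≠ 0 := by exact_mod_cast k.factorial_ne_zero
  have h2 : ((k : ℝ) + 1) ≠ 0 := by positivity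
  simp only [map_div₀, map_one, map_mul, map_add, map_natCast, Nat.cast_mul, Nat.cast_add,
    Nat.cast_one, pow_succ]
  field_simp

theorem expR_ne (γ : ℝ) : expR γ ≠ 0 := by
  intro h
  have h1 := congrArg (coeff 0) h
  rw [expR, coeff_rescale, coeff_exp, map_zero] at h1
  norm_num at h1

theorem key {γ : ℝ} (hγ : γ ≠ 0) (n : ℕ) : ∀ A B : Polynomial ℝ, A ≠ 0 →
    expR γ * (A : ℝ⟦X⟧) = (B : ℝ⟦X⟧) → B.natDegree < n → False := by
  induction n with
  | zero => intro A B _ _ h; exact absurd h (Nat.not_lt_zero _)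
  | succ n ih =>
    intro A B hA hAB hn
    set A1 : Polynomial ℝ := Polynomial.C γ * A + Polynomial.derivative A with hA1
    have h1 : expR γ * (A1 : ℝ⟦X⟧) = ((Polynomial.derivative B : Polynomial ℝ) : ℝ⟦X⟧) := by
      have h2 := congrArg (PowerSeries.derivative ℝ) hAB
      rw [PowerSeries.derivative_coe, Derivation.leibniz, d_expR, PowerSeries.derivative_coe,
        smul_eq_mul, smul_eq_mul] at h2
      rw [← h2, hA1, Polynomial.coe_add, Polynomial.coe_mul, Polynomial.coe_C]
      ring
    have h3 : A1 ≠ 0 := by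
      intro h0
      have h4 := congrArg (fun p => Polynomial.coeff p A.natDegree) h0
      simp only [hA1, Polynomial.coeff_add, Polynomial.coeff_C_mul, Polynomial.coeff_derivative,
        Polynomial.coeff_zero] at h4
      rw [Polynomial.coeff_eq_zero_of_natDegree_lt (Nat.lt_succ_self _), zero_mul, add_zero] at h4
      rcases mul_eq_zero.mp h4 with h5 | h5
      · exact hγ h5
      · exact hA (Polynomial.leadingCoeff_eq_zero.mp h5)
    rcases Nat.eq_zero_or_pos B.natDegree with h4 | h4
    · have h5 : Polynomial.derivative B = 0 := Polynomial.derivative_of_natDegree_zero h4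
      rw [h5, Polynomial.coe_zero] at h1
      rcases mul_eq_zero.mp h1 with h6 | h6
      · exact expR_ne γ h6
      · apply h3
        rwa [Polynomial.coe_eq_zero_iff] at h6
    · exact ih A1 _ h3 h1 (lt_of_lt_of_le (Polynomial.natDegree_derivative_lt h4.ne')
        (Nat.le_of_lt_succ hn))

theorem t_EXPPOLY : S_EXPPOLY := by
  intro A γ J hA h
  by_contra hγ
  refine key hγ _ A (trunc (J + 1) (expR γ * (A : ℝ⟦X⟧))) hA ?_ (Nat.lt_succ_self _)
  ext i
  rw [Polynomial.coeff_coe, coeff_trunc]
  split_ifs with h1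
  · rfl
  · exact h i (by omega)

end Pool.Agent.H765.BZ.EXPPOLY
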