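import Mathlib
import Pool.Agent.H765.BZ.Stm
import Pool.Agent.H765.CS.TS
import Pool.Agent.H765.MM.AllPairs

/-! The knot side. -/

namespace Pool.Agent.H765.BZ

open PowerSeries Filter Topology
open Pool.Agent.H765.CS Pool.Agent.H765.MM Pool.Agent.H765.GK Nat

noncomputable section

theorem ev_expand_eq (B : Polynomial ℤ) : MM.ev (Polynomial.expand ℤ 2 B) =
    ∑ i ∈ Finset.range (B.natDegree + 1), C ((B.coeff i : ℤ) : ℚ) * hexp (2 * (i : ℚ)) := by
  rw [Polynomial.expand_eq_comp_X_pow, MM.ev, Polynomial.coe_eval₂RingHom, Polynomial.eval₂_comp,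
    Polynomial.eval₂_eq_sum_range]
  apply Finset.sum_congr rfl
  intro i _
  rw [Polynomial.eval₂_pow, Polynomial.eval₂_X, ← pow_mul, hexp_nat]
  push_cast
  congr 1
  simp

theorem alx_of {J : ℤ → ℚ⟦X⟧} {c : ℚ} (h : JonesFn J c) : ∃ B k, Alx B k (wf J) := by
  obtain ⟨B, k, hB, hw⟩ := h.alex
  refine ⟨B, k, hB, ?_, wf_odd h.odd (bd_of_mm h.mm)⟩
  rw [← ev_expand_eq, hw]

/-- the normalised series -/
def vn (J : ℤ → ℚ⟦X⟧) (n : ℤ) : ℚ⟦X⟧ :=
  C (1 / 2 : ℚ) * shift (hexp 1 - hexp (-1)) * ohtsuki n J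

/-- the limit -/
def al (J : ℤ → ℚ⟦X⟧) : ℚ⟦X⟧ := shift (C (-1 / 2) * hexp (1 / 2) * gtop (mmCoeff J)) * C (1 / 2)

theorem SL_vn (J : ℤ → ℚ⟦X⟧) : SL (vn J) (al J) := by
  have h1 := (SL.const (C (1 / 2 : ℚ) * shift (hexp 1 - hexp (-1)))).mul (SL_ohtsuki J)
  have h2 : constantCoeff (shift (hexp 1 - hexp (-1))) = 2 := dd_const
  have h3 : (C (constantCoeff (C (1 / 2 : ℚ) * shift (hexp 1 - hexp (-1)))) : ℚ⟦X⟧) = 1 := by
    rw [map_mul, h2, constantCoeff_C]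
    norm_num
  rw [h3, one_mul] at h1
  exact h1

theorem tendsto_cast {α : Type*} {F : Filter α} {f : α → ℚ} {x : ℚ} (h : Tendsto f F (𝓝 x)) :
    Tendsto (fun n => ((f n : ℚ) : ℝ)) F (𝓝 (x : ℝ)) :=
  (Rat.continuous_coe_real.tendsto x).comp h

theorem SL_vnR (J : ℤ → ℚ⟦X⟧) (k : ℕ) : Tendsto (fun n : ℤ => coeff k (mp (vn J n)) / (n : ℝ) ^ k)
    cofinite (𝓝 (coeff k (mp (al J)))) := by
  have h := tendsto_cast (SL_vn J k)
  rw [coeff_mp]
  refine h.congr fun n => ?_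
  rw [coeff_mp]
  push_cast
  rfl

theorem mp_hexp (b : ℚ) : mp (hexp b) = expR b := by
  ext k
  rw [coeff_mp, hexp, expR, coeff_rescale, coeff_rescale, coeff_exp, coeff_exp]
  push_cast
  simp

theorem shift_mul_of_const {f g : ℚ⟦X⟧} (h : constantCoeff g = 0) :
    shift (f * g) = f * shift g := by
  have h1 : X * shift (f * g) = X * (f * shift g) := by
    rw [X_mul_shift (by rw [map_mul, h, mul_zero]), mul_left_comm, X_mul_shift h]
  exact mul_left_cancel₀ X_ne_zero h1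

theorem al_eq (J : ℤ → ℚ⟦X⟧) : mp (al J) = expR (1 / 2) * Tg (rescale (-1) (hf (wf J))) := by
  have h0 : constantCoeff (gtop (mmCoeff J)) = 0 := by
    rw [← coeff_zero_eq_constantCoeff_apply, gtop, coeff_mk, if_pos rfl]
  have h1 : al J = hexp (1 / 2) * (C (-1 / 4 : ℚ) * shift (gtop (mmCoeff J))) := by
    rw [al, shift_mul_of_const h0]
    have h2 : (C (-1 / 2 : ℚ) * C (1 / 2 : ℚ) : ℚ⟦X⟧) = C (-1 / 4) := by
      rw [← map_mul]
      norm_num
    rw [← h2]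
    ring
  rw [h1, map_mul, mp_hexp]
  congr 1
  · push_cast
    rfl
  · ext k
    rw [coeff_mp, coeff_C_mul, shift, coeff_mk, gtop, coeff_mk, if_neg (Nat.succ_ne_zero k), Tg,
      coeff_mk, coeff_rescale, hf, coeff_mk, show 2 * (k + 1) - 1 = 2 * k + 1 by omega, wf,
      coeff_mk]
    push_cast
    ring

end

end Pool.Agent.H765.BZ
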