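import Mathlib
import Pool.Agent.H765.BZ.KSide

/-! Auxiliary facts for the final argument. -/

namespace Pool.Agent.H765.BZ

open PowerSeries Filter Topology
open Pool.Agent.H765.CS Pool.Agent.H765.MM Pool.Agent.H765.GK Nat

noncomputable section

theorem coeff_expR (c : ℝ) (k : ℕ) : coeff k (expR c) = c ^ k * (1 / (k ! : ℝ)) := by
  rw [expR, coeff_rescale, coeff_exp]
  simp

theorem expR_zero : expR 0 = 1 := by
  rw [expR, rescale_zero_apply]
  simp

theorem expR_add (a b : ℝ) : expR (a + b) = expR a * expR b :=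
  (PowerSeries.exp_mul_exp_eq_exp_add a b).symm

theorem expR_neg_mul (a : ℝ) : expR (-a) * expR a = 1 := by
  rw [← expR_add, neg_add_cancel, expR_zero]

theorem rescale_expR (x c : ℝ) : rescale x (expR c) = expR (c * x) := by
  ext k
  rw [coeff_rescale, coeff_expR, coeff_expR, mul_pow]
  ring

theorem rescale_Tg (x : ℝ) (f : ℝ⟦X⟧) : rescale x (Tg f) = Tg (rescale x f) := by
  ext k
  rw [coeff_rescale, Tg, Tg, coeff_mk, coeff_mk, coeff_rescale]
  ring

theorem rescale_comp (x y : ℝ) (f : ℝ⟦X⟧) : rescale x (rescale y f) = rescale (y * x) f := by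
  ext k
  rw [coeff_rescale, coeff_rescale, coeff_rescale, mul_pow]
  ring

theorem Tg_inj {f g : ℝ⟦X⟧} (h : Tg f = Tg g) : f = g := by
  ext k
  have h1 := congrArg (coeff k) h
  rw [Tg, Tg, coeff_mk, coeff_mk] at h1
  have h2 : (((2 * k + 1)‼ : ℕ) : ℝ) ≠ 0 := by
    exact_mod_cast (Nat.doubleFactorial_pos _).ne'
  exact mul_left_cancel₀ h2 h1

theorem rescale_inj {x : ℝ} (hx : x ≠ 0) {f g : ℝ⟦X⟧} (h : rescale x f = rescale x g) : f = g := by
  ext k
  have h1 := congrArg (coeff k) h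
  rw [coeff_rescale, coeff_rescale] at h1
  exact mul_left_cancel₀ (pow_ne_zero k hx) h1

theorem cv_mul {f g : ℝ⟦X⟧} (hf : Cv f) (hg : Cv g) : Cv (f * g) := by
  obtain ⟨K, R, hR, h1⟩ := hf
  obtain ⟨K', R', hR', h2⟩ := hg
  have hK : 0 ≤ K := by
    have := (abs_nonneg _).trans (h1 0)
    simpa using this
  have hK' : 0 ≤ K' := by
    have := (abs_nonneg _).trans (h2 0)
    simpa using this
  refine ⟨K * K', 2 * (R + R'), by positivity, fun k => ?_⟩
  rw [coeff_mul]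
  refine (Finset.abs_sum_le_sum_abs _ _).trans ?_
  have h3 : ∀ x ∈ Finset.HasAntidiagonal.antidiagonal k, |coeff x.1 f * coeff x.2 g| ≤
      K * K' * (R + R') ^ k := by
    rintro ⟨i, j⟩ hx
    rw [Finset.HasAntidiagonal.mem_antidiagonal] at hx
    simp only at hx ⊢
    rw [abs_mul, ← hx, pow_add]
    calc |coeff i f| * |coeff j g| ≤ (K * R ^ i) * (K' * R' ^ j) :=
          mul_le_mul (h1 i) (h2 j) (abs_nonneg _) (by positivity)
      _ ≤ (K * (R + R') ^ i) * (K' * (R + R') ^ j) := by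
          apply mul_le_mul _ _ (by positivity) (by positivity)
          · exact mul_le_mul_of_nonneg_left (pow_le_pow_left₀ hR (by linarith) i) hK
          · exact mul_le_mul_of_nonneg_left (pow_le_pow_left₀ hR' (by linarith) j) hK'
      _ = _ := by ring
  refine (Finset.sum_le_sum h3).trans ?_
  rw [Finset.sum_const, Finset.Nat.card_antidiagonal, nsmul_eq_mul, mul_pow]
  have h4 : ((k + 1 : ℕ) : ℝ) ≤ 2 ^ k := by
    exact_mod_cast Nat.lt_two_pow_self
  have h5 : 0 ≤ K * K' * (R + R') ^ k := by positivity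
  calc ((k + 1 : ℕ) : ℝ) * (K * K' * (R + R') ^ k) ≤ 2 ^ k * (K * K' * (R + R') ^ k) :=
        mul_le_mul_of_nonneg_right h4 h5
    _ = _ := by ring

theorem cv_expR (c : ℝ) : Cv (expR c) := by
  refine ⟨1, |c|, abs_nonneg _, fun k => ?_⟩
  rw [coeff_expR, abs_mul, abs_pow, one_mul]
  have h1 : |1 / (k ! : ℝ)| ≤ 1 := by
    rw [abs_of_nonneg (by positivity), div_le_one (by positivity)]
    exact_mod_cast Nat.one_le_iff_ne_zero.mpr (Nat.factorial_ne_zero k)
  calc |c| ^ k * |1 / (k ! : ℝ)| ≤ |c| ^ k * 1 := mul_le_mul_of_nonneg_left h1 (by positivity)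
    _ = _ := mul_one _

/-- the normalised series of a Seifert homology sphere -/
theorem vn_sphere {J : ℤ → ℚ⟦X⟧} {n : ℤ} {a : Finset ℕ} {P : ℤ} {r : ℚ}
    (h : ohtsuki n J = seifertTau a P r) : mp (vn J n) = expR r * sg a P := by
  have h1 : vn J n = hexp r * gaussSer a P := by
    rw [vn, h, seifertTau]
    have h2 : (shift (hexp 1 - hexp (-1)))⁻¹ * shift (hexp 1 - hexp (-1)) = 1 := dd_inv
    have h3 : (C (1 / 2 : ℚ) * C (2 : ℚ) : ℚ⟦X⟧) = 1 := by
      rw [← map_mul]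
      norm_num
    linear_combination (hexp r * gaussSer a P) * h3 + (C (1 / 2 : ℚ) * C (2 : ℚ) * hexp r *
      gaussSer a P) * h2
  rw [h1, map_mul, mp_hexp, mp_gaussSer]

theorem coeff_one_vn {J : ℤ → ℚ⟦X⟧} (n : ℤ) : coeff 1 (vn J n) = coeff 1 (ohtsuki n J) := by
  have h0 : coeff 0 (C (1 / 2 : ℚ) * shift (hexp 1 - hexp (-1))) = 1 := by
    rw [coeff_C_mul, shift, coeff_mk, map_sub, coeff_hexp, coeff_hexp]
    norm_num
  have h1 : coeff 1 (C (1 / 2 : ℚ) * shift (hexp 1 - hexp (-1))) = 0 := by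
    rw [coeff_C_mul, shift, coeff_mk, map_sub, coeff_hexp, coeff_hexp]
    norm_num
  rw [vn, coeff_mul, Finset.Nat.sum_antidiagonal_eq_sum_range_succ_mk, Finset.sum_range_succ,
    Finset.sum_range_one]
  simp only [Nat.sub_zero, Nat.sub_self]
  rw [h0, h1, one_mul, zero_mul, add_zero]

theorem vn_inj {J J' : ℤ → ℚ⟦X⟧} {n : ℤ} (h : vn J n = vn J' n) : ohtsuki n J = ohtsuki n J' := by
  have h1 : C (1 / 2 : ℚ) * shift (hexp 1 - hexp (-1)) ≠ 0 := by
    intro h0
    have h2 := congrArg (coeff 0) h0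
    rw [coeff_C_mul, shift, coeff_mk, map_sub, coeff_hexp, coeff_hexp, map_zero] at h2
    norm_num at h2
  exact mul_left_cancel₀ h1 h

theorem alx_mono {J : ℤ → ℚ⟦X⟧} {c : ℚ} (h : JonesFn J c) (hc : c ≠ 0) :
    ∃ B k, Alx B k (wf J) ∧ ∃ i j, i < j ∧ B.coeff i ≠ 0 ∧ B.coeff j ≠ 0 := by
  have hodd := wf_odd h.odd (bd_of_mm h.mm)
  obtain ⟨B, k, hB, hw⟩ := h.alex.nonneg
  refine ⟨B, k + 1, ⟨hB, ?_, hodd⟩, not_monomial hB hw hodd ?_⟩
  · rw [← ev_expand_eq, hw, map_mul, map_pow, map_sub, map_pow, map_one, MM.ev_X, hexp_nat, hexp_nat,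
      mul_sub, mul_sub, mul_one, ← hexp_add, ← hexp_add, ← hexp_add]
    push_cast
    congr 2
    · ring
    · ring
  · rw [h.phi_one]
    exact mul_ne_zero (by norm_num) hc

/-- the first case -/
theorem not_cv (hENT : S_ENT) {J : ℤ → ℚ⟦X⟧} {c : ℚ} (h : JonesFn J c) (hc : c ≠ 0) :
    ¬ Cv (mp (al J)) := by
  intro hcv
  obtain ⟨B, k, hA, hij⟩ := alx_mono h hc
  refine hENT B k (wf J) hA ?_ hij
  have h1 : Tg (rescale (-1) (hf (wf J))) = expR (-(1 / 2)) * mp (al J) := by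
    rw [al_eq, ← mul_assoc, expR_neg_mul, one_mul]
  have h2 : Cv (Tg (rescale (-1) (hf (wf J)))) := by
    rw [h1]
    exact cv_mul (cv_expR _) hcv
  obtain ⟨K, R, hR, hK⟩ := h2
  intro ρ hρ
  have hinj : Function.Injective (fun k : ℕ => 2 * k + 1) := by
    intro a b hab
    simp only at hab
    omega
  have hsum : Summable fun k : ℕ => |((coeff (2 * k + 1) (wf J) : ℚ) : ℝ)| * ρ ^ (2 * k + 1) := by
    have hs : Summable fun k : ℕ => (2 * K * ρ) * ((R * ρ ^ 2) ^ k / (k ! : ℝ)) :=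
      (Real.summable_pow_div_factorial _).mul_left _
    refine Summable.of_nonneg_of_le (fun k => by positivity) (fun k => ?_) hs
    have h3 := hK k
    rw [Tg, coeff_mk, coeff_rescale, hf, coeff_mk, abs_mul, abs_mul, abs_pow, abs_neg, abs_one,
      one_pow, one_mul, abs_div, abs_of_pos (by norm_num : (0 : ℝ) < 2), Nat.abs_cast] at h3
    have h4 : (k ! : ℝ) ≤ ((2 * k + 1)‼ : ℕ) := by exact_mod_cast factorial_le_odd k
    have h5 : (0 : ℝ) < (k ! : ℝ) := by positivity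
    have h6 : |((coeff (2 * k + 1) (wf J) : ℚ) : ℝ)| ≤ 2 * (K * R ^ k) / (k ! : ℝ) := by
      rw [le_div_iff₀ h5]
      have h7 : |((coeff (2 * k + 1) (wf J) : ℚ) : ℝ)| / 2 * (k ! : ℝ) ≤
          ((2 * k + 1)‼ : ℕ) * (|((coeff (2 * k + 1) (wf J) : ℚ) : ℝ)| / 2) := by
        rw [mul_comm]
        exact mul_le_mul_of_nonneg_right h4 (by positivity)
      linarith
    calc |((coeff (2 * k + 1) (wf J) : ℚ) : ℝ)| * ρ ^ (2 * k + 1) ≤
        2 * (K * R ^ k) / (k ! : ℝ) * ρ ^ (2 * k + 1) :=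
          mul_le_mul_of_nonneg_right h6 (by positivity)
      _ = _ := by
          rw [pow_succ ρ, pow_mul, mul_pow]
          ring
  rw [← hinj.summable_iff]
  · exact hsum
  · intro n hn
    have h3 : Even n := by
      rw [← Nat.not_odd_iff_even]
      rintro ⟨j, hj⟩
      exact hn ⟨j, hj.symm⟩
    rw [hA.2.2 n h3]
    simp

end

end Pool.Agent.H765.BZ
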