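import Mathlib
import Pool.Agent.H765.BZ.Glue

/-! The shape of the limit. -/

namespace Pool.Agent.H765.BZ

open PowerSeries Filter Topology
open Pool.Agent.H765.CS Pool.Agent.H765.MM Pool.Agent.H765.GK Nat

noncomputable section

/-- the phase is `1/2` and the scale is the square of the product of the constant fibres -/
theorem shape (hALPHA : S_ALPHA) (hBETA : S_BETA) (hDSER : S_DSER) {J : ℤ → ℚ⟦X⟧} {c : ℚ}
    (h : JonesFn J c) {b : Finset ℕ} {m : ℕ} {lam γ : ℝ} (hm : 1 ≤ m) (h2 : ∀ l ∈ b, 2 ≤ l)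
    (hcop : ∀ l ∈ b, ∀ l' ∈ b, l ≠ l' → Nat.Coprime l l') (hcard : b.card ≤ m + 1)
    (hlam : lam ≠ 0) (hα : mp (al J) = expR γ * Tg (rescale lam (Gm b m))) :
    γ = 1 / 2 ∧ lam = -(∏ l ∈ b, (l : ℝ)) ^ 2 ∧ b.card = m + 1 := by
  obtain ⟨B, k, hA⟩ := alx_of h
  obtain ⟨D, hD, hDf, hD0⟩ := hDSER B k (wf J) hA
  set f : ℝ⟦X⟧ := hf (wf J) with hf'
  rw [al_eq, ← hf'] at hα
  -- rescaling
  have e1 : rescale (1 / lam) (rescale (-1) f) = rescale (-1 / lam) f := by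
    rw [rescale_comp]
    congr 1
    ring_nf
  have e2 : rescale (1 / lam) (rescale lam (Gm b m)) = Gm b m := by
    rw [rescale_comp, mul_one_div_cancel hlam, rescale_one]
    rfl
  have h3 := congrArg (rescale (1 / lam)) hα
  rw [map_mul, map_mul, rescale_expR, rescale_expR, rescale_Tg, rescale_Tg, e1, e2] at h3
  have h4 : Tg (rescale (-1 / lam) f) = expR ((γ - 1 / 2) * (1 / lam)) * Tg (Gm b m) := by
    have e3 : expR ((γ - 1 / 2) * (1 / lam)) = expR (-(1 / 2 * (1 / lam))) * expR (γ * (1 / lam)) := by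
      rw [← expR_add]
      congr 1
      ring
    rw [e3, mul_assoc, ← h3, ← mul_assoc, expR_neg_mul, one_mul]
  have hx : (-1 / lam) ≠ 0 := div_ne_zero (by norm_num) hlam
  have hD1 : D ≠ 0 := by
    intro h0
    apply hD0 1 le_rfl
    rw [h0, CS.ev_zero]
  have hQE : QE (rescale (-1 / lam) f) := by
    refine ⟨rescale (-1 / lam) D, ?_, hD.rescale _, ?_⟩
    · intro h0
      apply hD1
      apply rescale_inj hx
      rw [h0, map_zero]
    · rw [← map_mul, mul_comm f, hDf]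
      exact Ent.shR.rescale _
  have h5 := hALPHA _ b m _ hQE hm h2 h4
  have hγ : γ = 1 / 2 := by
    rcases mul_eq_zero.mp h5 with h6 | h6
    · linarith
    · exact absurd h6 (one_div_ne_zero hlam)
  rw [h5, expR_zero, one_mul] at h4
  have h6 := Tg_inj h4
  have h7 : f = rescale (-lam) (Gm b m) := by
    rw [← h6, rescale_comp]
    have : (-1 / lam) * -lam = 1 := by field_simp
    rw [this, rescale_one]
    rfl
  have h8 := hBETA D b m (-lam) hD hD0 hm h2 hcop hcard (by rw [← h7, hDf])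
  exact ⟨hγ, by linarith [h8.1], h8.2⟩

/-- the last fibre -/
theorem exists_last {a b : Finset ℕ} (h : b ⊆ a) (hc : a.card = b.card + 1) :
    ∃ l, l ∉ b ∧ a = insert l b := by
  have h1 : (a \ b).card = 1 := by
    rw [Finset.card_sdiff_of_subset h, hc]
    omega
  obtain ⟨l, hl⟩ := Finset.card_eq_one.mp h1
  have h2 : l ∈ a \ b := by rw [hl]; exact Finset.mem_singleton_self l
  rw [Finset.mem_sdiff] at h2
  refine ⟨l, h2.2, ?_⟩
  rw [← Finset.sdiff_union_of_subset h, hl]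
  rfl

theorem sg_insert {b : Finset ℕ} {m l : ℕ} (hl : l ∉ b) (hm : b.card = m + 1) (P : ℝ) {c : ℝ}
    (hc : c ^ 2 = (l : ℝ) ^ 2) :
    sg (insert l b) P = Tg (rescale P (Gy b m (1 / c ^ 2))) := by
  have h1 : GR (insert l b) = Gy b m (1 / c ^ 2) := by
    rw [GR, Gy, Ea, Ea, Finset.prod_insert hl, Finset.card_insert_of_notMem hl, hm, hc]
    rw [show m + 1 + 1 - 2 = m by omega]
    ring
  ext k
  rw [sg, coeff_mk, Tg, coeff_mk, coeff_rescale, h1]
  ring

/-- the coefficient of degree two -/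
theorem second (hLOG : S_LOG) (hNORM2 : S_NORM2) (b : Finset ℕ) (m : ℕ) (A c r : ℝ) (hc : c ≠ 0) :
    coeff 2 (expR r * Tg (rescale (A * c) (Gy b m (1 / c ^ 2)))) -
      (coeff 1 (expR r * Tg (rescale (A * c) (Gy b m (1 / c ^ 2))))) ^ 2 / 2 =
      A ^ 2 / 12 * (((m - ∑ l ∈ b, 1 / (l : ℝ) ^ (2 * 2)) +
        (m - ∑ l ∈ b, 1 / (l : ℝ) ^ (2 * 1)) ^ 2) * c ^ 2 -
        2 * (m - ∑ l ∈ b, 1 / (l : ℝ) ^ (2 * 1))) := by
  obtain ⟨l0, l1, l2, -, hG⟩ := hLOG
  obtain ⟨g1, g2⟩ := hG b m (1 / c ^ 2) (A * c)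
  obtain ⟨-, h⟩ := hNORM2 _ _ r g1 (by
    rw [← coeff_zero_eq_constantCoeff_apply, coeff_mk, coeff_zero_eq_constantCoeff_apply, l0]
    ring) g2
  rw [h, coeff_mk, coeff_mk, l1, l2]
  field_simp
  ring

end

end Pool.Agent.H765.BZ
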