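import Mathlib
import Pool.Agent.H765.BZ.Shape

/-! Surgeries on a knot which are Seifert homology spheres: the main argument. -/

namespace Pool.Agent.H765.BZ

open PowerSeries Filter Topology
open Pool.Agent.H765.CS Pool.Agent.H765.MM Pool.Agent.H765.GK Nat

noncomputable section

theorem mm_odd {J : ℤ → ℚ⟦X⟧} {c : ℚ} (h : JonesFn J c) (l b : ℕ) (hl : Even l) :
    mmCoeff J l b = 0 := by
  have hB : Bd 1 0 (fun N => (hexp 1 - hexp (-1)) * J N) := (bd_of_mm h.mm).D_mul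
  have hneg : (mmPoly J (l + b)).comp (Polynomial.C (-1) * Polynomial.X) = - mmPoly J (l + b) := by
    apply poly_eq_of_int
    intro N
    have h1 := mmPoly_eval hB (l + b) N
    have h2 := mmPoly_eval hB (l + b) (-N)
    rw [h.odd, mul_neg, map_neg, h1] at h2
    rw [Polynomial.eval_comp, Polynomial.eval_neg]
    simp only [Polynomial.eval_mul, Polynomial.eval_C, Polynomial.eval_X, neg_one_mul]
    push_cast at h2
    exact h2.symm
  have h2 := congrArg (fun p => Polynomial.coeff p l) hneg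
  simp only [Polynomial.comp_C_mul_X_coeff, Polynomial.coeff_neg] at h2
  rw [hl.neg_one_pow, mul_one] at h2
  rw [mmCoeff]
  linarith

theorem mm_one {J : ℤ → ℚ⟦X⟧} {c : ℚ} (h : JonesFn J c) (m : ℕ) :
    ∑ l ∈ Finset.range (m + 1), mmCoeff J l (m - l) = coeff m (hexp 1 - hexp (-1)) := by
  have hB : Bd 1 0 (fun N => (hexp 1 - hexp (-1)) * J N) := (bd_of_mm h.mm).D_mul
  have h1 := mmPoly_eval hB m 1
  rw [h.one, mul_one] at h1
  rw [h1, Polynomial.eval_eq_sum_range' (n := m + 1) (Nat.lt_succ_of_le (mmPoly_natDegree J m))]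
  apply Finset.sum_congr rfl
  intro l hl
  rw [Finset.mem_range] at hl
  rw [mmCoeff, show l + (m - l) = m by omega]
  simp

/-- the polynomials -/
theorem exists_V (hPOLY : S_POLY) {J : ℤ → ℚ⟦X⟧} {c : ℚ} (h : JonesFn J c) :
    ∃ V : ℕ → Polynomial ℝ, (∀ k, (V k).eval 0 =
      coeff k (mp (C (1 / 2 : ℚ) * shift (hexp 1 - hexp (-1))))) ∧
      ∀ (n : ℤ), n ≠ 0 → ∀ k, coeff k (mp (vn J n)) = (V k).eval (n : ℝ) := by
  have h1 := hPOLY J (mm_odd h) (mm_one h)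
  choose V h0 hV using h1
  refine ⟨fun k => (V k).map (algebraMap ℚ ℝ), fun k => ?_, fun n hn k => ?_⟩
  · rw [coeff_mp, ← h0 k]
    have := Polynomial.eval_map_algebraMap (B := ℝ) (V k) ((0 : ℚ) : ℝ)
    rw [Rat.cast_zero] at this
    rw [this]
    have h2 : Polynomial.aeval (0 : ℝ) (V k) = algebraMap ℚ ℝ ((V k).eval 0) := by
      rw [← map_zero (algebraMap ℚ ℝ), Polynomial.aeval_algebraMap_apply_eq_algebraMap_eval]
    rw [h2]
    rfl
  · rw [coeff_mp, vn, hV k n hn]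
    have h2 : Polynomial.aeval ((n : ℚ) : ℝ) (V k) = algebraMap ℚ ℝ ((V k).eval (n : ℚ)) :=
      Polynomial.aeval_algebraMap_apply_eq_algebraMap_eval _ _
    have h3 : ((n : ℤ) : ℝ) = ((n : ℚ) : ℝ) := (Rat.cast_intCast n).symm
    rw [Polynomial.eval_map_algebraMap, h3, h2]
    rfl

/-- the last fibre is an affine function of `n` -/
theorem affine (hLOG : S_LOG) (hNORM2 : S_NORM2) (hSUMS : S_SUMS) (hSQ : S_SQ)
    {F : Ultrafilter ℤ} (hF : (F : Filter ℤ) ≤ cofinite) {b : Finset ℕ} {m : ℕ} (hm : 1 ≤ m)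
    (h2 : ∀ l ∈ b, 2 ≤ l) {V : ℕ → Polynomial ℝ} {cc : ℤ → ℤ} {r : ℤ → ℝ} {A : ℕ} (hA : 1 ≤ A)
    (hlim : Tendsto (fun n : ℤ => ((cc n : ℤ) : ℝ) / n) F (𝓝 (-(A : ℝ))))
    (hc0 : ∀ᶠ n in (F : Filter ℤ), cc n ≠ 0)
    (hrel : ∀ᶠ (n : ℤ) in (F : Filter ℤ), ∀ k, (V k).eval (n : ℝ) =
      coeff k (expR (r n) * Tg (rescale ((A : ℝ) * (cc n : ℝ)) (Gy b m (1 / (cc n : ℝ) ^ 2))))) :
    ∃ t : ℤ, ∀ᶠ n in (F : Filter ℤ), cc n = -((A : ℤ) * n + t) := by
  set p1 : ℝ := ∑ l ∈ b, 1 / (l : ℝ) ^ (2 * 1) with hp1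
  set p2 : ℝ := ∑ l ∈ b, 1 / (l : ℝ) ^ (2 * 2) with hp2
  have hs := (hSUMS b 2 h2 (by norm_num)).2
  have hm' : (1 : ℝ) ≤ m := by exact_mod_cast hm
  have hα : (0 : ℝ) < (m - p2) + (m - p1) ^ 2 := by
    have h3 : 0 < (m : ℝ) - p2 := by
      rw [hp2]
      linarith
    positivity
  have hA' : (0 : ℝ) < (A : ℝ) := by exact_mod_cast hA
  set q : Polynomial ℝ := V 2 - Polynomial.C (1 / 2) * V 1 ^ 2 with hq
  set p : Polynomial ℝ := Polynomial.C (1 / ((m - p2) + (m - p1) ^ 2)) *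
    (Polynomial.C (12 / (A : ℝ) ^ 2) * q + Polynomial.C (2 * (m - p1))) with hp
  apply hSQ F cc p A hF hA _ hlim
  filter_upwards [hc0, hrel] with n hn hn2
  have hn' : ((cc n : ℤ) : ℝ) ≠ 0 := by exact_mod_cast hn
  have h3 := second hLOG hNORM2 b m (A : ℝ) (cc n : ℝ) (r n) hn'
  rw [← hn2 2, ← hn2 1, ← hp1, ← hp2] at h3
  have h4 : q.eval (n : ℝ) = (A : ℝ) ^ 2 / 12 * (((m - p2) + (m - p1) ^ 2) * (cc n : ℝ) ^ 2 -
      2 * (m - p1)) := by
    rw [← h3, hq]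
    simp only [Polynomial.eval_sub, Polynomial.eval_mul, Polynomial.eval_C, Polynomial.eval_pow]
    ring
  rw [hp]
  simp only [Polynomial.eval_mul, Polynomial.eval_add, Polynomial.eval_C]
  rw [h4]
  have hα' := hα.ne'
  field_simp
  ring

end

end Pool.Agent.H765.BZ
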