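import Mathlib
import Pool.Agent.H765.BZ.Chain

/-! The value at `n = 0`. -/

namespace Pool.Agent.H765.BZ

open PowerSeries Filter Topology
open Pool.Agent.H765.CS Pool.Agent.H765.MM Pool.Agent.H765.GK Nat

noncomputable section

theorem cv_dd : Cv (mp (C (1 / 2 : ℚ) * shift (hexp 1 - hexp (-1)))) := by
  refine ⟨1, 1, zero_le_one, fun k => ?_⟩
  rw [coeff_mp, coeff_C_mul, shift, coeff_mk, map_sub, coeff_hexp, coeff_hexp, one_pow, one_pow,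
    one_mul, one_mul]
  have h1 : (1 : ℝ) / ((k + 1)! : ℝ) ≤ 1 := by
    rw [div_le_one (by positivity)]
    exact_mod_cast Nat.one_le_iff_ne_zero.mpr (Nat.factorial_ne_zero (k + 1))
  have h2 : (0 : ℝ) ≤ 1 / ((k + 1)! : ℝ) := by positivity
  push_cast
  rcases neg_one_pow_eq_or ℝ (k + 1) with h | h
  · rw [h, one_mul, sub_self, mul_zero, abs_zero]
    norm_num
  · rw [h, abs_le]
    constructor <;> linarith

/-- the structure of `b` -/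
theorem at_zero (hMPOLY : S_MPOLY) (hCONV : S_CONV) {b : Finset ℕ} {m : ℕ} (hm : 1 ≤ m)
    (h2 : ∀ l ∈ b, 2 ≤ l) {V : ℕ → Polynomial ℝ}
    (hV0 : ∀ k, (V k).eval 0 = coeff k (mp (C (1 / 2 : ℚ) * shift (hexp 1 - hexp (-1)))))
    {A : ℕ} (hA : 1 ≤ A) {t : ℤ} (ht : t ≠ 0) {N : Set ℤ} (hN : N.Infinite) {r : ℤ → ℝ}
    (hrel : ∀ n ∈ N, ∀ k, (V k).eval (n : ℝ) = coeff k (expR (r n) *
      Tg (rescale ((A : ℝ) * ((-((A : ℤ) * n + t) : ℤ) : ℝ))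
        (Gy b m (1 / ((-((A : ℤ) * n + t) : ℤ) : ℝ) ^ 2))))) :
    m = 1 ∧ |t| = 1 := by
  have hA' : (A : ℝ) ≠ 0 := by
    have : A ≠ 0 := by omega
    exact_mod_cast this
  have ht' : (t : ℝ) ≠ 0 := by exact_mod_cast ht
  obtain ⟨θ, hθ⟩ := hMPOLY b m (A : ℝ) (t : ℝ) V N hA' ht' hN (by
    intro n hn
    refine ⟨r n, fun k => ?_⟩
    rw [hrel n hn k]
    push_cast
    rfl)
  have h3 : mp (C (1 / 2 : ℚ) * shift (hexp 1 - hexp (-1))) =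
      expR θ * Tg (rescale ((A : ℝ) * (-(t : ℝ))) (Gy b m (1 / (-(t : ℝ)) ^ 2))) := by
    ext k
    rw [← hV0, hθ]
  have h4 : Cv (Tg (rescale ((A : ℝ) * (-(t : ℝ))) (Gy b m (1 / (-(t : ℝ)) ^ 2)))) := by
    have h5 : Tg (rescale ((A : ℝ) * (-(t : ℝ))) (Gy b m (1 / (-(t : ℝ)) ^ 2))) =
        expR (-θ) * mp (C (1 / 2 : ℚ) * shift (hexp 1 - hexp (-1))) := by
      rw [h3, ← mul_assoc, expR_neg_mul, one_mul]
    rw [h5]
    exact cv_mul (cv_expR _) cv_dd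
  obtain ⟨e1, e2⟩ := hCONV b m (-t) ((A : ℝ) * (-(t : ℝ))) h2 hm (neg_ne_zero.mpr ht)
    (mul_ne_zero hA' (neg_ne_zero.mpr ht')) (by
      push_cast
      exact h4)
  rw [abs_neg] at e2
  exact ⟨e1, e2⟩

/-- a set of two elements -/
theorem two_elements {b : Finset ℕ} (h : b.card = 2) : ∃ p q : ℕ, p < q ∧ b = {p, q} := by
  obtain ⟨x, y, hxy, rfl⟩ := Finset.card_eq_two.mp h
  rcases lt_or_gt_of_ne hxy with h1 | h1
  · exact ⟨x, y, h1, rfl⟩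
  · exact ⟨y, x, h1, Finset.pair_comm x y⟩

end

end Pool.Agent.H765.BZ
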