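import Mathlib
import Pool.Agent.H765.BZ.AtZero

/-! Comparison with the surgeries on a torus knot. -/

namespace Pool.Agent.H765.BZ

open PowerSeries Filter Topology
open Pool.Agent.H765.CS Pool.Agent.H765.MM Pool.Agent.H765.GK Nat

noncomputable section

/-- the surgery on the torus knot `T(p, -t q)` -/
def tsurg (p q : ℕ) (t n : ℤ) (hp : 2 ≤ p) (hpq : p < q) (hcop : Nat.Coprime p q)
    (ht : |t| = 1) (hn : n ≠ 0) : TorusSurgery where
  p := p
  q := -t * q
  n := n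
  hp := hp
  hpq := by
    rw [abs_mul, abs_neg, ht, one_mul, Nat.abs_cast]
    exact_mod_cast hpq
  hq := by
    have h1 : IsCoprime (p : ℤ) (q : ℤ) := Nat.isCoprime_iff_coprime.mpr hcop
    have h2 : t * t = 1 := by
      have h3 := abs_mul_abs_self t
      rw [ht] at h3
      linarith
    obtain ⟨x, y, hxy⟩ := h1
    exact ⟨x, -t * y, by linear_combination hxy + (y * q) * h2⟩
  hn := hn

theorem torus_match {p q : ℕ} {t n : ℤ} (hp : 2 ≤ p) (hpq : p < q) (hcop : Nat.Coprime p q)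
    (ht : |t| = 1) (hn : n ≠ 0) {a : Finset ℕ} {P : ℤ} {l : ℕ}
    (hl : (l : ℤ) = |(-((p * q : ℕ) * n + t) : ℤ)|) (ha : a = insert l {p, q})
    (hP : P = (p * q : ℕ) * (-((p * q : ℕ) * n + t))) :
    (tsurg p q t n hp hpq hcop ht hn).sphere.fibres = a ∧
      (tsurg p q t n hp hpq hcop ht hn).sphere.P = P := by
  set x := tsurg p q t n hp hpq hcop ht hn with hx
  have h2 : t * t = 1 := by
    have h3 := abs_mul_abs_self t
    rw [ht] at h3
    linarith
  have hxp : x.p = p := rfl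
  have hxq : x.q = -t * q := rfl
  have hxn : x.n = n := rfl
  have hc : x.c = -t * (-((p * q : ℕ) * n + t)) := by
    rw [TorusSurgery.c, hxp, hxq, hxn]
    push_cast
    linear_combination (-1 : ℤ) * h2
  have hq' : x.q.natAbs = q := by
    rw [hxq, Int.natAbs_mul, Int.natAbs_neg, Int.natAbs_natCast]
    have : t.natAbs = 1 := by
      rw [Int.abs_eq_natAbs] at ht
      exact_mod_cast ht
    rw [this, one_mul]
  have hc' : x.c.natAbs = l := by
    have h3 : (x.c.natAbs : ℤ) = l := by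
      rw [← Int.abs_eq_natAbs, hc, abs_mul, abs_neg, ht, one_mul, hl]
    exact_mod_cast h3
  refine ⟨?_, ?_⟩
  · change x.fib = a
    rw [TorusSurgery.fib, hxp, hq', hc', ha]
    ext z
    simp only [Finset.mem_insert, Finset.mem_singleton]
    tauto
  · rw [x.P_eq, hxp, hxq, hc, hP]
    push_cast
    linear_combination ((p : ℤ) * q * (-(p * q * n + t))) * h2

theorem tendsto_inv_real : Tendsto (fun n : ℤ => ((n : ℝ))⁻¹) cofinite (𝓝 0) := by
  have h := tendsto_cast tendsto_inv_int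
  rw [Rat.cast_zero] at h
  refine h.congr fun n => ?_
  push_cast
  rfl

theorem tsurg_r {p q : ℕ} {t : ℤ} (hp : 2 ≤ p) (hpq : p < q) (hcop : Nat.Coprime p q)
    (ht : |t| = 1) {F : Filter ℤ} (hF : F ≤ cofinite) (ρ : ℤ → ℝ)
    (hρ : ∀ᶠ n in F, ∀ hn : n ≠ 0, ρ n = ((tsurg p q t n hp hpq hcop ht hn).r : ℝ)) :
    Tendsto (fun n : ℤ => ρ n / (n : ℝ)) F (𝓝 (1 / 2)) := by
  have hq2 : 2 ≤ q := by omega
  have hp0 : (p : ℝ) ≠ 0 := by
    have : p ≠ 0 := by omega
    exact_mod_cast this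
  have hq0 : (q : ℝ) ≠ 0 := by
    have : q ≠ 0 := by omega
    exact_mod_cast this
  have ht0 : (t : ℝ) ≠ 0 := by
    have : t ≠ 0 := by
      rintro rfl
      simp at ht
    exact_mod_cast this
  set Q : ℝ := -t * q with hQ
  have hQ0 : Q ≠ 0 := mul_ne_zero (neg_ne_zero.mpr ht0) hq0
  set K0 : ℝ := p * Q / 2 - (p / Q + Q / p) / 2 with hK0
  have h1 : Tendsto (fun n : ℤ => (n : ℝ)⁻¹) F (𝓝 0) := tendsto_inv_real.mono_left hF
  have hne : ∀ᶠ n : ℤ in F, n ≠ 0 := eventually_ne.filter_mono hF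
  have hlim : Tendsto (fun n : ℤ => 1 / 2 + K0 * (n : ℝ)⁻¹ -
      (p * Q / 2) * ((n : ℝ)⁻¹ * ((n : ℝ)⁻¹ * ((n : ℝ)⁻¹ - p * Q)⁻¹))) F
      (𝓝 (1 / 2 + K0 * 0 - (p * Q / 2) * (0 * (0 * (0 - p * Q)⁻¹)))) := by
    apply Tendsto.sub
    · exact tendsto_const_nhds.add (h1.const_mul K0)
    · apply Tendsto.const_mul
      apply h1.mul
      apply h1.mul
      apply Tendsto.inv₀
      · exact h1.sub_const _
      · rw [zero_sub]
        exact neg_ne_zero.mpr (mul_ne_zero hp0 hQ0)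
  have e : (1 / 2 + K0 * 0 - (p * Q / 2) * (0 * (0 * (0 - p * Q)⁻¹)) : ℝ) = 1 / 2 := by ring
  rw [e] at hlim
  refine hlim.congr' ?_
  filter_upwards [hne, hρ] with n hn hr
  rw [hr hn]
  have hn' : (n : ℝ) ≠ 0 := by exact_mod_cast hn
  set x := tsurg p q t n hp hpq hcop ht hn with hx
  have hxc : (x.c : ℝ) ≠ 0 := by exact_mod_cast x.c_ne
  have hc : (x.c : ℝ) = 1 - n * (p * Q) := by
    rw [TorusSurgery.c]
    push_cast
    have hxp : x.p = p := rfl
    have hxq : x.q = -t * q := rfl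
    have hxn : x.n = n := rfl
    rw [hxp, hxq, hxn, hQ]
    push_cast
    ring
  have hr2 : ((x.r : ℚ) : ℝ) = n / 2 + K0 - p * Q / (2 * (1 - n * (p * Q))) := by
    rw [TorusSurgery.r]
    have hxp : x.p = p := rfl
    have hxq : x.q = -t * q := rfl
    have hxn : x.n = n := rfl
    rw [hxp, hxq, hxn, hK0, hQ]
    push_cast
    ring
  rw [hc] at hxc
  have hz : ((n : ℝ)⁻¹ - p * Q) = (1 - n * (p * Q)) / n := by
    field_simp
  rw [hr2, hz]
  field_simp

end

end Pool.Agent.H765.BZ
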