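import Mathlib
import Pool.Agent.H765.BZ.Torus
import Pool.Agent.H765.BZ.Stm2

/-! If the limit converges then it is trivial. -/

namespace Pool.Agent.H765.BZ

open PowerSeries Filter Topology
open Pool.Agent.H765.CS Pool.Agent.H765.MM Pool.Agent.H765.GK Nat

noncomputable section

/-- the case of a monomial -/
theorem monomial_w {w : ℚ⟦X⟧} {B : Polynomial ℤ} {k : ℕ} (hB : B.eval 1 = 1)
    (hw : MM.ev (Polynomial.expand ℤ 2 B) * w =
      MM.ev (Polynomial.X ^ k * (Polynomial.X ^ 2 - 1)))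
    (hodd : ∀ k, Even k → coeff k w = 0)
    (hc : ¬ ∃ i j, i < j ∧ B.coeff i ≠ 0 ∧ B.coeff j ≠ 0) : w = hexp 1 - hexp (-1) := by
  push Not at hc
  have hB0 : B ≠ 0 := by
    rintro rfl
    rw [Polynomial.eval_zero] at hB
    exact zero_ne_one hB
  set n := B.natDegree with hn
  have hlead : B.coeff n ≠ 0 := by
    rw [hn]
    exact Polynomial.leadingCoeff_ne_zero.mpr hB0
  have hmono : B = Polynomial.C (B.coeff n) * Polynomial.X ^ n := by
    ext i
    rw [Polynomial.coeff_C_mul, Polynomial.coeff_X_pow]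
    rcases lt_trichotomy i n with h | h | h
    · rw [if_neg h.ne, mul_zero]
      by_contra h2
      exact hlead (hc i n h h2)
    · rw [if_pos h, mul_one, h]
    · rw [if_neg h.ne', mul_zero]
      exact Polynomial.coeff_eq_zero_of_natDegree_lt h
  have hc1 : B.coeff n = 1 := by
    rw [hmono] at hB
    simpa using hB
  rw [hc1, Polynomial.C_1, one_mul] at hmono
  rw [hmono, map_pow, Polynomial.expand_X, ← pow_mul, map_pow, MM.ev_X, hexp_nat, map_mul, map_pow,
    map_sub, map_pow, map_one, MM.ev_X, hexp_nat, hexp_nat] at hw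
  set b : ℚ := (k : ℚ) + 1 - 2 * n with hb
  have hw2 : w = hexp b * (hexp 1 - hexp (-1)) := by
    have h1 : hexp (-((2 * n : ℕ) : ℚ)) * hexp ((2 * n : ℕ) : ℚ) = 1 := by
      rw [← hexp_add, neg_add_cancel, hexp_zero]
    have h2 : hexp (-((2 * n : ℕ) : ℚ)) * (hexp k * (hexp ((2 : ℕ) : ℚ) - 1)) =
        hexp b * (hexp 1 - hexp (-1)) := by
      rw [mul_sub, mul_sub, mul_sub, mul_one, ← hexp_add, ← hexp_add, ← hexp_add, ← hexp_add,
        ← hexp_add, hb]
      congr 2
      · push_cast; ring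
      · push_cast; ring
    linear_combination hexp (-((2 * n : ℕ) : ℚ)) * hw - w * h1 + h2
  have hPhi : ∀ P : Polynomial ℚ, Phi w P = P.eval (b + 1) - P.eval (b - 1) := by
    intro P
    rw [hw2, mul_sub, ← hexp_add, ← hexp_add, Phi_sub_left, Phi_hexp, Phi_hexp, sub_eq_add_neg b 1]
  have hb0 : b = 0 := by
    have h1 := hPhi (Polynomial.X ^ 2)
    rw [Phi_X_pow, hodd 2 (by decide), mul_zero] at h1
    simp only [Polynomial.eval_pow, Polynomial.eval_X] at h1
    linarith
  rw [hw2, hb0, hexp_zero, one_mul]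

theorem al_trivial {J : ℤ → ℚ⟦X⟧} (h : wf J = hexp 1 - hexp (-1)) : mp (al J) = 1 := by
  have h1 : Tg (rescale (-1) (hf (wf J))) = expR (-(1 / 2)) := by
    ext k
    rw [Tg, coeff_mk, coeff_rescale, hf, coeff_mk, h, map_sub, coeff_hexp, coeff_hexp, coeff_expR,
      one_pow]
    have h2 : (((2 * k + 1).factorial : ℕ) : ℝ) = (((2 * k + 1)‼ : ℕ) : ℝ) *
        (2 ^ k * (k ! : ℝ)) := by
      rw [Nat.factorial_eq_mul_doubleFactorial, Nat.doubleFactorial_two_mul]
      push_cast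
      ring
    have h3 : (((2 * k + 1)‼ : ℕ) : ℝ) ≠ 0 := by
      exact_mod_cast (Nat.doubleFactorial_pos _).ne'
    have h4 : (k ! : ℝ) ≠ 0 := by positivity
    have h5 : ((-1 : ℚ)) ^ (2 * k + 1) = -1 := by
      rw [pow_succ, pow_mul]
      norm_num
    rw [h5]
    push_cast
    rw [h2, neg_pow (1 / 2 : ℝ) k, one_div_pow]
    field_simp
    ring
  rw [al_eq, h1, ← expR_add, add_neg_cancel, expR_zero]

/-- if the limit converges then it is trivial -/
theorem cv_one (hENT : S_ENT) {J : ℤ → ℚ⟦X⟧} {c : ℚ} (h : JonesFn J c)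
    (hcv : Cv (mp (al J))) : mp (al J) = 1 := by
  have hodd := wf_odd h.odd (bd_of_mm h.mm)
  obtain ⟨B, k, hB, hw⟩ := h.alex.nonneg
  have hA : Alx B (k + 1) (wf J) := by
    refine ⟨hB, ?_, hodd⟩
    rw [← ev_expand_eq, hw, map_mul, map_pow, map_sub, map_pow, map_one, MM.ev_X, hexp_nat,
      hexp_nat, mul_sub, mul_sub, mul_one, ← hexp_add, ← hexp_add, ← hexp_add]
    push_cast
    congr 2
    · ring
    · ring
  apply al_trivial
  apply monomial_w hB hw hodd
  refine hENT B (k + 1) (wf J) hA ?_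
  have h1 : Tg (rescale (-1) (hf (wf J))) = expR (-(1 / 2)) * mp (al J) := by
    rw [al_eq, ← mul_assoc, expR_neg_mul, one_mul]
  have h2 : Cv (Tg (rescale (-1) (hf (wf J)))) := by
    rw [h1]
    exact cv_mul (cv_expR _) hcv
  obtain ⟨K, R, hR, hK⟩ := h2
  intro ρ hρ
  have hinj : Function.Injective (fun k : ℕ => 2 * k + 1) := by
    intro a b hab
    simp only at hab
    omega
  have hsum : Summable fun k : ℕ => |((coeff (2 * k + 1) (wf J) : ℚ) : ℝ)| * ρ ^ (2 * k + 1) := by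
    have hs : Summable fun k : ℕ => (2 * K * ρ) * ((R * ρ ^ 2) ^ k / (k ! : ℝ)) :=
      (Real.summable_pow_div_factorial _).mul_left _
    refine Summable.of_nonneg_of_le (fun k => by positivity) (fun k => ?_) hs
    have h3 := hK k
    rw [Tg, coeff_mk, coeff_rescale, hf, coeff_mk, abs_mul, abs_mul, abs_pow, abs_neg, abs_one,
      one_pow, one_mul, abs_div, abs_of_pos (by norm_num : (0 : ℝ) < 2), Nat.abs_cast] at h3
    have h4 : (k ! : ℝ) ≤ ((2 * k + 1)‼ : ℕ) := by exact_mod_cast factorial_le_odd k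
    have h5 : (0 : ℝ) < (k ! : ℝ) := by positivity
    have h6 : |((coeff (2 * k + 1) (wf J) : ℚ) : ℝ)| ≤ 2 * (K * R ^ k) / (k ! : ℝ) := by
      rw [le_div_iff₀ h5]
      have h7 : |((coeff (2 * k + 1) (wf J) : ℚ) : ℝ)| / 2 * (k ! : ℝ) ≤
          ((2 * k + 1)‼ : ℕ) * (|((coeff (2 * k + 1) (wf J) : ℚ) : ℝ)| / 2) := by
        rw [mul_comm]
        exact mul_le_mul_of_nonneg_right h4 (by positivity)
      linarith
    calc |((coeff (2 * k + 1) (wf J) : ℚ) : ℝ)| * ρ ^ (2 * k + 1) ≤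
        2 * (K * R ^ k) / (k ! : ℝ) * ρ ^ (2 * k + 1) :=
          mul_le_mul_of_nonneg_right h6 (by positivity)
      _ = _ := by
          rw [pow_succ ρ, pow_mul, mul_pow]
          ring
  rw [← hinj.summable_iff]
  · exact hsum
  · intro n hn
    have h3 : Even n := by
      rw [← Nat.not_odd_iff_even]
      rintro ⟨j, hj⟩
      exact hn ⟨j, hj.symm⟩
    rw [hA.2.2 n h3]
    simp

end

end Pool.Agent.H765.BZ
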