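import Mathlib
import Pool.Agent.H765.BZ.Cv1

/-! Surgeries on a knot which is not a torus knot are not Seifert homology spheres. -/

namespace Pool.Agent.H765.BZ

open PowerSeries Filter Topology
open Pool.Agent.H765.CS Pool.Agent.H765.MM Pool.Agent.H765.GK Nat

noncomputable section

/-- the surgeries which have the series of a Seifert homology sphere -/
def seifertSet (J : ℤ → ℚ⟦X⟧) : Set ℤ :=
  {n : ℤ | n ≠ 0 ∧ ∃ (M : SeifertSphere) (r : ℚ), ohtsuki n J = seifertTau M.fibres M.P r}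

theorem isFib (M : SeifertSphere) : IsFib M.fibres := ⟨M.card, M.two, M.coprime⟩

theorem abs_P (M : SeifertSphere) : |M.P| = ∏ l ∈ M.fibres, (l : ℤ) := by
  have h1 : (0 : ℤ) ≤ ∏ l ∈ M.fibres, (l : ℤ) := Finset.prod_nonneg fun l _ => by positivity
  rw [SeifertSphere.P, abs_mul, abs_of_nonneg h1]
  split_ifs <;> simp

/-- the second cumulant is not of degree at most one -/
theorem two_le_natDegree (hRATIO : S_RATIO) (hPAR : S_PAR) (hCONST : S_CONST) {J : ℤ → ℚ⟦X⟧}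
    {V : ℕ → Polynomial ℝ} (hV0 : ∀ k, (V k).eval 0 =
      coeff k (mp (C (1 / 2 : ℚ) * shift (hexp 1 - hexp (-1)))))
    (hV : ∀ (n : ℤ), n ≠ 0 → ∀ k, coeff k (mp (vn J n)) = (V k).eval (n : ℝ))
    (hS : (seifertSet J).Infinite) (M : ℤ → SeifertSphere) (r : ℤ → ℚ)
    (hM : ∀ n, n ∈ seifertSet J → ohtsuki n J = seifertTau (M n).fibres (M n).P (r n)) :
    2 ≤ (V 2 - Polynomial.C (1 / 2) * V 1 ^ 2).natDegree := by
  set q : Polynomial ℝ := V 2 - Polynomial.C (1 / 2) * V 1 ^ 2 with hq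
  set s : Polynomial ℝ := V 3 - V 1 * V 2 + Polynomial.C (1 / 3) * V 1 ^ 3 with hs
  have hser : ∀ n ∈ seifertSet J, ∀ k, (V k).eval (n : ℝ) =
      coeff k (expR ((r n : ℚ) : ℝ) * sg (M n).fibres ((M n).P : ℝ)) := by
    intro n hn k
    rw [← hV n hn.1 k, vn_sphere (hM n hn)]
  have hq2 : ∀ n ∈ seifertSet J, q.eval (n : ℝ) =
      cu2 (expR ((r n : ℚ) : ℝ) * sg (M n).fibres ((M n).P : ℝ)) := by
    intro n hn
    rw [cu2, ← hser n hn, ← hser n hn, hq]
    simp only [Polynomial.eval_sub, Polynomial.eval_mul, Polynomial.eval_C, Polynomial.eval_pow]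
    ring
  have hs3 : ∀ n ∈ seifertSet J, s.eval (n : ℝ) =
      cu3 (expR ((r n : ℚ) : ℝ) * sg (M n).fibres ((M n).P : ℝ)) := by
    intro n hn
    rw [cu3, ← hser n hn, ← hser n hn, ← hser n hn, hs]
    simp only [Polynomial.eval_sub, Polynomial.eval_add, Polynomial.eval_mul, Polynomial.eval_C,
      Polynomial.eval_pow]
    ring
  have hR : ∀ n ∈ seifertSet J, ((M n).P : ℝ) ^ 2 / 192 ≤ q.eval (n : ℝ) ∧
      (q.eval (n : ℝ)) ^ 3 ≤ 55296 * (s.eval (n : ℝ)) ^ 2 ∧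
      (s.eval (n : ℝ)) ^ 2 ≤ 87382 * (q.eval (n : ℝ)) ^ 3 := by
    intro n hn
    rw [hq2 n hn, hs3 n hn]
    exact hRATIO _ _ _ (isFib (M n))
  have h1 : q.natDegree ≠ 1 := by
    apply hPAR q s (seifertSet J) 55296 87382 hS
    intro n hn
    obtain ⟨a1, a2, a3⟩ := hR n hn
    exact ⟨le_trans (by positivity) a1, a2, a3⟩
  have h0 : q.natDegree ≠ 0 := by
    intro h0
    have hqc := Polynomial.eq_C_of_natDegree_eq_zero h0
    set q0 : ℝ := q.coeff 0 with hq0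
    obtain ⟨K, hK⟩ := exists_nat_gt (192 * q0 + 1)
    have hKb : ∀ n ∈ seifertSet J, |(M n).P| ≤ (K : ℤ) := by
      intro n hn
      obtain ⟨a1, _, _⟩ := hR n hn
      rw [hqc, Polynomial.eval_C] at a1
      have a2 : |((M n).P : ℝ)| ≤ K := by
        have a3 : |((M n).P : ℝ)| ^ 2 ≤ 192 * q0 := by
          rw [sq_abs]
          linarith
        nlinarith [abs_nonneg ((M n).P : ℝ), sq_nonneg (|((M n).P : ℝ)| - 1)]
      exact_mod_cast a2
    apply hCONST V (seifertSet J) (fun n => (M n).fibres) (fun n => (M n).P)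
      (fun n => ((r n : ℚ) : ℝ)) K hS
      (fun n hn => ⟨isFib (M n), abs_P (M n), hKb n hn, hser n hn⟩)
    have e : (PowerSeries.mk fun k => (V k).eval 0) =
        mp (C (1 / 2 : ℚ) * shift (hexp 1 - hexp (-1))) := by
      ext k
      rw [coeff_mk, hV0]
    rw [e]
    exact cv_dd
  omega

theorem natDegree_le (hDEG : S_DEG) {J : ℤ → ℚ⟦X⟧} {V : ℕ → Polynomial ℝ}
    (hV : ∀ (n : ℤ), n ≠ 0 → ∀ k, coeff k (mp (vn J n)) = (V k).eval (n : ℝ))
    (h1 : mp (al J) = 1) : (V 2 - Polynomial.C (1 / 2) * V 1 ^ 2).natDegree ≤ 1 := by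
  apply hDEG
  have a1 := SL_vnR J 1
  have a2 := SL_vnR J 2
  rw [h1, coeff_one, if_neg (by norm_num)] at a1 a2
  have a3 : Tendsto (fun n : ℤ => coeff 2 (mp (vn J n)) / (n : ℝ) ^ 2 - 1 / 2 *
      (coeff 1 (mp (vn J n)) / (n : ℝ) ^ 1) ^ 2) cofinite (𝓝 (0 - 1 / 2 * 0 ^ 2)) :=
    a2.sub ((a1.pow 2).const_mul (1 / 2))
  have e : (0 - 1 / 2 * 0 ^ 2 : ℝ) = 0 := by norm_num
  rw [e] at a3
  refine a3.congr' ?_
  filter_upwards [eventually_ne] with n hn
  have hn' : (n : ℝ) ≠ 0 := by exact_mod_cast hn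
  rw [hV n hn, hV n hn]
  simp only [Polynomial.eval_sub, Polynomial.eval_mul, Polynomial.eval_C, Polynomial.eval_pow]
  field_simp

theorem main (hLIM : S_LIM) (hALPHA : S_ALPHA) (hBETA : S_BETA) (hDSER : S_DSER) (hENT : S_ENT)
    (hPOLY : S_POLY) (hMPOLY : S_MPOLY) (hSQ : S_SQ) (hCONV : S_CONV) (hLOG : S_LOG)
    (hNORM2 : S_NORM2) (hSUMS : S_SUMS) (hRATIO : S_RATIO) (hPAR : S_PAR) (hDEG : S_DEG)
    (hCONST : S_CONST) {J : ℤ → ℚ⟦X⟧} {c : ℚ} (h : JonesFn J c)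
    (hT : ∀ (p : ℕ) (q : ℤ) (hp : 2 ≤ p) (hq : IsCoprime (p : ℤ) q), (p : ℤ) < |q| →
      J ≠ colouredJones (torus p q hp hq)) : (seifertSet J).Finite := by
  by_contra hinf
  have hS : (seifertSet J).Infinite := hinf
  -- choose the spheres
  have hch : ∀ n : ℤ, ∃ (M : SeifertSphere) (r : ℚ), n ∈ seifertSet J →
      ohtsuki n J = seifertTau M.fibres M.P r := by
    intro n
    by_cases hn : n ∈ seifertSet J
    · obtain ⟨_, M, r, hM⟩ := hn
      exact ⟨M, r, fun _ => hM⟩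
    · obtain ⟨_, M, r, _⟩ := hS.nonempty.choose_spec
      exact ⟨M, r, fun h => absurd h hn⟩
  choose M r hM using hch
  obtain ⟨V, hV0, hV⟩ := exists_V hPOLY h
  have hdeg := two_le_natDegree hRATIO hPAR hCONST hV0 hV hS M r hM
  have hlim := hLIM (fun n => mp (vn J n)) (mp (al J)) (seifertSet J) (fun n => (M n).fibres)
    (fun n => (M n).P) (fun n => ((r n : ℚ) : ℝ)) hS
    (fun n hn => ⟨hn.1, isFib (M n), abs_P (M n), vn_sphere (hM n hn)⟩) (SL_vnR J)
  rcases hlim with hcv | ⟨F, b, m, lam, γ, hF, hSF, hm, h2, hcop, hcard, hlam, hev, hPlim, hrlim, hα⟩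
  · exact absurd (natDegree_le hDEG hV (cv_one hENT h hcv)) (by omega)
  obtain ⟨hγ, hlamA, hbm⟩ := shape hALPHA hBETA hDSER h hm h2 hcop hcard hlam hα
  set A : ℕ := ∏ l ∈ b, l with hA
  have hA1 : 1 ≤ A := Nat.succ_le_of_lt (Finset.prod_pos fun l hl =>
    lt_of_lt_of_le two_pos (h2 l hl))
  have hA' : (A : ℝ) ≠ 0 := by
    have : A ≠ 0 := by omega
    exact_mod_cast this
  have hAR : (∏ l ∈ b, (l : ℝ)) = A := by rw [hA]; push_cast; rfl
  rw [hAR] at hlamA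
  -- the last fibre
  have hlast : ∀ n : ℤ, ∃ cc : ℤ, (n ∈ seifertSet J ∧ (M n).fibres.card = m + 2 ∧
      b ⊆ (M n).fibres) → cc ≠ 0 ∧ (M n).P = A * cc ∧ cc.natAbs ∉ b ∧
        (M n).fibres = insert cc.natAbs b := by
    intro n
    by_cases hn : n ∈ seifertSet J ∧ (M n).fibres.card = m + 2 ∧ b ⊆ (M n).fibres
    · obtain ⟨_, h3, h4⟩ := hn
      obtain ⟨l, hl, hal⟩ := exists_last h4 (by omega)
      have hl2 : 2 ≤ l := (M n).two l (by rw [hal]; exact Finset.mem_insert_self l b)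
      have hP := abs_P (M n)
      rw [hal, Finset.prod_insert hl] at hP
      have hAZ : (∏ l ∈ b, (l : ℤ)) = A := by rw [hA]; push_cast; rfl
      rw [hAZ] at hP
      rcases abs_eq (show (0 : ℤ) ≤ (l : ℤ) * A by positivity) |>.mp hP with h5 | h5
      · refine ⟨l, fun _ => ⟨by omega, by rw [h5]; ring, by rwa [Int.natAbs_natCast],
          by rw [Int.natAbs_natCast]; exact hal⟩⟩
      · refine ⟨-l, fun _ => ⟨by omega, by rw [h5]; ring, by rwa [Int.natAbs_neg,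
          Int.natAbs_natCast], by rw [Int.natAbs_neg, Int.natAbs_natCast]; exact hal⟩⟩
    · exact ⟨0, fun h => absurd h hn⟩
  choose cc hcc using hlast
  have hgood : ∀ᶠ n in (F : Filter ℤ), n ∈ seifertSet J ∧ (M n).fibres.card = m + 2 ∧
      b ⊆ (M n).fibres := by
    filter_upwards [hSF, hev] with n h3 h4
    exact ⟨h3, h4.1, h4.2⟩
  have hne : ∀ᶠ n : ℤ in (F : Filter ℤ), n ≠ 0 := eventually_ne.filter_mono hF
  have hcclim : Tendsto (fun n : ℤ => ((cc n : ℤ) : ℝ) / n) F (𝓝 (-(A : ℝ))) := by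
    have h3 := hPlim.div_const (A : ℝ)
    have h4 : lam / (A : ℝ) = -(A : ℝ) := by
      rw [hlamA]
      field_simp
    rw [h4] at h3
    refine h3.congr' ?_
    filter_upwards [hgood, hne] with n h5 h6
    obtain ⟨_, h7, _, _⟩ := hcc n h5
    have h8 : (((M n).P : ℤ) : ℝ) = A * cc n := by rw [h7]; push_cast; rfl
    have hn' : (n : ℝ) ≠ 0 := by exact_mod_cast h6
    rw [h8]
    field_simp
  have hrel0 : ∀ n : ℤ, (n ∈ seifertSet J ∧ (M n).fibres.card = m + 2 ∧ b ⊆ (M n).fibres) →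
      ∀ k, (V k).eval (n : ℝ) = coeff k (expR ((r n : ℚ) : ℝ) *
        Tg (rescale ((A : ℝ) * (cc n : ℝ)) (Gy b m (1 / (cc n : ℝ) ^ 2)))) := by
    intro n hn k
    obtain ⟨h5, h6, h7, h8⟩ := hcc n hn
    rw [← hV n hn.1.1 k, vn_sphere (hM n hn.1), h8, sg_insert h7 hbm _ (c := (cc n : ℝ)) (by
      rw [Nat.cast_natAbs, Int.cast_abs, sq_abs]), h6]
    push_cast
    rfl
  obtain ⟨t, ht⟩ := affine hLOG hNORM2 hSUMS hSQ hF hm h2 (V := V) (cc := cc)
    (r := fun n => ((r n : ℚ) : ℝ)) hA1 hcclim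
    (by filter_upwards [hgood] with n h5; exact (hcc n h5).1)
    (by filter_upwards [hgood] with n h5; exact hrel0 n h5)
  -- `t ≠ 0`
  obtain ⟨n0, hn0, ht0⟩ := (hgood.and ht).exists
  have htne : t ≠ 0 := by
    intro h0
    obtain ⟨h5, h6, h7, h8⟩ := hcc n0 hn0
    have hbne : b.Nonempty := by
      rw [← Finset.card_pos]
      omega
    obtain ⟨l0, hl0⟩ := hbne
    have h9 : l0 ∈ (M n0).fibres := hn0.2.2 hl0
    have h10 : (cc n0).natAbs ∈ (M n0).fibres := by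
      rw [h8]
      exact Finset.mem_insert_self _ _
    have h11 : l0 ≠ (cc n0).natAbs := fun h => h7 (h ▸ hl0)
    have h12 := (M n0).coprime l0 h9 _ h10 h11
    have h13 : l0 ∣ A := Finset.dvd_prod_of_mem _ hl0
    have h14 : l0 ∣ (cc n0).natAbs := by
      rw [ht0, h0, add_zero, Int.natAbs_neg, Int.natAbs_mul, Int.natAbs_natCast]
      exact h13.mul_right _
    have h15 : l0 ∣ 1 := by
      rw [← h12]
      exact Nat.dvd_gcd dvd_rfl h14
    have h16 := Nat.le_of_dvd one_pos h15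
    have := h2 l0 hl0
    omega
  -- at `n = 0`
  set N : Set ℤ := {n : ℤ | (n ∈ seifertSet J ∧ (M n).fibres.card = m + 2 ∧ b ⊆ (M n).fibres) ∧
    cc n = -((A : ℤ) * n + t)} with hN
  have hNF : N ∈ (F : Filter ℤ) := hgood.and ht
  have hNinf : N.Infinite := by
    intro hfin
    have h3 : Nᶜ ∈ (F : Filter ℤ) := hF hfin.compl_mem_cofinite
    have h4 := Filter.inter_mem hNF h3
    rw [Set.inter_compl_self] at h4
    exact Filter.empty_notMem _ h4
  obtain ⟨hm1, ht1⟩ := at_zero hMPOLY hCONV hm h2 hV0 hA1 htne hNinf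
    (r := fun n => ((r n : ℚ) : ℝ)) (fun n hn k => by
      have h3 := hrel0 n hn.1 k
      rw [hn.2] at h3
      exact h3)
  -- the torus knot
  obtain ⟨p, q, hpq, hb⟩ := two_elements (b := b) (by omega)
  have hp2 : 2 ≤ p := h2 p (by rw [hb]; simp)
  have hpqcop : Nat.Coprime p q := hcop p (by rw [hb]; simp) q (by rw [hb]; simp) (by omega)
  have hApq : A = p * q := by
    rw [hA, hb, Finset.prod_pair (by omega)]
  have hx0 : ∀ n : ℤ, n ≠ 0 → IsCoprime (p : ℤ) (-t * q) := fun n hn =>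
    (tsurg p q t n hp2 hpq hpqcop ht1 hn).hq
  have hqc : IsCoprime (p : ℤ) (-t * q) := hx0 1 one_ne_zero
  set J' : ℤ → ℚ⟦X⟧ := colouredJones (torus p (-t * q) hp2 hqc) with hJ'
  have hne' : J ≠ J' := hT p (-t * q) hp2 hqc
    (tsurg p q t 1 hp2 hpq hpqcop ht1 one_ne_zero).hpq
  obtain ⟨c', hc', _⟩ := jonesFn_graph (torus p (-t * q) hp2 hqc)
  rw [← hJ'] at hc'
  have hmatch : ∀ n ∈ N, ∀ hn : n ≠ 0, ohtsuki n J' = seifertTau (M n).fibres (M n).P
      (tsurg p q t n hp2 hpq hpqcop ht1 hn).r := by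
    intro n hnN hn
    obtain ⟨h5, h6, h7, h8⟩ := hcc n hnN.1
    have h9 := torus_match hp2 hpq hpqcop ht1 hn (a := (M n).fibres) (P := (M n).P)
      (l := (cc n).natAbs) (by rw [← Int.abs_eq_natAbs, hnN.2, hApq]) (by rw [h8, hb])
      (by rw [h6, hnN.2, hApq])
    have h10 := (tsurg p q t n hp2 hpq hpqcop ht1 hn).tau_eq
    rw [h9.1, h9.2] at h10
    exact h10
  -- the phases
  have hphase : ∀ n ∈ N, ∀ hn : n ≠ 0, ((r n : ℚ) : ℝ) -
      ((tsurg p q t n hp2 hpq hpqcop ht1 hn).r : ℝ) = -3 * ((c : ℝ) - c') * n := by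
    intro n hnN hn
    have e1 := congrArg (coeff 1) (vn_sphere (hM n hnN.1.1))
    have e2 := congrArg (coeff 1) (vn_sphere (hmatch n hnN hn))
    rw [coeff_mp, coeff_one_vn, h.first hn] at e1
    rw [coeff_mp, coeff_one_vn, hc'.first hn] at e2
    have e3 : ∀ (x : ℝ) (f : ℝ⟦X⟧), coeff 1 (expR x * f) = x * coeff 0 f + coeff 1 f := by
      intro x f
      rw [coeff_mul, Finset.Nat.sum_antidiagonal_eq_sum_range_succ_mk, Finset.sum_range_succ,
        Finset.sum_range_one]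
      simp only [Nat.sub_zero, Nat.sub_self]
      rw [coeff_expR, coeff_expR]
      norm_num
      ring
    have e4 : coeff 0 (sg (M n).fibres ((M n).P : ℝ)) = 1 := by
      obtain ⟨-, -, -, hG, -⟩ := hLOG
      have h5 := (hG (M n).fibres ((M n).fibres.card - 2) 1).1
      rw [rescale_one] at h5
      have h6 : constantCoeff (GR (M n).fibres) = 1 := h5
      rw [sg, coeff_mk, coeff_zero_eq_constantCoeff_apply, h6]
      norm_num
    rw [e3, e4] at e1 e2
    push_cast at e1 e2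
    linarith
  -- equality of the Casson invariants
  have hNF0 : ∀ᶠ n in (F : Filter ℤ), n ∈ N ∧ n ≠ 0 := (show ∀ᶠ n in (F : Filter ℤ), n ∈ N from
    hNF).and hne
  set ρ : ℤ → ℝ := fun n => if hn : n ≠ 0 then
    ((tsurg p q t n hp2 hpq hpqcop ht1 hn).r : ℝ) else 0 with hρ
  have hρlim : Tendsto (fun n : ℤ => ρ n / (n : ℝ)) F (𝓝 (1 / 2)) :=
    tsurg_r hp2 hpq hpqcop ht1 hF ρ (Filter.Eventually.of_forall fun n hn => by
      rw [hρ]
      simp only
      rw [dif_pos hn])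
  have hdiff : Tendsto (fun n : ℤ => ((r n : ℚ) : ℝ) / (n : ℝ) - ρ n / (n : ℝ)) F
      (𝓝 (1 / 2 - 1 / 2)) := by
    rw [hγ] at hrlim
    exact hrlim.sub hρlim
  have hconst : Tendsto (fun n : ℤ => ((r n : ℚ) : ℝ) / (n : ℝ) - ρ n / (n : ℝ)) F
      (𝓝 (-3 * ((c : ℝ) - c'))) := by
    refine tendsto_const_nhds.congr' ?_
    filter_upwards [hNF0] with n hn
    have h5 := hphase n hn.1 hn.2
    have hn' : (n : ℝ) ≠ 0 := by exact_mod_cast hn.2
    have h6 : ρ n = ((tsurg p q t n hp2 hpq hpqcop ht1 hn.2).r : ℝ) := by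
      rw [hρ]
      simp only
      rw [dif_pos hn.2]
    rw [h6, ← sub_div, h5]
    field_simp
  have hcc' : (c : ℝ) - c' = 0 := by
    have := tendsto_nhds_unique hdiff hconst
    linarith
  -- the series agree
  have heq : ∀ n ∈ N, n ≠ 0 → ohtsuki n J = ohtsuki n J' := by
    intro n hnN hn
    have h5 := hphase n hnN hn
    rw [hcc', mul_zero, zero_mul, sub_eq_zero] at h5
    have h6 : r n = (tsurg p q t n hp2 hpq hpqcop ht1 hn).r := by exact_mod_cast h5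
    rw [hM n hnN.1.1, hmatch n hnN hn, h6]
  have hfin := finite_equal h.odd hc'.odd (bd_of_mm h.mm) (bd_of_mm hc'.mm) hne'
  apply (hNinf.sdiff (Set.finite_singleton 0))
  apply hfin.subset
  rintro n ⟨hnN, hn⟩
  exact heq n hnN hn

end

end Pool.Agent.H765.BZ
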