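import Pool.Agent.H765.BZ.Stm

/-!
# Project BZ (helper765): LEADG, the asymptotics of `Tg (Gm b m)`
-/

namespace Pool.Agent.H765.BZ.LEADG

open PowerSeries Finset Nat Real Filter Topology
open Pool.Agent.H765.BZ Pool.Agent.H765.CS

noncomputable section

theorem lead_data' (b : Finset ℕ) (n : ℕ) (hb : ∀ l ∈ b, 2 ≤ l) : ∃ c : ℕ → ℝ, c n ≠ 0 ∧
    ∀ ρ, π ^ 2 < ρ → ρ < 4 * π ^ 2 →
      W ρ (Gm b (n + 1) - ∑ j ∈ range (n + 1), C (c j) * Mj j (geo (π ^ 2))) := by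
  have hpi := Real.pi_pos
  have hp2 : (0 : ℝ) < π ^ 2 := by positivity
  have h5 : Gm b (n + 1) * Ln (π ^ 2) ^ (n + 1) = Ea b * (Ln (π ^ 2) * shR⁻¹) ^ (n + 1) := by
    rw [Gm, mul_pow]
    ring
  have hf : ∀ ρ, π ^ 2 < ρ → ρ < 4 * π ^ 2 → W ρ (Gm b (n + 1) * Ln (π ^ 2) ^ (n + 1)) := by
    intro ρ h1 h2
    have h0 : 0 ≤ ρ := (hp2.trans h1).le
    rw [h5]
    exact (Ent.Ea b ρ h0).mul h0 ((W.shR_inv h0 h2).pow h0 _)
  obtain ⟨c, _, h2, h3⟩ := single_pole (R := 4 * π ^ 2) hp2 (n + 1) (Gm b (n + 1)) hf (by linarith)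
  refine ⟨c, ?_, h2⟩
  have h4 := h3 n rfl
  intro h0
  rw [h0, zero_mul] at h4
  have hμ : |-π ^ 2| ≤ π ^ 2 := by rw [abs_neg, abs_of_pos hp2]
  have w2 : W (π ^ 2) (Ln (π ^ 2) * shR⁻¹) := W.shR_inv hp2.le (by linarith)
  rw [h5, ev_mul hμ (Ent.Ea b _ hp2.le) (w2.pow hp2.le _), ev_pow hμ w2] at h4
  rcases mul_eq_zero.mp h4.symm with h6 | h6
  · have h7 := (ev_Ea_eq_zero hb (m := 1) le_rfl).mp (by rw [neg_pi_sq]; exact h6)
    obtain ⟨l, hl, hl2⟩ := h7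
    have h8 := hb l hl
    have h9 := Nat.le_of_dvd one_pos hl2
    omega
  · exact pow_ne_zero _ ev_U_ne h6

/-- the Gaussian integral with a parameter -/
def sG (G : ℝ⟦X⟧) (P : ℝ) : ℝ⟦X⟧ :=
  PowerSeries.mk fun k => coeff k G * ((2 * k + 1)‼ : ℕ) * P ^ k

theorem sG_lead (J : ℕ) (G : ℝ⟦X⟧) (n : ℕ) (hJ : n ≤ J + 1) {Ps ω : ℝ}
    (hPs : 0 < Ps) (hω : ω = 1 ∨ ω = -1) (c : ℕ → ℝ)
    (hc : ∀ ρ, π ^ 2 < ρ → ρ < 4 * π ^ 2 →
      W ρ (G - ∑ j ∈ range n, C (c j) * Mj j (geo (π ^ 2)))) :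
    As (tt J (Ps / π ^ 2)) ω (sG G (-ω * Ps)) (lead J n c (Ps / π ^ 2 * ω)) 0 := by
  have hpi := Real.pi_pos
  have hp2 : (0 : ℝ) < π ^ 2 := by positivity
  have hβ : 0 < Ps / π ^ 2 := by positivity
  have ht := tt_rapid J hβ
  have hω1 : |ω| ≤ 1 := by rcases hω with rfl | rfl <;> norm_num
  have hω2 : ω * ω = 1 := by rcases hω with rfl | rfl <;> norm_num
  set x : ℝ := Ps / π ^ 2 * ω with hx
  apply As.of_lead ht hω1
  -- the remainder
  set e : ℝ⟦X⟧ := G - ∑ j ∈ range n, C (c j) * Mj j (geo (π ^ 2)) with he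
  set r1 : ℝ⟦X⟧ := PowerSeries.mk fun k => coeff k e * ((2 * k + 1)‼ : ℕ) * (-ω * Ps) ^ k with hr1
  set r2 : Polynomial ℝ := ∑ j ∈ range n, ∑ k ∈ range (J - j),
    Polynomial.C (c j * ((2 * (k + j) + 1)‼ : ℕ) * x ^ k) * Polynomial.X ^ k with hr2
  have key : sG G (-ω * Ps) - (lead J n c x : ℝ⟦X⟧) * T (tt J (Ps / π ^ 2)) ω =
      r1 + (r2 : ℝ⟦X⟧) := by
    ext k
    have h1 : coeff k (sG G (-ω * Ps)) = coeff k r1 +
        ∑ j ∈ range n, c j * ((2 * (k + j) + 1)‼ : ℕ) * x ^ k := by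
      have h2 : coeff k G = coeff k e + ∑ j ∈ range n, c j * (Q j k * (-π ^ 2)⁻¹ ^ k) := by
        rw [he, map_sub, map_sum, sub_add_eq_add_sub, eq_comm, sub_eq_iff_eq_add]
        congr 1
        apply sum_congr rfl
        intro j _
        rw [coeff_C_mul, Mj, coeff_mk, geo, coeff_mk]
      rw [sG, coeff_mk, hr1, coeff_mk, h2, add_mul, add_mul, sum_mul, sum_mul]
      congr 1
      apply sum_congr rfl
      intro j _
      rw [odd_Q]
      have h3 : (-π ^ 2)⁻¹ ^ k * (-ω * Ps) ^ k = x ^ k := by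
        rw [← mul_pow, hx]
        congr 1
        field_simp
      linear_combination (c j * Q j k * ((2 * k + 1)‼ : ℕ)) * h3
    have h4 : coeff k ((lead J n c x : ℝ⟦X⟧) * T (tt J (Ps / π ^ 2)) ω) =
        ∑ j ∈ range n, if J - j ≤ k then c j * ((2 * (k + j) + 1)‼ : ℕ) * x ^ k else 0 := by
      rw [lead, ← Polynomial.coeToPowerSeries.ringHom_apply, map_sum, sum_mul, map_sum]
      apply sum_congr rfl
      intro j hj
      rw [Finset.mem_range] at hj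
      rw [Polynomial.coeToPowerSeries.ringHom_apply, Polynomial.coe_mul, Polynomial.coe_C, Polynomial.coe_pow, Polynomial.coe_X, mul_assoc,
        coeff_C_mul, coeff_X_pow_mul']
      split_ifs with h5
      · rw [T, coeff_mk, tt, show k - (J - j) + J = k + j by omega]
        obtain ⟨d, rfl⟩ := Nat.exists_eq_add_of_le h5
        rw [Nat.add_sub_cancel_left, pow_add x]
        have h6 : x ^ d = ω ^ d * (Ps / π ^ 2) ^ d := by rw [hx, mul_pow]; ring
        rw [h6]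
        ring
      · rw [MulZeroClass.mul_zero]
    have h5 : coeff k (r2 : ℝ⟦X⟧) =
        ∑ j ∈ range n, if k < J - j then c j * ((2 * (k + j) + 1)‼ : ℕ) * x ^ k else 0 := by
      rw [Polynomial.coeff_coe, hr2, Polynomial.finsetSum_coeff]
      apply sum_congr rfl
      intro j _
      rw [Polynomial.finsetSum_coeff]
      simp only [Polynomial.coeff_C_mul, Polynomial.coeff_X_pow, mul_ite, mul_one,
        MulZeroClass.mul_zero]
      rw [sum_ite_eq]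
      simp only [Finset.mem_range]
    rw [map_sub, map_add, h1, h4, h5, add_sub_assoc, ← sum_sub_distrib]
    congr 1
    apply sum_congr rfl
    intro j _
    rcases lt_or_ge k (J - j) with h6 | h6
    · rw [if_neg (by omega), if_pos h6, sub_zero]
    · rw [if_pos h6, if_neg (by omega), sub_self]
  intro M
  rw [key]
  apply Sm.add _ (Sm.poly ht M r2)
  -- the remainder is negligible
  have hlt : π ^ 2 < 2 * π ^ 2 := by linarith
  have hW := hc (2 * π ^ 2) hlt (by linarith)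
  obtain ⟨D, hD0, hD⟩ := hW.bdd (by positivity)
  refine Sm.negligible J hβ (r := 1 / 2) (by norm_num) (by norm_num) (C := D) ?_ M
  intro k
  have h1 := hD k
  rw [hr1, coeff_mk, abs_mul, abs_mul, abs_pow, Nat.abs_cast]
  have h2 : |(-ω * Ps)| = Ps := by
    rw [abs_mul, abs_neg, abs_of_pos hPs]
    rcases hω with rfl | rfl <;> norm_num
  rw [h2]
  have h3 : |coeff k e| ≤ D / (2 * π ^ 2) ^ k := by
    rw [le_div_iff₀ (by positivity)]
    exact h1
  calc |coeff k e| * ((2 * k + 1)‼ : ℕ) * Ps ^ k ≤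
      D / (2 * π ^ 2) ^ k * ((2 * k + 1)‼ : ℕ) * Ps ^ k := by
        apply mul_le_mul_of_nonneg_right _ (by positivity)
        exact mul_le_mul_of_nonneg_right h3 (by positivity)
    _ = D * (((2 * k + 1)‼ : ℕ) * (Ps / π ^ 2 * (1 / 2)) ^ k) := by
        rw [mul_pow (Ps / π ^ 2), div_pow, mul_pow, one_div_pow]
        field_simp

theorem sG_one (G : ℝ⟦X⟧) : sG G (-(-1) * 1) = Tg G := by
  ext k
  rw [sG, Tg, coeff_mk, coeff_mk, neg_neg, one_mul, one_pow, mul_one, mul_comm]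

theorem t_LEADG : S_LEADG := by
  intro b m hm hb
  obtain ⟨n, rfl⟩ : ∃ n, m = n + 1 := ⟨m - 1, by omega⟩
  obtain ⟨c, hc0, hc⟩ := lead_data' b n hb
  have h1 := sG_lead (n + 1) (Gm b (n + 1)) (n + 1) (Nat.le_succ _) (Ps := 1) (ω := -1)
    one_pos (Or.inr rfl) c hc
  rw [sG_one] at h1
  refine ⟨lead (n + 1) (n + 1) c (1 / π ^ 2 * (-1)), ?_, h1⟩
  have hx : 1 / π ^ 2 * (-1) ≠ (0 : ℝ) :=
    mul_ne_zero (one_div_ne_zero (pow_ne_zero 2 Real.pi_ne_zero)) (by norm_num)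
  have h2 := lead_ne (n + 1) n (Nat.le_succ n) c hc0 hx
  intro h0
  apply h2
  rw [h0, Polynomial.coe_zero]

end

end Pool.Agent.H765.BZ.LEADG
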