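import Pool.Agent.H765.BZ.Stm

set_option autoImplicit false

/-! LIM0 of project BZ (helper274 for helper765) -/

namespace Pool.Agent.H765.BZ.LIM0

open PowerSeries Finset Nat Real Filter Topology
open Pool.Agent.H765.BZ Pool.Agent.H765.CS

theorem resc (n : ℤ) (a : Finset ℕ) (P : ℤ) (r : ℝ) :
    rescale (1 / (n : ℝ)) (expR r * sg a (P : ℝ)) =
      expR (r / n) * Tg (rescale ((P : ℝ) / n) (Gm a (a.card - 2))) := by
  rw [map_mul]
  have e1 : rescale (1 / (n : ℝ)) (expR r) = expR (r / n) := by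
    unfold expR
    rw [PowerSeries.rescale_rescale, mul_one_div]
  have e2 : rescale (1 / (n : ℝ)) (sg a (P : ℝ)) = Tg (rescale ((P : ℝ) / n) (Gm a (a.card - 2))) := by
    ext k
    have e3 : GR a = Gm a (a.card - 2) := rfl
    unfold sg Tg
    rw [coeff_rescale, coeff_mk, coeff_mk, coeff_rescale, e3, div_pow, div_pow, one_pow]
    ring
  rw [e1, e2]

theorem conv_of_bdd (F : Ultrafilter ℤ) (x : ℤ → ℝ) (K : ℝ)
    (h : ∀ᶠ n in (F : Filter ℤ), |x n| ≤ K) : ∃ l, Tendsto x F (𝓝 l) := by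
  have h1 : ((F.map x : Ultrafilter ℝ) : Filter ℝ) ≤ 𝓟 (Set.Icc (-K) K) := by
    rw [le_principal_iff]
    exact h.mono fun n hn => abs_le.mp hn
  obtain ⟨l, -, hl⟩ := isCompact_Icc.ultrafilter_le_nhds (F.map x) h1
  exact ⟨l, hl⟩

/-- the bound for one `n` -/
theorem one (h1 : S_LOG) (h2 : S_NORM2) (h3 : S_SUMS) (a : Finset ℕ) (ha : IsFib a) (x s B : ℝ)
    (hB : coeff 2 (expR s * Tg (rescale x (Gm a (a.card - 2)))) -
      (coeff 1 (expR s * Tg (rescale x (Gm a (a.card - 2))))) ^ 2 / 2 ≤ B) :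
    |x| * ((a.card : ℝ) - 2) ≤ 192 * B + 1 ∧
    |coeff 1 (expR s * Tg (rescale x (Gm a (a.card - 2)))) - s| ≤ |x| * ((a.card : ℝ) - 2) ∧
    |x| ≤ |x| * ((a.card : ℝ) - 2) := by
  obtain ⟨m, hm⟩ : ∃ m : ℕ, m = a.card - 2 := ⟨_, rfl⟩
  have hc := ha.card
  have hm1 : 1 ≤ m := by omega
  have hmR : ((a.card : ℝ) - 2) = m := by
    have : a.card = m + 2 := by omega
    rw [this]
    push_cast
    ring
  have hm1R : (1 : ℝ) ≤ m := by exact_mod_cast hm1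
  rw [← hm] at hB ⊢
  rw [hmR]
  obtain ⟨k0, k1, k2, k3, -⟩ := h1
  obtain ⟨g1, g2⟩ := k3 a m x
  obtain ⟨L, hL⟩ : ∃ L : ℝ⟦X⟧, L = PowerSeries.mk fun k => coeff k Lsh * x ^ k *
    (∑ l ∈ a, 1 / (l : ℝ) ^ (2 * k) - m) := ⟨_, rfl⟩
  rw [← hL] at g2
  have hL0 : constantCoeff L = 0 := by
    rw [← coeff_zero_eq_constantCoeff_apply, hL, coeff_mk, coeff_zero_eq_constantCoeff_apply, k0,
      zero_mul, zero_mul]
  obtain ⟨n1, n2⟩ := h2 _ L s g1 hL0 g2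
  rw [n2] at hB
  rw [n1]
  obtain ⟨e1, he1⟩ : ∃ e : ℝ, e = m - ∑ l ∈ a, 1 / (l : ℝ) ^ (2 * 1) := ⟨_, rfl⟩
  obtain ⟨e2, he2⟩ : ∃ e : ℝ, e = m - ∑ l ∈ a, 1 / (l : ℝ) ^ (2 * 2) := ⟨_, rfl⟩
  have hL1 : coeff 1 L = -(x * e1 / 6) := by
    rw [hL, coeff_mk, k1, he1]
    ring
  have hL2 : coeff 2 L = x ^ 2 * e2 / 90 := by
    rw [hL, coeff_mk, k2, he2]
    ring
  obtain ⟨p1, p2⟩ := h3 a 1 ha.two le_rfl
  obtain ⟨q1, q2⟩ := h3 a 2 ha.two (by norm_num)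
  have he1a : (m : ℝ) / 4 ≤ e1 := by rw [he1]; linarith
  have he1b : e1 ≤ m := by rw [he1]; linarith
  have he2a : 0 ≤ e2 := by rw [he2]; linarith
  rw [hL1, hL2] at hB
  rw [hL1]
  have hx0 := abs_nonneg x
  have hxx : |x| ^ 2 = x ^ 2 := sq_abs x
  have he0 : 0 ≤ e1 := by linarith
  refine ⟨?_, ?_, ?_⟩
  · have h4 : x ^ 2 * e1 ^ 2 ≤ 12 * B := by
      have h5 : 0 ≤ x ^ 2 * e2 := by positivity
      linarith
    have h6 : (|x| * m) ^ 2 ≤ 192 * B := by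
      have h7 : ((m : ℝ) / 4) ^ 2 ≤ e1 ^ 2 := pow_le_pow_left₀ (by positivity) he1a 2
      have h8 := mul_le_mul_of_nonneg_left h7 (sq_nonneg x)
      have h9 : (|x| * m) ^ 2 = 16 * (x ^ 2 * ((m : ℝ) / 4) ^ 2) := by
        rw [mul_pow, hxx]
        ring
      rw [h9]
      linarith
    nlinarith [sq_nonneg (|x| * m - 1)]
  · have h4 : s + 3 * -(x * e1 / 6) - s = -(x * e1 / 2) := by ring
    rw [h4, abs_neg, abs_div, abs_mul, abs_of_nonneg he0, abs_two]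
    have h5 : |x| * e1 ≤ |x| * m := mul_le_mul_of_nonneg_left he1b hx0
    have h6 : 0 ≤ |x| * e1 := by positivity
    linarith
  · have h5 : |x| * 1 ≤ |x| * m := mul_le_mul_of_nonneg_left hm1R hx0
    linarith

theorem t_LIM0 (h1 : S_LOG) (h2 : S_NORM2) (h3 : S_SUMS) : S_LIM0 := by
  intro v α S a P r hS hdat hlim
  have hne : (cofinite ⊓ 𝓟 S : Filter ℤ).NeBot := cofinite_inf_principal_neBot_iff.mpr hS
  obtain ⟨F, hF⟩ : ∃ F : Ultrafilter ℤ, F = Ultrafilter.of (cofinite ⊓ 𝓟 S : Filter ℤ) := ⟨_, rfl⟩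
  have hFle : (F : Filter ℤ) ≤ cofinite ⊓ 𝓟 S := by
    rw [hF]
    exact Ultrafilter.of_le _
  have hFc : (F : Filter ℤ) ≤ cofinite := hFle.trans inf_le_left
  have hFS : S ∈ (F : Filter ℤ) := le_principal_iff.mp (hFle.trans inf_le_right)
  have hSev : ∀ᶠ n in (F : Filter ℤ), n ∈ S := hFS
  obtain ⟨V, hV⟩ : ∃ V : ℤ → ℝ⟦X⟧, V = fun n => expR (r n / (n : ℝ)) *
    Tg (rescale ((P n : ℝ) / n) (Gm (a n) ((a n).card - 2))) := ⟨_, rfl⟩
  have hVeq : ∀ n ∈ S, ∀ k, coeff k (v n) / (n : ℝ) ^ k = coeff k (V n) := by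
    intro n hn k
    obtain ⟨-, -, h⟩ := hdat n hn
    rw [hV]
    simp only
    rw [← resc, ← h, coeff_rescale, div_pow, one_pow]
    ring
  have hVlim : ∀ k, Tendsto (fun n => coeff k (V n)) F (𝓝 (coeff k α)) := by
    intro k
    refine ((hlim k).mono_left hFc).congr' ?_
    filter_upwards [hSev] with n hn
    exact hVeq n hn k
  -- boundedness
  have hq : Tendsto (fun n => coeff 2 (V n) - (coeff 1 (V n)) ^ 2 / 2) F
      (𝓝 (coeff 2 α - (coeff 1 α) ^ 2 / 2)) :=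
    (hVlim 2).sub (((hVlim 1).pow 2).div_const 2)
  obtain ⟨B, hB⟩ : ∃ B : ℝ, B = coeff 2 α - (coeff 1 α) ^ 2 / 2 + 1 := ⟨_, rfl⟩
  have hqB : ∀ᶠ n in (F : Filter ℤ), coeff 2 (V n) - (coeff 1 (V n)) ^ 2 / 2 ≤ B :=
    hq.eventually_le_const (by rw [hB]; linarith)
  have h1B : ∀ᶠ n in (F : Filter ℤ), |coeff 1 (V n)| ≤ |coeff 1 α| + 1 :=
    (hVlim 1).abs.eventually_le_const (by linarith)
  have hbd : ∀ᶠ n in (F : Filter ℤ), |(P n : ℝ) / n| * (((a n).card : ℝ) - 2) ≤ 192 * B + 1 ∧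
      |coeff 1 (V n) - r n / (n : ℝ)| ≤ |(P n : ℝ) / n| * (((a n).card : ℝ) - 2) ∧
      |(P n : ℝ) / n| ≤ |(P n : ℝ) / n| * (((a n).card : ℝ) - 2) := by
    filter_upwards [hSev, hqB] with n hn hq'
    rw [hV] at hq' ⊢
    exact one h1 h2 h3 (a n) (hdat n hn).2.1 _ _ B hq'
  obtain ⟨lam, hlam⟩ := conv_of_bdd F (fun n => (P n : ℝ) / n) (192 * B + 1)
    (hbd.mono fun n hn => hn.2.2.trans hn.1)
  obtain ⟨γ, hγ⟩ := conv_of_bdd F (fun n => r n / (n : ℝ)) (|coeff 1 α| + 1 + (192 * B + 1)) (by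
    filter_upwards [hbd, h1B] with n hn hn1
    have h4 := hn.2.1.trans hn.1
    have h5 : |r n / (n : ℝ)| ≤ |coeff 1 (V n)| + |coeff 1 (V n) - r n / (n : ℝ)| := by
      have h6 : r n / (n : ℝ) = coeff 1 (V n) - (coeff 1 (V n) - r n / (n : ℝ)) := by ring
      calc |r n / (n : ℝ)| = |coeff 1 (V n) - (coeff 1 (V n) - r n / (n : ℝ))| := by rw [← h6]
        _ ≤ _ := abs_sub _ _
    linarith)
  refine ⟨F, lam, γ, hFc, hFS, hSev.mono fun n hn => (hdat n hn).2.1, hlam, hγ,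
    ⟨192 * B + 1, hbd.mono fun n hn => hn.1⟩, fun k => ?_⟩
  have h4 := hVlim k
  rw [hV] at h4
  exact h4

end Pool.Agent.H765.BZ.LIM0
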