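import Pool.Agent.H765.BZ.Stm

namespace Pool.Agent.H765.BZ.LIM1

open PowerSeries Finset Nat Real Filter Topology
open Pool.Agent.H765.BZ Pool.Agent.H765.CS

theorem expR_tendsto (F : Ultrafilter ℤ) (s : ℤ → ℝ) (γ : ℝ) (hs : Tendsto s F (𝓝 γ)) (k : ℕ) :
    Tendsto (fun n => coeff k (expR (s n))) F (𝓝 (coeff k (expR γ))) := by
  unfold expR
  simp only [PowerSeries.coeff_rescale]
  exact (hs.pow k).mul_const _

theorem t_LIM1 (h1 : S_LOG) (h2 : S_ODE) (h3 : S_DOM) : S_LIM1 := by
  intro F a x s lam γ α m hL hm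
  obtain ⟨hfib, hx, hs, -, hco⟩ := hL
  obtain ⟨b, hb, hsum⟩ := h3 F a (m + 2)
    (by
      filter_upwards [hfib, hm] with n hn1 hn2
      exact ⟨fun l hl => hn1.two l hl, hn2⟩)
  obtain ⟨hL0, -, -, hG, -⟩ := h1
  refine ⟨b, hb, ?_⟩
  have key : ∀ k, Tendsto (fun n => coeff k (rescale (x n) (Gm (a n) m))) F
      (𝓝 (coeff k (rescale lam (Gm b m)))) := by
    refine h2 F (fun n => rescale (x n) (Gm (a n) m))
      (fun n => PowerSeries.mk fun k => coeff k Lsh * (x n) ^ k *
        (∑ l ∈ a n, 1 / (l : ℝ) ^ (2 * k) - m))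
      (rescale lam (Gm b m))
      (PowerSeries.mk fun k => coeff k Lsh * lam ^ k * (∑ l ∈ b, 1 / (l : ℝ) ^ (2 * k) - m))
      ?_ ?_ ?_ ?_ ?_
    · refine Filter.Eventually.of_forall fun n => ⟨(hG (a n) m (x n)).1, ?_, (hG (a n) m (x n)).2⟩
      rw [← PowerSeries.coeff_zero_eq_constantCoeff_apply, PowerSeries.coeff_mk,
        PowerSeries.coeff_zero_eq_constantCoeff_apply, hL0]
      ring
    · exact (hG b m lam).1
    · rw [← PowerSeries.coeff_zero_eq_constantCoeff_apply, PowerSeries.coeff_mk,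
        PowerSeries.coeff_zero_eq_constantCoeff_apply, hL0]
      ring
    · exact (hG b m lam).2
    · intro k
      simp only [PowerSeries.coeff_mk]
      rcases Nat.eq_zero_or_pos k with rfl | hk
      · rw [PowerSeries.coeff_zero_eq_constantCoeff_apply, hL0]
        simp
      · exact ((hx.pow k).const_mul _).mul ((hsum k hk).sub_const _)
  have key2 : ∀ k, Tendsto (fun n => coeff k (expR (s n) * Tg (rescale (x n) (Gm (a n) m)))) F
      (𝓝 (coeff k (expR γ * Tg (rescale lam (Gm b m))))) := by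
    intro k
    simp only [PowerSeries.coeff_mul]
    refine tendsto_finsetSum _ fun p _ => ?_
    refine (expR_tendsto F s γ hs p.1).mul ?_
    unfold Tg
    simp only [PowerSeries.coeff_mk]
    exact (key p.2).const_mul _
  ext k
  refine tendsto_nhds_unique (hco k) ((key2 k).congr' ?_)
  filter_upwards [hm] with n hn
  rw [hn, Nat.add_sub_cancel]

end Pool.Agent.H765.BZ.LIM1
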