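import Pool.Agent.H765.BZ.Stm

set_option autoImplicit false

/-! Project BZ (helper765), task LOG (helper25): logarithmic derivatives. -/

namespace Pool.Agent.H765.BZ.LOG

open PowerSeries Finset Nat Real
open Pool.Agent.H765.BZ Pool.Agent.H765.CS

theorem th_rescale (x : ℝ) (f : ℝ⟦X⟧) : th (rescale x f) = rescale x (th f) := by
  ext n
  rw [th, coeff_mk, coeff_rescale, coeff_rescale, th, coeff_mk]
  ring

theorem cc_rescale (x : ℝ) (f : ℝ⟦X⟧) : constantCoeff (rescale x f) = constantCoeff f := by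
  rw [← coeff_zero_eq_constantCoeff_apply, ← coeff_zero_eq_constantCoeff_apply, coeff_rescale,
    pow_zero, one_mul]

theorem cc_sh : constantCoeff shR = 1 := by
  rw [← coeff_zero_eq_constantCoeff_apply, shR, coeff_mk]
  norm_num

theorem sh_inv : shR * shR⁻¹ = 1 := by
  apply PowerSeries.mul_inv_cancel
  rw [cc_sh]
  exact one_ne_zero

theorem cc_inv : constantCoeff shR⁻¹ = 1 := by
  have h := congrArg constantCoeff sh_inv
  rw [map_mul, cc_sh, one_mul, map_one] at h
  exact h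

theorem ld_sh : th shR = shR * Lsh := by
  unfold Lsh
  rw [mul_left_comm, sh_inv, mul_one]

theorem ld_mul {f g Lf Lg : ℝ⟦X⟧} (hf : th f = f * Lf) (hg : th g = g * Lg) :
    th (f * g) = f * g * (Lf + Lg) := by
  rw [th_mul, hf, hg]
  ring

theorem ld_rescale {f Lf : ℝ⟦X⟧} (x : ℝ) (hf : th f = f * Lf) :
    th (rescale x f) = rescale x f * rescale x Lf := by
  rw [th_rescale, hf, map_mul]

theorem ld_inv : th shR⁻¹ = shR⁻¹ * (-Lsh) := by
  have h := congrArg th sh_inv
  rw [th_mul, th_one] at h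
  have h2 : th shR⁻¹ = shR⁻¹ * (shR * th shR⁻¹) := by
    rw [← mul_assoc, mul_comm shR⁻¹ shR, sh_inv, one_mul]
  have h3 : shR * th shR⁻¹ = -(th shR * shR⁻¹) := by
    rw [eq_neg_iff_add_eq_zero, add_comm]
    exact h
  rw [h2, h3]
  rfl

theorem ld_pow {f Lf : ℝ⟦X⟧} (hf : th f = f * Lf) (m : ℕ) :
    th (f ^ m) = f ^ m * (C (m : ℝ) * Lf) := by
  induction m with
  | zero =>
    rw [pow_zero, th_one]
    simp
  | succ m ih =>
    rw [pow_succ, th_mul, ih, hf]
    push_cast
    rw [map_add, map_one]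
    ring

theorem ld_Ea (b : Finset ℕ) :
    th (Ea b) = Ea b * ∑ l ∈ b, rescale (1 / (l : ℝ) ^ 2) Lsh := by
  classical
  unfold Ea
  induction b using Finset.induction_on with
  | empty =>
    rw [prod_empty, th_one, sum_empty, MulZeroClass.mul_zero]
  | insert a s ha ih =>
    rw [prod_insert ha, sum_insert ha]
    exact ld_mul (ld_rescale _ ld_sh) ih

theorem cc_Ea (b : Finset ℕ) : constantCoeff (Ea b) = 1 := by
  unfold Ea
  rw [map_prod]
  apply prod_eq_one
  intro l _
  rw [cc_rescale, cc_sh]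

theorem ld_Gm (b : Finset ℕ) (m : ℕ) :
    th (Gm b m) = Gm b m * (∑ l ∈ b, rescale (1 / (l : ℝ) ^ 2) Lsh + C (m : ℝ) * (-Lsh)) := by
  unfold Gm
  exact ld_mul (ld_Ea b) (ld_pow ld_inv m)

theorem ld_Gy (b : Finset ℕ) (m : ℕ) (y : ℝ) :
    th (Gy b m y) = Gy b m y * (∑ l ∈ b, rescale (1 / (l : ℝ) ^ 2) Lsh + rescale y Lsh +
      C (m : ℝ) * (-Lsh)) := by
  unfold Gy
  exact ld_mul (ld_mul (ld_Ea b) (ld_rescale y ld_sh)) (ld_pow ld_inv m)

theorem co_sum (b : Finset ℕ) (k : ℕ) :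
    coeff k (∑ l ∈ b, rescale (1 / (l : ℝ) ^ 2) Lsh) =
      (∑ l ∈ b, 1 / (l : ℝ) ^ (2 * k)) * coeff k Lsh := by
  rw [map_sum, sum_mul]
  refine sum_congr rfl fun l _ => ?_
  rw [coeff_rescale, one_div_pow, ← pow_mul]

theorem co0 : constantCoeff Lsh = 0 := by
  have h := congrArg constantCoeff ld_sh
  rw [map_mul, cc_sh, one_mul] at h
  rw [← h, ← coeff_zero_eq_constantCoeff_apply, th, coeff_mk]
  simp

theorem co1 : coeff 1 Lsh = 1 / 6 := by
  have h := congrArg (coeff 1) ld_sh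
  have e : (antidiagonal 1 : Finset (ℕ × ℕ)) = {(0, 1), (1, 0)} := rfl
  rw [coeff_mul, th, coeff_mk, e, sum_insert (by decide), sum_singleton] at h
  simp only [coeff_zero_eq_constantCoeff_apply, co0, cc_sh, MulZeroClass.mul_zero, add_zero,
    one_mul] at h
  have h1 : coeff 1 shR = 1 / 6 := by
    rw [shR, coeff_mk]
    norm_num [Nat.factorial]
  rw [h1] at h
  push_cast at h
  linarith

theorem co2 : coeff 2 Lsh = -1 / 90 := by
  have h := congrArg (coeff 2) ld_sh
  have e : (antidiagonal 2 : Finset (ℕ × ℕ)) = {(0, 2), (1, 1), (2, 0)} := rfl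
  rw [coeff_mul, th, coeff_mk, e, sum_insert (by decide), sum_insert (by decide),
    sum_singleton] at h
  simp only [coeff_zero_eq_constantCoeff_apply, co0, cc_sh, co1, MulZeroClass.mul_zero, add_zero,
    one_mul] at h
  have h1 : coeff 1 shR = 1 / 6 := by
    rw [shR, coeff_mk]
    norm_num [Nat.factorial]
  have h2 : coeff 2 shR = 1 / 120 := by
    rw [shR, coeff_mk]
    norm_num [Nat.factorial]
  rw [h1, h2] at h
  push_cast at h
  linarith

theorem t_LOG : S_LOG := by
  refine ⟨co0, co1, co2, ?_, ?_⟩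
  · intro b m x
    constructor
    · rw [cc_rescale, Gm, map_mul, map_pow, cc_inv, one_pow, mul_one, cc_Ea]
    · rw [ld_rescale x (ld_Gm b m)]
      congr 1
      ext k
      rw [coeff_rescale, map_add, co_sum, coeff_C_mul, map_neg, coeff_mk]
      ring
  · intro b m y x
    constructor
    · rw [cc_rescale, Gy, map_mul, map_mul, map_pow, cc_inv, one_pow, mul_one, cc_Ea, cc_rescale,
        cc_sh, mul_one]
    · rw [ld_rescale x (ld_Gy b m y)]
      congr 1
      ext k
      rw [coeff_rescale, map_add, map_add, co_sum, coeff_C_mul, map_neg, coeff_mk, coeff_rescale]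
      ring

end Pool.Agent.H765.BZ.LOG
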