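import Pool.Agent.H765.BZ.Stm

set_option autoImplicit false

namespace Pool.Agent.H765.BZ.NORM2

open PowerSeries Pool.Agent.H765.BZ Pool.Agent.H765.CS

lemma c1 (f g : ℝ⟦X⟧) : coeff 1 (f * g) = coeff 0 f * coeff 1 g + coeff 1 f * coeff 0 g := by
  rw [PowerSeries.coeff_mul]
  have h : Finset.HasAntidiagonal.antidiagonal (1 : ℕ) = {(0, 1), (1, 0)} := by decide
  rw [h, Finset.sum_insert (by decide), Finset.sum_singleton]

lemma c2 (f g : ℝ⟦X⟧) : coeff 2 (f * g) = coeff 0 f * coeff 2 g + coeff 1 f * coeff 1 g +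
    coeff 2 f * coeff 0 g := by
  rw [PowerSeries.coeff_mul]
  have h : Finset.HasAntidiagonal.antidiagonal (2 : ℕ) = {(0, 2), (1, 1), (2, 0)} := by decide
  rw [h, Finset.sum_insert (by decide), Finset.sum_insert (by decide), Finset.sum_singleton, add_assoc]

lemma ex (r : ℝ) : coeff 0 (expR r) = 1 ∧ coeff 1 (expR r) = r ∧ coeff 2 (expR r) = r ^ 2 / 2 := by
  unfold expR
  refine ⟨?_, ?_, ?_⟩
  · simp [PowerSeries.coeff_exp]
  · simp [PowerSeries.coeff_rescale, PowerSeries.coeff_exp]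
  · simp [PowerSeries.coeff_rescale, PowerSeries.coeff_exp, Nat.factorial]
    ring

lemma tg (f : ℝ⟦X⟧) : coeff 0 (Tg f) = coeff 0 f ∧ coeff 1 (Tg f) = 3 * coeff 1 f ∧
    coeff 2 (Tg f) = 15 * coeff 2 f := by
  unfold Tg
  refine ⟨?_, ?_, ?_⟩ <;> rw [PowerSeries.coeff_mk] <;> norm_num [Nat.doubleFactorial]

lemma cth (f : ℝ⟦X⟧) (n : ℕ) : coeff n (th f) = (n : ℝ) * coeff n f := by
  unfold th
  rw [PowerSeries.coeff_mk]

theorem t_NORM2 : S_NORM2 := by
  intro f L r hf hL h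
  rw [← PowerSeries.coeff_zero_eq_constantCoeff_apply] at hf hL
  have h1 : coeff 1 f = coeff 1 L := by
    have h1 := congrArg (coeff 1) h
    rw [c1, hf, hL] at h1
    rw [cth] at h1
    push_cast at h1
    linarith
  have h2 : 2 * coeff 2 f = coeff 2 L + coeff 1 L ^ 2 := by
    have h2 := congrArg (coeff 2) h
    rw [c2, hf, hL, h1] at h2
    rw [cth] at h2
    push_cast at h2
    linarith
  obtain ⟨e0, e1, e2⟩ := ex r
  obtain ⟨t0, t1, t2⟩ := tg f
  rw [c1, c2, e0, e1, e2, t0, t1, t2, hf, h1]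
  constructor
  · ring
  · linear_combination (15 / 2) * h2

end Pool.Agent.H765.BZ.NORM2
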