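import Pool.Agent.H765.BZ.Stm2

set_option autoImplicit false

namespace Pool.Agent.H765.BZ.NORM3

open PowerSeries Pool.Agent.H765.BZ Pool.Agent.H765.CS

lemma c0 (f g : ℝ⟦X⟧) : coeff 0 (f * g) = coeff 0 f * coeff 0 g := by
  rw [PowerSeries.coeff_mul]
  have h : Finset.HasAntidiagonal.antidiagonal (0 : ℕ) = {(0, 0)} := by decide
  rw [h, Finset.sum_singleton]

lemma c1 (f g : ℝ⟦X⟧) : coeff 1 (f * g) = coeff 0 f * coeff 1 g + coeff 1 f * coeff 0 g := by
  rw [PowerSeries.coeff_mul]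
  have h : Finset.HasAntidiagonal.antidiagonal (1 : ℕ) = {(0, 1), (1, 0)} := by decide
  rw [h, Finset.sum_insert (by decide), Finset.sum_singleton]

lemma c2 (f g : ℝ⟦X⟧) : coeff 2 (f * g) = coeff 0 f * coeff 2 g + coeff 1 f * coeff 1 g +
    coeff 2 f * coeff 0 g := by
  rw [PowerSeries.coeff_mul]
  have h : Finset.HasAntidiagonal.antidiagonal (2 : ℕ) = {(0, 2), (1, 1), (2, 0)} := by decide
  rw [h, Finset.sum_insert (by decide), Finset.sum_insert (by decide), Finset.sum_singleton, add_assoc]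

lemma c3 (f g : ℝ⟦X⟧) : coeff 3 (f * g) = coeff 0 f * coeff 3 g + coeff 1 f * coeff 2 g +
    coeff 2 f * coeff 1 g + coeff 3 f * coeff 0 g := by
  rw [PowerSeries.coeff_mul]
  have h : Finset.HasAntidiagonal.antidiagonal (3 : ℕ) = {(0, 3), (1, 2), (2, 1), (3, 0)} := by
    decide
  rw [h, Finset.sum_insert (by decide), Finset.sum_insert (by decide),
    Finset.sum_insert (by decide), Finset.sum_singleton]
  ring

lemma ex (r : ℝ) : coeff 0 (expR r) = 1 ∧ coeff 1 (expR r) = r ∧ coeff 2 (expR r) = r ^ 2 / 2 ∧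
    coeff 3 (expR r) = r ^ 3 / 6 := by
  unfold expR
  refine ⟨?_, ?_, ?_, ?_⟩
  · simp [PowerSeries.coeff_exp]
  · simp [PowerSeries.coeff_rescale, PowerSeries.coeff_exp]
  · simp [PowerSeries.coeff_rescale, PowerSeries.coeff_exp, Nat.factorial]
    ring
  · simp [PowerSeries.coeff_rescale, PowerSeries.coeff_exp, Nat.factorial]
    ring

lemma tg (f : ℝ⟦X⟧) : coeff 0 (Tg f) = coeff 0 f ∧ coeff 1 (Tg f) = 3 * coeff 1 f ∧
    coeff 2 (Tg f) = 15 * coeff 2 f ∧ coeff 3 (Tg f) = 105 * coeff 3 f := by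
  unfold Tg
  refine ⟨?_, ?_, ?_, ?_⟩ <;> rw [PowerSeries.coeff_mk] <;> norm_num [Nat.doubleFactorial]

lemma cth (f : ℝ⟦X⟧) (n : ℕ) : coeff n (th f) = (n : ℝ) * coeff n f := by
  unfold th
  rw [PowerSeries.coeff_mk]

lemma sh : coeff 0 shR = 1 ∧ coeff 1 shR = 1 / 6 ∧ coeff 2 shR = 1 / 120 ∧
    coeff 3 shR = 1 / 5040 := by
  unfold shR
  refine ⟨?_, ?_, ?_, ?_⟩ <;> rw [PowerSeries.coeff_mk] <;> norm_num [Nat.factorial]

lemma lsh : coeff 3 Lsh = 1 / 945 := by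
  obtain ⟨s0, s1, s2, s3⟩ := sh
  have hc : constantCoeff shR ≠ 0 := by
    rw [← PowerSeries.coeff_zero_eq_constantCoeff_apply, s0]
    exact one_ne_zero
  have h : Lsh * shR = th shR := by
    unfold Lsh
    rw [mul_assoc, PowerSeries.inv_mul_cancel _ hc, mul_one]
  have h0 := congrArg (coeff 0) h
  have h1 := congrArg (coeff 1) h
  have h2 := congrArg (coeff 2) h
  have h3 := congrArg (coeff 3) h
  rw [c0, cth, s0] at h0
  rw [c1, cth, s0, s1] at h1
  rw [c2, cth, s0, s1, s2] at h2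
  rw [c3, cth, s0, s1, s2, s3] at h3
  push_cast at h0 h1 h2 h3
  linarith

theorem t_NORM3 : S_NORM3 := by
  refine ⟨lsh, ?_⟩
  intro f L r hf hL h
  rw [← PowerSeries.coeff_zero_eq_constantCoeff_apply] at hf hL
  have h1 : coeff 1 f = coeff 1 L := by
    have h1 := congrArg (coeff 1) h
    rw [c1, hf, hL] at h1
    rw [cth] at h1
    push_cast at h1
    linarith
  have h2 : coeff 2 f = (coeff 2 L + coeff 1 L ^ 2) / 2 := by
    have h2 := congrArg (coeff 2) h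
    rw [c2, hf, hL, h1] at h2
    rw [cth] at h2
    push_cast at h2
    linarith
  have h3 : coeff 3 f = coeff 3 L / 3 + coeff 1 L * coeff 2 L / 2 + coeff 1 L ^ 3 / 6 := by
    have h3 := congrArg (coeff 3) h
    rw [c3, hf, hL, h1, h2] at h3
    rw [cth] at h3
    push_cast at h3
    linarith
  obtain ⟨e0, e1, e2, e3⟩ := ex r
  obtain ⟨t0, t1, t2, t3⟩ := tg f
  unfold cu3
  rw [c1, c2, c3, e0, e1, e2, e3, t0, t1, t2, t3, hf, h1, h2, h3]
  ring

end Pool.Agent.H765.BZ.NORM3
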