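import Pool.Agent.H765.BZ.Stm

/-! BZ-ODE: solutions of `th f = f L` depend continuously on `L`, coefficientwise. -/

namespace Pool.Agent.H765.BZ.ODE

open PowerSeries Finset Nat Real Filter Topology
open Pool.Agent.H765.BZ Pool.Agent.H765.CS

noncomputable section

theorem coeff_th' (f : ℝ⟦X⟧) (k : ℕ) : coeff k (th f) = (k : ℝ) * coeff k f := by
  unfold th
  rw [coeff_mk]

/-- the recursion for the coefficients -/
theorem rec_coeff (f L : ℝ⟦X⟧) (h0 : constantCoeff L = 0) (h : th f = f * L) (k : ℕ) (hk : 1 ≤ k) :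
    coeff k f = (1 / (k : ℝ)) * ∑ i ∈ range k, coeff i f * coeff (k - i) L := by
  have h1 : (k : ℝ) * coeff k f = ∑ i ∈ range k, coeff i f * coeff (k - i) L := by
    rw [← coeff_th', h, coeff_mul, Finset.Nat.sum_antidiagonal_eq_sum_range_succ_mk,
      sum_range_succ]
    simp only [Nat.sub_self]
    rw [coeff_zero_eq_constantCoeff_apply, h0, mul_zero, add_zero]
  have hk' : (k : ℝ) ≠ 0 := by
    have : 0 < k := hk
    positivity
  rw [← h1]
  field_simp

theorem t_ODE : S_ODE := by
  intro F f L f0 L0 hF hf0 hL0 hth hL k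
  induction k using Nat.strong_induction_on with
  | _ k ih =>
    rcases Nat.eq_zero_or_pos k with hk | hk
    · subst hk
      rw [coeff_zero_eq_constantCoeff_apply, hf0]
      refine tendsto_const_nhds.congr' ?_
      filter_upwards [hF] with n hn
      rw [coeff_zero_eq_constantCoeff_apply, hn.1]
    · rw [rec_coeff f0 L0 hL0 hth k hk]
      have h1 : Tendsto (fun n => (1 / (k : ℝ)) * ∑ i ∈ range k, coeff i (f n) * coeff (k - i) (L n))
          F (𝓝 ((1 / (k : ℝ)) * ∑ i ∈ range k, coeff i f0 * coeff (k - i) L0)) := by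
        refine Tendsto.const_mul _ (tendsto_finsetSum _ fun i hi => ?_)
        exact (ih i (mem_range.mp hi)).mul (hL _)
      refine h1.congr' ?_
      filter_upwards [hF] with n hn
      exact (rec_coeff (f n) (L n) hn.2.1 hn.2.2 k hk).symm

end

end Pool.Agent.H765.BZ.ODE

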