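import Pool.Agent.H765.BZ.Stm

set_option autoImplicit false

/-! Orders of zeros of entire functions: S_ORD. -/

namespace Pool.Agent.H765.BZ.ORD

open PowerSeries Finset Nat Real Filter Topology
open Pool.Agent.H765.BZ Pool.Agent.H765.CS

noncomputable section

theorem Ln_ne {ν : ℝ} (hν : 0 < ν) : Ln ν ≠ 0 := by
  intro h
  have h1 := geo_mul hν
  rw [h, MulZeroClass.mul_zero] at h1
  exact zero_ne_one h1

theorem th_rescale (s : ℝ) (f : ℝ⟦X⟧) : th (rescale s f) = rescale s (th f) := by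
  ext n
  rw [th, coeff_mk, coeff_rescale, coeff_rescale, th, coeff_mk]
  ring

/-- division of an entire function -/
theorem ent_div {ν : ℝ} (hν : 0 < ν) {f : ℝ⟦X⟧} (hf : Ent f) (h0 : ev (-ν) f = 0) :
    Ent (f * geo ν) := by
  intro ρ hρ
  have h1 : f * geo ν * (1 + PowerSeries.C (1 / ν) * PowerSeries.X) = f := by
    have h2 := geo_mul hν
    rw [Ln] at h2
    rw [mul_assoc, h2, mul_one]
  obtain ⟨c, hc⟩ := W.div (ρ := max ρ ν + 1) hν (by
    have := le_max_right ρ ν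
    linarith) (hf _ (by
    have := le_max_right ρ ν
    linarith)) h0 h1
  exact W.of_bdd hρ (by
    have := le_max_left ρ ν
    linarith) hc

theorem pos_of_mul_pos_of_pos_right' {x : ℝ} (h : 0 < x * π) : 0 < x := by
  by_contra h1
  push Not at h1
  have := mul_nonpos_of_nonpos_of_nonneg h1 Real.pi_pos.le
  linarith

theorem ev_shR_ne (μ : ℝ) (h : ∀ j : ℕ, 1 ≤ j → μ ≠ (j * π) ^ 2) : ev (-μ) shR ≠ 0 := by
  rcases lt_or_ge 0 μ with hμ | hμ
  · intro h0
    have hx : 0 < Real.sqrt μ := Real.sqrt_pos.2 hμ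
    have hx2 : Real.sqrt μ ^ 2 = μ := Real.sq_sqrt hμ.le
    have h1 := ev_shR (Real.sqrt μ)
    rw [hx2, h0, MulZeroClass.mul_zero] at h1
    obtain ⟨n, hn⟩ := Real.sin_eq_zero_iff.1 h1.symm
    have hn0 : (0 : ℝ) < n := by
      rw [← hn] at hx
      exact pos_of_mul_pos_of_pos_right' hx
    have hn1 : 0 < n := by exact_mod_cast hn0
    obtain ⟨k, hk⟩ := Int.eq_ofNat_of_zero_le hn1.le
    refine h k (by omega) ?_
    rw [← hx2, ← hn, hk]
    push_cast
    ring
  · have h1 : 0 ≤ -μ := by linarith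
    have hs : Summable fun n => coeff n shR * (-μ) ^ n :=
      ((Ent.shR.W (-μ)).summable le_rfl).of_norm
    have h2 : coeff 0 shR * (-μ) ^ 0 ≤ ev (-μ) shR := by
      refine hs.le_tsum 0 fun n _ => ?_
      rw [shR, coeff_mk]
      positivity
    have h3 : coeff 0 shR * (-μ) ^ 0 = 1 := by
      rw [shR, coeff_mk]
      norm_num
    rw [h3] at h2
    intro h4
    rw [h4] at h2
    linarith

theorem t_ORD : S_ORD := by
  intro ν hν
  refine ⟨?_, ?_, ?_, ?_, ?_⟩
  · rintro f g k l ⟨f', hf', hf1, rfl⟩ ⟨g', hg', hg1, rfl⟩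
    refine ⟨f' * g', hf'.mul hg', ?_, ?_⟩
    · rw [hf'.ev_mul hg']
      exact mul_ne_zero hf1 hg1
    · rw [pow_add]; ring
  · rintro f g k l ⟨f', hf', hf1, hf2⟩ hg hfg
    by_contra hlk
    push Not at hlk
    obtain ⟨d, rfl⟩ := Nat.exists_eq_add_of_lt hlk
    have h1 : f' * Ln ν ^ k = g * Ln ν ^ (d + 1) * Ln ν ^ k := by
      rw [← hf2, hfg, mul_assoc, ← pow_add]
      congr 2
      ring
    have h2 : f' = g * Ln ν ^ (d + 1) := mul_right_cancel₀ (pow_ne_zero _ (Ln_ne hν)) h1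
    apply hf1
    rw [h2, pow_succ, ← mul_assoc, (hg.mul ((Ent.Ln ν).pow d)).ev_mul (Ent.Ln ν), ev_Ln hν,
      MulZeroClass.mul_zero]
  · intro f hf h0
    exact ⟨f, hf, h0, by rw [pow_zero, mul_one]⟩
  · intro s j hj hs
    have hent : Ent (rescale s shR) := Ent.shR.rescale s
    have hsν : s * -ν = -(j * π) ^ 2 := by rw [mul_neg, hs]
    have h0 : ev (-ν) (rescale s shR) = 0 := by
      rw [ev_rescale, hsν]
      exact ev_shR_zero j hj
    have hg := ent_div hν hent h0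
    have hfg : rescale s shR = rescale s shR * geo ν * Ln ν := by
      rw [mul_assoc, geo_mul hν, mul_one]
    refine ⟨rescale s shR * geo ν, hg, ?_, by rw [pow_one]; exact hfg⟩
    intro h1
    have h2 : ev (-ν) (th (rescale s shR)) ≠ 0 := by
      rw [th_rescale, ev_rescale, hsν]
      exact ev_th_ne j hj
    apply h2
    rw [hfg, th_mul, (hg.th.mul (Ent.Ln ν)).ev_add (hg.mul (Ent.Ln ν).th),
      hg.th.ev_mul (Ent.Ln ν), ev_Ln hν, hg.ev_mul (Ent.Ln ν).th, h1]
    ring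
  · intro s hs
    refine ⟨rescale s shR, Ent.shR.rescale s, ?_, by rw [pow_zero, mul_one]⟩
    rw [ev_rescale, mul_neg]
    exact ev_shR_ne (s * ν) hs

end

end Pool.Agent.H765.BZ.ORD
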