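import Mathlib
import Pool.Agent.H765.BZ.Stm2

/-! PAR: parity of the degrees (for helper765, BZ). -/

namespace Pool.Agent.H765.BZ.PAR

open Filter Topology Polynomial
open Pool.Agent.H765.BZ Pool.Agent.H765.CS

/-- An infinite set of integers, all nonnegative, contains arbitrarily large elements. -/
theorem exists_large {S : Set ℤ} (hS : S.Infinite) (h0 : ∀ n ∈ S, 0 ≤ n) (N : ℝ) :
    ∃ n ∈ S, N ≤ (n : ℝ) := by
  by_contra hcon
  push Not at hcon
  apply hS
  apply (Set.finite_Icc (0 : ℤ) ⌈N⌉).subset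
  intro n hn
  refine ⟨h0 n hn, ?_⟩
  have h1 : (n : ℝ) < N := hcon n hn
  have h2 : (n : ℝ) < (⌈N⌉ : ℝ) := lt_of_lt_of_le h1 (Int.le_ceil N)
  have h3 : n < ⌈N⌉ := by exact_mod_cast h2
  exact h3.le

theorem degree_le_pos (Q T : ℝ[X]) (S : Set ℤ) (C : ℝ) (hS : S.Infinite) (h0 : ∀ n ∈ S, 0 ≤ n)
    (h : ∀ n ∈ S, |Q.eval (n : ℝ)| ≤ C * |T.eval (n : ℝ)|) : Q.degree ≤ T.degree := by
  by_contra hcon
  push Not at hcon
  have hQ : Q ≠ 0 := by
    intro hQ0
    rw [hQ0, Polynomial.degree_zero] at hcon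
    exact not_lt_bot hcon
  have hlim : Tendsto (fun x : ℝ => T.eval x / Q.eval x) atTop (𝓝 0) :=
    Polynomial.div_tendsto_zero_of_degree_lt T Q hcon
  have hlim2 : Tendsto (fun x : ℝ => (|C| + 1) * |T.eval x / Q.eval x|) atTop (𝓝 0) := by
    have h1 := (hlim.abs).const_mul (|C| + 1)
    simpa using h1
  have hev1 : ∀ᶠ x : ℝ in atTop, (|C| + 1) * |T.eval x / Q.eval x| < 1 :=
    hlim2.eventually (gt_mem_nhds one_pos)
  have hev2 : ∀ᶠ x : ℝ in atTop, Q.eval x ≠ 0 := by
    have hr : (Q.rootSet ℝ).Finite := Polynomial.rootSet_finite Q ℝ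
    have hfin : {x : ℝ | Q.eval x = 0}.Finite := by
      apply (Q.roots.toFinset.finite_toSet).subset
      intro x hx
      simp only [Finset.mem_coe, Multiset.mem_toFinset]
      exact (Polynomial.mem_roots hQ).2 hx
    obtain ⟨B, hB⟩ := hfin.bddAbove
    filter_upwards [eventually_gt_atTop B] with x hx hx0
    exact absurd (hB hx0) (not_le.2 hx)
  obtain ⟨N, hN⟩ := eventually_atTop.1 (hev1.and hev2)
  obtain ⟨n, hn, hNn⟩ := exists_large hS h0 N
  obtain ⟨ha, hb⟩ := hN (n : ℝ) hNn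
  have hc := h n hn
  have hQpos : 0 < |Q.eval (n : ℝ)| := abs_pos.2 hb
  rw [abs_div] at ha
  have hd : (|C| + 1) * |T.eval (n : ℝ)| < |Q.eval (n : ℝ)| := by
    have h2 : (|C| + 1) * (|T.eval (n : ℝ)| / |Q.eval (n : ℝ)|)
        = ((|C| + 1) * |T.eval (n : ℝ)|) / |Q.eval (n : ℝ)| := by ring
    rw [h2, div_lt_one hQpos] at ha
    exact ha
  have he : C * |T.eval (n : ℝ)| ≤ (|C| + 1) * |T.eval (n : ℝ)| := by
    apply mul_le_mul_of_nonneg_right _ (abs_nonneg _)
    have := le_abs_self C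
    linarith
  linarith

theorem degree_le (Q T : ℝ[X]) (S : Set ℤ) (C : ℝ) (hS : S.Infinite)
    (h : ∀ n ∈ S, |Q.eval (n : ℝ)| ≤ C * |T.eval (n : ℝ)|) : Q.degree ≤ T.degree := by
  by_cases hpos : (S ∩ {n : ℤ | 0 ≤ n}).Infinite
  · exact degree_le_pos Q T _ C hpos (fun n hn => hn.2) (fun n hn => h n hn.1)
  · have hneg : (S ∩ {n : ℤ | n < 0}).Infinite := by
      intro hfin
      apply hS
      have hu : S = (S ∩ {n : ℤ | 0 ≤ n}) ∪ (S ∩ {n : ℤ | n < 0}) := by
        ext n
        constructor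
        · intro hn
          rcases le_or_gt 0 n with h1 | h1
          · exact Or.inl ⟨hn, h1⟩
          · exact Or.inr ⟨hn, h1⟩
        · rintro (h1 | h1)
          · exact h1.1
          · exact h1.1
      rw [hu]
      exact (Set.not_infinite.1 hpos).union hfin
    have hS' : ((fun n : ℤ => -n) '' (S ∩ {n : ℤ | n < 0})).Infinite :=
      hneg.image (neg_injective.injOn)
    have hd (P : ℝ[X]) : (P.comp (-X)).degree = P.degree := by
      by_cases hP : P = 0
      · rw [hP, Polynomial.zero_comp]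
      · have hP' : P.comp (-X) ≠ 0 := by
          intro h0
          apply hP
          have h1 : (P.comp (-X)).comp (-X) = P := by
            rw [Polynomial.comp_assoc]
            simp
          rw [← h1, h0, Polynomial.zero_comp]
        rw [Polynomial.degree_eq_natDegree hP, Polynomial.degree_eq_natDegree hP',
          Polynomial.natDegree_comp, Polynomial.natDegree_neg, Polynomial.natDegree_X, mul_one]
    rw [← hd Q, ← hd T]
    apply degree_le_pos _ _ _ C hS'
    · rintro _ ⟨n, hn, rfl⟩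
      have : n < 0 := hn.2
      show 0 ≤ -n
      omega
    · rintro _ ⟨n, hn, rfl⟩
      have h1 := h n hn.1
      simpa using h1

theorem t_PAR : S_PAR := by
  intro q s S C1 C2 hS h hq
  have h1 : (q ^ 3).degree ≤ (s ^ 2).degree := by
    apply degree_le _ _ S C1 hS
    intro n hn
    obtain ⟨ha, hb, hc⟩ := h n hn
    rw [Polynomial.eval_pow, Polynomial.eval_pow, abs_of_nonneg (pow_nonneg ha 3),
      abs_of_nonneg (sq_nonneg _)]
    exact hb
  have h2 : (s ^ 2).degree ≤ (q ^ 3).degree := by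
    apply degree_le _ _ S C2 hS
    intro n hn
    obtain ⟨ha, hb, hc⟩ := h n hn
    rw [Polynomial.eval_pow, Polynomial.eval_pow, abs_of_nonneg (pow_nonneg ha 3),
      abs_of_nonneg (sq_nonneg _)]
    exact hc
  have h3 : (q ^ 3).natDegree = (s ^ 2).natDegree :=
    Polynomial.natDegree_eq_of_degree_eq (le_antisymm h1 h2)
  rw [Polynomial.natDegree_pow, Polynomial.natDegree_pow, hq] at h3
  omega

end Pool.Agent.H765.BZ.PAR
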