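import Pool.Agent.H765.BZ.Stm

set_option autoImplicit false

/-! POLE: a quotient of entire functions has no logarithmic singularity. -/

namespace Pool.Agent.H765.BZ.POLE

open PowerSeries Finset Nat Real Filter Topology
open Pool.Agent.H765.BZ Pool.Agent.H765.CS

theorem ent_rescale {f : ℝ⟦X⟧} (hf : Ent f) (x : ℝ) : Ent (rescale x f) := by
  intro ρ hρ
  have h := hf (|x| * ρ) (by positivity)
  refine Summable.congr h fun n => ?_
  rw [coeff_rescale, abs_mul, abs_pow, mul_pow]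
  ring

theorem rescale_ne {f : ℝ⟦X⟧} (hf : f ≠ 0) {x : ℝ} (hx : x ≠ 0) : rescale x f ≠ 0 := by
  intro h
  apply hf
  ext n
  have h1 := congrArg (coeff n) h
  rw [coeff_rescale, map_zero] at h1
  rw [map_zero]
  exact (mul_eq_zero.1 h1).resolve_left (pow_ne_zero _ hx)

theorem t_POLE (h1 : S_ZERO) (h2 : S_POLEB) : S_POLE := by
  intro ψ E H x κ C hE0 hE hH hψ hx hb
  by_contra hκ
  obtain ⟨ψ', hψ'⟩ : ∃ ψ' : ℝ⟦X⟧, ψ' = rescale x ψ := ⟨_, rfl⟩
  obtain ⟨E', hE'⟩ : ∃ E' : ℝ⟦X⟧, E' = rescale x E := ⟨_, rfl⟩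
  obtain ⟨H', hH'⟩ : ∃ H' : ℝ⟦X⟧, H' = rescale x H := ⟨_, rfl⟩
  have hmul : ψ' * E' = H' := by
    rw [hψ', hE', hH', ← map_mul, hψ]
  have hb' : ∀ k : ℕ, |coeff k ψ' - κ / ((k : ℝ) + 1)| ≤ C / ((k : ℝ) + 1) ^ 2 := by
    intro k
    rw [hψ', coeff_rescale, mul_comm]
    exact hb k
  have hEe : Ent E' := by
    rw [hE']
    exact ent_rescale hE x
  have hHe : Ent H' := by
    rw [hH']
    exact ent_rescale hH x
  have hE0' : E' ≠ 0 := by
    rw [hE']
    exact rescale_ne hE0 hx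
  obtain ⟨hW, hunb, hsm⟩ := h2 ψ' κ C hb'
  have hev : ∀ z : ℝ, 0 ≤ z → z < 1 → |ev z ψ'| * |ev z E'| = |ev z H'| := by
    intro z hz0 hz1
    rw [← hmul, ev_mul (abs_of_nonneg hz0).le (hW z hz0 hz1) (hEe z hz0), abs_mul]
  by_cases hH0 : H' = 0
  · have h3 : ψ' = 0 := by
      rw [hH0] at hmul
      exact (mul_eq_zero.1 hmul).resolve_right hE0'
    obtain ⟨z, -, -, -, hz⟩ := hunb hκ 0 1 one_pos
    rw [h3, ev_zero, abs_zero] at hz
    exact lt_irrefl _ hz
  obtain ⟨p, c, K, ε, hc, hε, hEb⟩ := h1 E' hE0' hEe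
  obtain ⟨q, c', K', ε', hc', hε', hHb⟩ := h1 H' hH0 hHe
  rcases le_or_gt p q with hpq | hpq
  · obtain ⟨z, hz1, hz0, hz2, hz3⟩ := hunb hκ (K' / c) (min ε ε') (lt_min hε hε')
    have e1 : 1 - ε < z := by
      have := min_le_left ε ε'
      linarith
    have e2 : 1 - ε' < z := by
      have := min_le_right ε ε'
      linarith
    have h3 := (hEb z e1 hz2).1
    have h4 := (hHb z e2 hz2).2
    have h5 := hev z hz0 hz2
    have h6 : 0 < 1 - z := by linarith
    have hp : 0 < (1 - z) ^ p := pow_pos h6 p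
    have hK' : 0 ≤ K' := by
      have : 0 ≤ K' * (1 - z) ^ q := (abs_nonneg _).trans h4
      exact nonneg_of_mul_nonneg_left this (pow_pos h6 q)
    have hqp : (1 - z) ^ q ≤ (1 - z) ^ p := pow_le_pow_of_le_one h6.le (by linarith) hpq
    have h7 : |ev z ψ'| * (c * (1 - z) ^ p) ≤ K' * (1 - z) ^ p := by
      calc |ev z ψ'| * (c * (1 - z) ^ p) ≤ |ev z ψ'| * |ev z E'| :=
            mul_le_mul_of_nonneg_left h3 (abs_nonneg _)
        _ = |ev z H'| := h5
        _ ≤ K' * (1 - z) ^ q := h4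
        _ ≤ K' * (1 - z) ^ p := mul_le_mul_of_nonneg_left hqp hK'
    have h8 : |ev z ψ'| * c ≤ K' := by
      rw [← mul_assoc] at h7
      exact le_of_mul_le_mul_right h7 hp
    rw [div_lt_iff₀ hc] at hz3
    linarith
  · have hKpos : 0 < K := by
      obtain ⟨z, hz⟩ : ∃ z : ℝ, z = 1 - ε / 2 := ⟨_, rfl⟩
      obtain ⟨h3, h4⟩ := hEb z (by linarith) (by linarith)
      have h6 : 0 < 1 - z := by linarith
      have h7 : 0 < K * (1 - z) ^ p := lt_of_lt_of_le (by positivity) (h3.trans h4)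
      exact pos_of_mul_pos_left h7 (pow_pos h6 p).le
    obtain ⟨ε₁, hε₁, h3⟩ := hsm (c' / (2 * K)) (by positivity)
    obtain ⟨m, hm⟩ : ∃ m : ℝ, m = min (min ε ε') (min ε₁ 1) := ⟨_, rfl⟩
    have hm0 : 0 < m := by
      rw [hm]
      exact lt_min (lt_min hε hε') (lt_min hε₁ one_pos)
    have hmε : m ≤ ε := by
      rw [hm]
      exact (min_le_left _ _).trans (min_le_left _ _)
    have hmε' : m ≤ ε' := by
      rw [hm]
      exact (min_le_left _ _).trans (min_le_right _ _)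
    have hmε₁ : m ≤ ε₁ := by
      rw [hm]
      exact (min_le_right _ _).trans (min_le_left _ _)
    have hm1 : m ≤ 1 := by
      rw [hm]
      exact (min_le_right _ _).trans (min_le_right _ _)
    obtain ⟨z, hz⟩ : ∃ z : ℝ, z = 1 - m / 2 := ⟨_, rfl⟩
    have hz0 : 0 ≤ z := by linarith
    have hz1 : z < 1 := by linarith
    have h4 := h3 z (by linarith) hz0 hz1
    have h5 := (hEb z (by linarith) hz1).2
    have h6 := (hHb z (by linarith) hz1).1
    have h7 := hev z hz0 hz1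
    have h8 : 0 < 1 - z := by linarith
    have hq : 0 < (1 - z) ^ q := pow_pos h8 q
    have h9 : (1 - z) ^ p ≤ (1 - z) ^ (q + 1) := pow_le_pow_of_le_one h8.le (by linarith) hpq
    have h10 : c' * (1 - z) ^ q ≤ ((1 - z) * |ev z ψ'| * K) * (1 - z) ^ q := by
      calc c' * (1 - z) ^ q ≤ |ev z H'| := h6
        _ = |ev z ψ'| * |ev z E'| := h7.symm
        _ ≤ |ev z ψ'| * (K * (1 - z) ^ p) := mul_le_mul_of_nonneg_left h5 (abs_nonneg _)
        _ ≤ |ev z ψ'| * (K * (1 - z) ^ (q + 1)) :=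
            mul_le_mul_of_nonneg_left (mul_le_mul_of_nonneg_left h9 hKpos.le) (abs_nonneg _)
        _ = ((1 - z) * |ev z ψ'| * K) * (1 - z) ^ q := by ring
    have h11 : c' ≤ (1 - z) * |ev z ψ'| * K := le_of_mul_le_mul_right h10 hq
    have h12 : (1 - z) * |ev z ψ'| * K ≤ c' / (2 * K) * K :=
      mul_le_mul_of_nonneg_right h4 hKpos.le
    have h13 : c' / (2 * K) * K = c' / 2 := by
      field_simp
    rw [h13] at h12
    linarith

end Pool.Agent.H765.BZ.POLE
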