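import Pool.Agent.H765.BZ.Stm

/-! Logarithmic growth. -/

namespace Pool.Agent.H765.BZ.POLEB

open PowerSeries Finset Filter Topology
open Pool.Agent.H765.BZ Pool.Agent.H765.CS

noncomputable section

/-- the logarithm series -/
def Lg (z : ℝ) : ℝ := ∑' k : ℕ, z ^ k / ((k : ℝ) + 1)

theorem sum_sq : Summable fun k : ℕ => 1 / ((k : ℝ) + 1) ^ 2 := by
  have h := (summable_nat_add_iff 1).2 (Real.summable_one_div_nat_pow.2 (by norm_num : 1 < 2))
  refine h.congr fun k => ?_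
  push_cast
  rfl

theorem one_div_le (k : ℕ) : 1 / ((k : ℝ) + 1) ≤ 1 := by
  have hk : (0 : ℝ) ≤ k := Nat.cast_nonneg k
  rw [div_le_one (by linarith)]
  linarith

theorem sum_Lg {z : ℝ} (h0 : 0 ≤ z) (h1 : z < 1) : Summable fun k : ℕ => z ^ k / ((k : ℝ) + 1) := by
  refine Summable.of_nonneg_of_le (fun k => by positivity) (fun k => ?_)
    (summable_geometric_of_lt_one h0 h1)
  have := mul_le_mul_of_nonneg_left (one_div_le k) (pow_nonneg h0 k)
  rw [mul_one] at this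
  calc z ^ k / ((k : ℝ) + 1) = z ^ k * (1 / ((k : ℝ) + 1)) := by ring
    _ ≤ z ^ k := this

theorem Lg_ge {z : ℝ} (h0 : 0 ≤ z) (h1 : z < 1) (N : ℕ) :
    z ^ N * ∑ i ∈ range N, (1 / ((i : ℝ) + 1)) ≤ Lg z := by
  have h2 := (sum_Lg h0 h1).sum_le_tsum (range N) (fun k _ => by positivity)
  refine le_trans ?_ h2
  rw [mul_sum]
  refine sum_le_sum fun i hi => ?_
  rw [mem_range] at hi
  have h3 : z ^ N ≤ z ^ i := pow_le_pow_of_le_one h0 h1.le hi.le
  calc z ^ N * (1 / ((i : ℝ) + 1)) ≤ z ^ i * (1 / ((i : ℝ) + 1)) :=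
        mul_le_mul_of_nonneg_right h3 (by positivity)
    _ = z ^ i / ((i : ℝ) + 1) := by ring

theorem Lg_nonneg {z : ℝ} (h0 : 0 ≤ z) : 0 ≤ Lg z := tsum_nonneg fun k => by positivity

theorem Lg_le {z : ℝ} (h0 : 0 ≤ z) (h1 : z < 1) (N : ℕ) :
    (1 - z) * Lg z ≤ N * (1 - z) + 1 / ((N : ℝ) + 1) := by
  have hz : 0 < 1 - z := by linarith
  have hN : (0 : ℝ) < (N : ℝ) + 1 := by positivity
  let f : ℕ → ℝ := fun k => if k < N then 1 else 0
  have hf : Summable f := summable_of_ne_finset_zero (s := range N) (fun k hk => by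
    rw [mem_range] at hk
    exact if_neg hk)
  have hf1 : ∑' k, f k = N := by
    rw [tsum_eq_sum (s := range N) (fun k hk => by
      rw [mem_range] at hk
      exact if_neg hk)]
    rw [sum_congr rfl (fun k hk => if_pos (mem_range.1 hk)), sum_const, card_range, nsmul_eq_mul,
      mul_one]
  have hg : Summable fun k : ℕ => z ^ k * (1 / ((N : ℝ) + 1)) :=
    (summable_geometric_of_lt_one h0 h1).mul_right _
  have hg1 : ∑' k : ℕ, z ^ k * (1 / ((N : ℝ) + 1)) = (1 - z)⁻¹ * (1 / ((N : ℝ) + 1)) := by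
    rw [tsum_mul_right, tsum_geometric_of_lt_one h0 h1]
  have h2 : Lg z ≤ ∑' k, (f k + z ^ k * (1 / ((N : ℝ) + 1))) := by
    refine Summable.tsum_le_tsum (fun k => ?_) (sum_Lg h0 h1) (hf.add hg)
    by_cases hk : k < N
    · have h3 : z ^ k / ((k : ℝ) + 1) ≤ 1 := by
        rw [div_le_one (by positivity)]
        have := pow_le_one₀ h0 h1.le (n := k)
        have hk0 : (0 : ℝ) ≤ k := Nat.cast_nonneg k
        linarith
      have h4 : f k = 1 := if_pos hk
      rw [h4]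
      have h5 : 0 ≤ z ^ k * (1 / ((N : ℝ) + 1)) := by positivity
      linarith
    · have h4 : f k = 0 := if_neg hk
      rw [h4, zero_add, div_eq_mul_one_div]
      refine mul_le_mul_of_nonneg_left ?_ (pow_nonneg h0 k)
      refine one_div_le_one_div_of_le hN ?_
      have : (N : ℝ) ≤ k := by exact_mod_cast not_lt.1 hk
      linarith
  rw [hf.tsum_add hg, hf1, hg1] at h2
  calc (1 - z) * Lg z ≤ (1 - z) * (N + (1 - z)⁻¹ * (1 / ((N : ℝ) + 1))) :=
        mul_le_mul_of_nonneg_left h2 hz.le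
    _ = N * (1 - z) + 1 / ((N : ℝ) + 1) := by
        field_simp

theorem harm_unbdd (M : ℝ) : ∃ N : ℕ, M ≤ ∑ i ∈ range N, (1 / ((i : ℝ) + 1)) :=
  (Real.tendsto_sum_range_one_div_nat_succ_atTop.eventually_ge_atTop M).exists

/-- **POLEB** -/
theorem t_POLEB : S_POLEB := by
  intro ψ κ K h
  have hK : 0 ≤ K := by
    have h0 := (abs_nonneg _).trans (h 0)
    simpa using h0
  obtain ⟨S, hS⟩ : ∃ S : ℝ, S = ∑' k : ℕ, 1 / ((k : ℝ) + 1) ^ 2 := ⟨_, rfl⟩
  have hS0 : 0 ≤ S := by rw [hS]; exact tsum_nonneg fun k => by positivity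
  have hbd : ∀ k : ℕ, |coeff k ψ| ≤ |κ| + K := by
    intro k
    have h1 : |coeff k ψ| ≤ |coeff k ψ - κ / ((k : ℝ) + 1)| + |κ / ((k : ℝ) + 1)| := by
      have := abs_add_le (coeff k ψ - κ / ((k : ℝ) + 1)) (κ / ((k : ℝ) + 1))
      rwa [sub_add_cancel] at this
    have h2 : |κ / ((k : ℝ) + 1)| ≤ |κ| := by
      have hk : (0 : ℝ) < (k : ℝ) + 1 := by positivity
      rw [abs_div, abs_of_pos hk]
      have := mul_le_mul_of_nonneg_left (one_div_le k) (abs_nonneg κ)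
      rw [mul_one, mul_one_div] at this
      exact this
    have h3 : K / ((k : ℝ) + 1) ^ 2 ≤ K := by
      have hk : (1 : ℝ) ≤ ((k : ℝ) + 1) ^ 2 := by
        have : (0 : ℝ) ≤ k := Nat.cast_nonneg k
        nlinarith
      exact div_le_self hK hk
    linarith [h k]
  have hW : ∀ z : ℝ, 0 ≤ z → z < 1 → W z ψ := by
    intro z h0 h1
    refine Summable.of_nonneg_of_le (fun k => by positivity) (fun k => ?_)
      ((summable_geometric_of_lt_one h0 h1).mul_left (|κ| + K))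
    exact mul_le_mul_of_nonneg_right (hbd k) (pow_nonneg h0 k)
  have hev : ∀ z : ℝ, 0 ≤ z → z < 1 → |ev z ψ - κ * Lg z| ≤ K * S := by
    intro z h0 h1
    have h2 : Summable fun k : ℕ => coeff k ψ * z ^ k :=
      ((hW z h0 h1).summable (abs_of_nonneg h0).le).of_norm
    have h3 : Summable fun k : ℕ => κ * (z ^ k / ((k : ℝ) + 1)) := (sum_Lg h0 h1).mul_left κ
    have h4 : ev z ψ - κ * Lg z = ∑' k : ℕ, (coeff k ψ - κ / ((k : ℝ) + 1)) * z ^ k := by
      unfold ev Lg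
      rw [← tsum_mul_left, ← h2.tsum_sub h3]
      refine tsum_congr fun k => ?_
      ring
    have h5 : ∀ k : ℕ, ‖(coeff k ψ - κ / ((k : ℝ) + 1)) * z ^ k‖ ≤
        K * (1 / ((k : ℝ) + 1) ^ 2) := by
      intro k
      rw [Real.norm_eq_abs, abs_mul, abs_of_nonneg (pow_nonneg h0 k)]
      calc |coeff k ψ - κ / ((k : ℝ) + 1)| * z ^ k ≤ |coeff k ψ - κ / ((k : ℝ) + 1)| * 1 :=
            mul_le_mul_of_nonneg_left (pow_le_one₀ h0 h1.le) (abs_nonneg _)
        _ ≤ K / ((k : ℝ) + 1) ^ 2 := by rw [mul_one]; exact h k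
        _ = K * (1 / ((k : ℝ) + 1) ^ 2) := by ring
    have h6 := tsum_of_norm_bounded (sum_sq.mul_left K).hasSum h5
    rw [tsum_mul_left, ← hS] at h6
    rw [h4, ← Real.norm_eq_abs]
    exact h6
  refine ⟨hW, ?_, ?_⟩
  · intro hκ M ε hε
    have hκ0 : 0 < |κ| := abs_pos.2 hκ
    obtain ⟨N, hN⟩ := harm_unbdd (2 * (|M| + K * S + 1) / |κ|)
    have h2 : Tendsto (fun z : ℝ => z ^ N) (𝓝[<] 1) (𝓝 1) := by
      have h3 : Tendsto (fun z : ℝ => z ^ N) (𝓝 1) (𝓝 (1 ^ N)) := (continuous_pow N).tendsto 1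
      rw [one_pow] at h3
      exact h3.mono_left nhdsWithin_le_nhds
    have h3 : ∀ᶠ z : ℝ in 𝓝[<] 1, 1 / 2 ≤ z ^ N :=
      (h2.eventually (eventually_gt_nhds (by norm_num : (1 / 2 : ℝ) < 1))).mono fun _ hz => hz.le
    have h4 : ∀ᶠ z : ℝ in 𝓝[<] 1, max (1 - ε) 0 < z :=
      (eventually_gt_nhds (max_lt (by linarith) (by norm_num) : max (1 - ε) 0 < (1 : ℝ))).filter_mono
        nhdsWithin_le_nhds
    have h5 : ∀ᶠ z : ℝ in 𝓝[<] 1, z < 1 := eventually_mem_nhdsWithin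
    obtain ⟨z, hz1, hz2, hz3⟩ := (h3.and (h4.and h5)).exists
    have hz0 : 0 ≤ z := ((le_max_right _ _).trans_lt hz2).le
    refine ⟨z, (le_max_left _ _).trans_lt hz2, hz0, hz3, ?_⟩
    have h6 := hev z hz0 hz3
    have h7 := Lg_ge hz0 hz3 N
    have h8 : 0 ≤ |M| + K * S + 1 := by positivity
    have h9 : (|M| + K * S + 1) / |κ| ≤ Lg z := by
      refine le_trans ?_ h7
      have h10 : 0 ≤ 2 * (|M| + K * S + 1) / |κ| := by positivity
      calc (|M| + K * S + 1) / |κ| = 1 / 2 * (2 * (|M| + K * S + 1) / |κ|) := by ring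
        _ ≤ z ^ N * (2 * (|M| + K * S + 1) / |κ|) := mul_le_mul_of_nonneg_right hz1 h10
        _ ≤ z ^ N * ∑ i ∈ range N, (1 / ((i : ℝ) + 1)) :=
            mul_le_mul_of_nonneg_left hN (pow_nonneg hz0 N)
    have h11 : |M| + K * S + 1 ≤ |κ * Lg z| := by
      rw [abs_mul, abs_of_nonneg (Lg_nonneg hz0)]
      rw [div_le_iff₀ hκ0] at h9
      linarith
    have h12 : |κ * Lg z| ≤ |ev z ψ| + |ev z ψ - κ * Lg z| := by
      have := abs_sub_abs_le_abs_sub (κ * Lg z) (ev z ψ)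
      rw [abs_sub_comm (κ * Lg z)] at this
      linarith
    have h13 := le_abs_self M
    linarith
  · intro δ hδ
    obtain ⟨N, hN⟩ := exists_nat_gt (2 * |κ| / δ)
    have hN1 : |κ| * (1 / ((N : ℝ) + 1)) ≤ δ / 2 := by
      rw [div_lt_iff₀ hδ] at hN
      rw [mul_one_div, div_le_iff₀ (by positivity)]
      nlinarith
    obtain ⟨B, hB⟩ : ∃ B : ℝ, B = |κ| * N + K * S := ⟨_, rfl⟩
    have hB0 : 0 ≤ B := by rw [hB]; positivity
    refine ⟨δ / (2 * (B + 1)), by positivity, fun z hz hz0 hz1 => ?_⟩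
    have h6 := hev z hz0 hz1
    have h7 := Lg_le hz0 hz1 N
    have hz2 : 0 < 1 - z := by linarith
    have h8 : |ev z ψ| ≤ |κ| * Lg z + K * S := by
      have h9 : |ev z ψ| ≤ |κ * Lg z| + |ev z ψ - κ * Lg z| := by
        have := abs_add_le (κ * Lg z) (ev z ψ - κ * Lg z)
        rwa [add_sub_cancel] at this
      rw [abs_mul, abs_of_nonneg (Lg_nonneg hz0)] at h9
      linarith
    have h9 : (1 - z) * (B + 1) ≤ δ / 2 := by
      have h10 : 1 - z ≤ δ / (2 * (B + 1)) := by linarith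
      have h11 : 0 < B + 1 := by linarith
      calc (1 - z) * (B + 1) ≤ δ / (2 * (B + 1)) * (B + 1) :=
            mul_le_mul_of_nonneg_right h10 h11.le
        _ = δ / 2 := by field_simp
    calc (1 - z) * |ev z ψ| ≤ (1 - z) * (|κ| * Lg z + K * S) :=
          mul_le_mul_of_nonneg_left h8 hz2.le
      _ = |κ| * ((1 - z) * Lg z) + (1 - z) * (K * S) := by ring
      _ ≤ |κ| * (N * (1 - z) + 1 / ((N : ℝ) + 1)) + (1 - z) * (K * S) :=
          add_le_add (mul_le_mul_of_nonneg_left h7 (abs_nonneg κ)) le_rfl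
      _ = (1 - z) * B + |κ| * (1 / ((N : ℝ) + 1)) := by rw [hB]; ring
      _ ≤ δ := by nlinarith

end

end Pool.Agent.H765.BZ.POLEB
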