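import Pool.Agent.H765.BZ.Stm

/-! POLY (project BZ of helper765): the coefficients of the Ohtsuki series of the `1/n`-surgeries are
polynomials in `n`.  helper441. -/

set_option autoImplicit false

namespace Pool.Agent.H765.BZ.POLY

open PowerSeries Finset Nat
open Pool.Agent.H765.BZ Pool.Agent.H765.CS
open Pool.Agent.H765

noncomputable section

/-- the series `F_b` -/
def Fb (d : ℕ → ℕ → ℚ) (b : ℕ) : ℚ⟦X⟧ := PowerSeries.mk fun l => d l b

/-- the series `K n` -/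
def Kn (d : ℕ → ℕ → ℚ) (n : ℤ) : ℚ⟦X⟧ :=
  PowerSeries.mk fun m => ∑ b ∈ range (m + 1), coeff (m - b) (kap n (Fb d b))

lemma coeff_gauss (n : ℤ) (d : ℕ → ℕ → ℚ) (m : ℕ) :
    coeff m (MM.gauss n d) = ∑ b ∈ range (m + 1), coeff (m - b) (gb n (Fb d b)) := by
  unfold MM.gauss
  rw [coeff_mk, ← Finset.sum_range_reflect]
  refine Finset.sum_congr rfl fun b hb => ?_
  have hb' : b ≤ m := Nat.lt_succ_iff.1 (Finset.mem_range.1 hb)
  have h1 : m + 1 - 1 - b = m - b := by omega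
  have h2 : m - (m - b) = b := by omega
  rw [h1, h2]
  unfold gb
  rw [coeff_mk]
  congr 1
  refine Finset.sum_congr rfl fun s _ => ?_
  unfold Fb
  rw [coeff_mk]

lemma coeff_sum_X_pow (f : ℕ → ℚ⟦X⟧) (m j : ℕ) (hj : j ≤ m) :
    coeff j (∑ b ∈ range (m + 1), (X : ℚ⟦X⟧) ^ b * f b) =
      ∑ b ∈ range (j + 1), coeff (j - b) (f b) := by
  rw [map_sum]
  have h1 : ∑ b ∈ range (j + 1), coeff (j - b) (f b) =
      ∑ b ∈ range (j + 1), coeff j ((X : ℚ⟦X⟧) ^ b * f b) := by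
    refine Finset.sum_congr rfl fun b hb => ?_
    have hb' : b ≤ j := Nat.lt_succ_iff.1 (Finset.mem_range.1 hb)
    rw [coeff_X_pow_mul', if_pos hb']
  rw [h1]
  symm
  refine Finset.sum_subset (Finset.range_mono (by omega)) fun b _ hb => ?_
  have hb' : ¬ b ≤ j := fun h => hb (Finset.mem_range.2 (Nat.lt_succ_iff.2 h))
  rw [coeff_X_pow_mul', if_neg hb']

lemma gauss_eq (h1 : S_POLY1) (n : ℤ) (hn : n ≠ 0) (d : ℕ → ℕ → ℚ) :
    MM.gauss n d = GK.hexp (-1 / (2 * (n : ℚ))) * Kn d n := by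
  ext m
  have h2 : coeff m (MM.gauss n d) =
      coeff m (∑ b ∈ range (m + 1), (X : ℚ⟦X⟧) ^ b * gb n (Fb d b)) := by
    rw [coeff_gauss, coeff_sum_X_pow _ m m le_rfl]
  have h3 : ∑ b ∈ range (m + 1), (X : ℚ⟦X⟧) ^ b * gb n (Fb d b) =
      GK.hexp (-1 / (2 * (n : ℚ))) * ∑ b ∈ range (m + 1), (X : ℚ⟦X⟧) ^ b * kap n (Fb d b) := by
    rw [Finset.mul_sum]
    refine Finset.sum_congr rfl fun b _ => ?_
    rw [h1 n _ hn]
    ring
  rw [h2, h3, coeff_mul, coeff_mul]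
  refine Finset.sum_congr rfl fun ij hij => ?_
  have h4 : ij.2 ≤ m := by
    have := Finset.HasAntidiagonal.mem_antidiagonal.1 hij
    omega
  rw [coeff_sum_X_pow _ m ij.2 h4]
  unfold Kn
  rw [coeff_mk]

/-- functions of `n` given by a polynomial -/
def IsPol (f : ℤ → ℚ) : Prop := ∃ V : Polynomial ℚ, ∀ n : ℤ, V.eval (n : ℚ) = f n

lemma IsPol.const (c : ℚ) : IsPol fun _ => c := ⟨Polynomial.C c, fun _ => Polynomial.eval_C⟩

lemma IsPol.id : IsPol fun n => (n : ℚ) := ⟨Polynomial.X, fun _ => Polynomial.eval_X⟩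

lemma IsPol.mul {f g : ℤ → ℚ} (hf : IsPol f) (hg : IsPol g) : IsPol fun n => f n * g n := by
  obtain ⟨V, hV⟩ := hf
  obtain ⟨W, hW⟩ := hg
  exact ⟨V * W, fun n => by rw [Polynomial.eval_mul, hV, hW]⟩

lemma IsPol.pow {f : ℤ → ℚ} (hf : IsPol f) (k : ℕ) : IsPol fun n => f n ^ k := by
  obtain ⟨V, hV⟩ := hf
  exact ⟨V ^ k, fun n => by rw [Polynomial.eval_pow, hV]⟩

lemma IsPol.sum {ι : Type} (s : Finset ι) (f : ι → ℤ → ℚ) (h : ∀ i ∈ s, IsPol (f i)) :
    IsPol fun n => ∑ i ∈ s, f i n := by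
  classical
  induction s using Finset.induction_on with
  | empty => exact ⟨0, fun n => by simp⟩
  | insert a s ha ih =>
    obtain ⟨V, hV⟩ := h a (Finset.mem_insert_self a s)
    obtain ⟨W, hW⟩ := ih fun i hi => h i (Finset.mem_insert_of_mem hi)
    exact ⟨V + W, fun n => by
      simp only [Polynomial.eval_add, hV, hW, Finset.sum_insert ha]⟩

lemma isPol_kap (g : ℚ⟦X⟧) (j : ℕ) : IsPol fun n => coeff j (kap n g) := by
  have h : (fun n : ℤ => coeff j (kap n g)) = fun n : ℤ => ∑ i ∈ range (j + 1),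
      coeff (j + i) g * (((j + i).factorial : ℚ) /
        (((j - i).factorial : ℚ) * 2 ^ i * (i.factorial : ℚ))) *
      (-1 * (n : ℚ)) ^ i * ((-1) ^ (j - i) - 1) := by
    funext n
    unfold kap
    rw [coeff_mk]
    refine Finset.sum_congr rfl fun i _ => ?_
    rw [neg_one_mul]
  rw [h]
  refine IsPol.sum _ _ fun i _ => ?_
  exact ((IsPol.const _).mul (((IsPol.const (-1)).mul IsPol.id).pow i)).mul (IsPol.const _)

lemma isPol_Kn (d : ℕ → ℕ → ℚ) (m : ℕ) : IsPol fun n => coeff m (Kn d n) := by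
  have h : (fun n : ℤ => coeff m (Kn d n)) = fun n : ℤ => ∑ b ∈ range (m + 1),
      coeff (m - b) (kap n (Fb d b)) := by
    funext n
    unfold Kn
    rw [coeff_mk]
  rw [h]
  exact IsPol.sum _ _ fun b _ => isPol_kap _ _

lemma isPol_hexp (i : ℕ) : IsPol fun n => coeff i (GK.hexp ((n : ℚ) / 2)) := by
  have h : (fun n : ℤ => coeff i (GK.hexp ((n : ℚ) / 2))) = fun n : ℤ =>
      ((n : ℚ) * (1 / 2)) ^ i * coeff i (PowerSeries.exp ℚ) := by
    funext n
    unfold GK.hexp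
    rw [coeff_rescale]
    ring
  rw [h]
  exact ((IsPol.id.mul (IsPol.const _)).pow i).mul (IsPol.const _)

lemma hexp_mul (a b : ℚ) : GK.hexp a * GK.hexp b = GK.hexp (a + b) :=
  PowerSeries.exp_mul_exp_eq_exp_add a b

lemma hexp_zero : GK.hexp 0 = 1 := by
  unfold GK.hexp
  simp

/-- the series whose shift is `dd * ohtsuki` -/
def Tn (d : ℕ → ℕ → ℚ) (n : ℤ) : ℚ⟦X⟧ := C (-1 / 2 : ℚ) * GK.hexp ((n : ℚ) / 2) * Kn d n

lemma isPol_Tn (d : ℕ → ℕ → ℚ) (m : ℕ) : IsPol fun n => coeff m (Tn d n) := by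
  have h : (fun n : ℤ => coeff m (Tn d n)) = fun n : ℤ => (-1 / 2 : ℚ) *
      ∑ ij ∈ Finset.HasAntidiagonal.antidiagonal m, coeff ij.1 (GK.hexp ((n : ℚ) / 2)) * coeff ij.2 (Kn d n) := by
    funext n
    unfold Tn
    rw [mul_assoc, coeff_C_mul, coeff_mul]
  rw [h]
  exact (IsPol.const _).mul (IsPol.sum _ _ fun ij _ => (isPol_hexp _).mul (isPol_Kn _ _))

lemma kap_zero (g : ℚ⟦X⟧) (j : ℕ) : coeff j (kap 0 g) = coeff j g * ((-1) ^ j - 1) := by
  unfold kap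
  rw [coeff_mk, Finset.sum_eq_single 0]
  · have h : ((j.factorial : ℕ) : ℚ) ≠ 0 := by exact_mod_cast Nat.factorial_ne_zero j
    simp [h]
  · intro i _ hi
    simp [hi]
  · intro h
    exact absurd (Finset.mem_range.2 (Nat.succ_pos j)) h

lemma Tn_zero (d : ℕ → ℕ → ℚ) (hd : ∀ l b, Even l → d l b = 0) (m : ℕ) :
    coeff m (Tn d 0) = ∑ l ∈ range (m + 1), d l (m - l) := by
  unfold Tn
  rw [Int.cast_zero, zero_div, hexp_zero, mul_one, coeff_C_mul]
  unfold Kn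
  rw [coeff_mk, Finset.mul_sum, ← Finset.sum_range_reflect (fun l => d l (m - l))]
  refine Finset.sum_congr rfl fun b hb => ?_
  have hb' : b ≤ m := Nat.lt_succ_iff.1 (Finset.mem_range.1 hb)
  have h1 : m + 1 - 1 - b = m - b := by omega
  have h2 : m - (m - b) = b := by omega
  rw [h1, h2, kap_zero]
  unfold Fb
  rw [coeff_mk]
  rcases Nat.even_or_odd (m - b) with he | ho
  · rw [hd _ _ he]
    ring
  · rw [ho.neg_one_pow]
    ring

lemma coeff_shift (f : ℚ⟦X⟧) (m : ℕ) : coeff m (MM.shift f) = coeff (m + 1) f := by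
  unfold MM.shift
  rw [coeff_mk]

lemma shift_ne : constantCoeff (MM.shift (GK.hexp 1 - GK.hexp (-1))) ≠ 0 := by
  rw [← coeff_zero_eq_constantCoeff_apply, coeff_shift, map_sub]
  unfold GK.hexp
  rw [coeff_rescale, coeff_rescale, PowerSeries.coeff_exp]
  norm_num

theorem t_POLY (h1 : S_POLY1) : S_POLY := by
  intro J hJ hs k
  set d : ℕ → ℕ → ℚ := MM.mmCoeff J with hd
  obtain ⟨V, hV⟩ := (IsPol.const (1 / 2)).mul (isPol_Tn d (k + 1))
  refine ⟨V, ?_, fun n hn => ?_⟩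
  · have h2 := hV 0
    rw [Int.cast_zero] at h2
    rw [h2]
    change 1 / 2 * coeff (k + 1) (Tn d 0) = _
    rw [Tn_zero d hJ, hs, coeff_C_mul, coeff_shift]
  · rw [hV n]
    have h3 : MM.ohtsuki n J = MM.shift (Tn d n) * (MM.shift (GK.hexp 1 - GK.hexp (-1)))⁻¹ := by
      unfold MM.ohtsuki
      rw [if_neg hn, gauss_eq h1 n hn]
      congr 2
      unfold Tn
      have hn' : (n : ℚ) ≠ 0 := Int.cast_ne_zero.2 hn
      have h4 : ((n : ℚ) + 1 / n) / 2 + -1 / (2 * (n : ℚ)) = (n : ℚ) / 2 := by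
        field_simp
        ring
      rw [← h4, ← hexp_mul]
      ring
    rw [h3]
    have h5 : C (1 / 2 : ℚ) * MM.shift (GK.hexp 1 - GK.hexp (-1)) *
        (MM.shift (Tn d n) * (MM.shift (GK.hexp 1 - GK.hexp (-1)))⁻¹) =
        C (1 / 2 : ℚ) * MM.shift (Tn d n) := by
      have h6 := PowerSeries.mul_inv_cancel _ shift_ne
      calc C (1 / 2 : ℚ) * MM.shift (GK.hexp 1 - GK.hexp (-1)) *
          (MM.shift (Tn d n) * (MM.shift (GK.hexp 1 - GK.hexp (-1)))⁻¹)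
          = C (1 / 2 : ℚ) * MM.shift (Tn d n) * (MM.shift (GK.hexp 1 - GK.hexp (-1)) *
            (MM.shift (GK.hexp 1 - GK.hexp (-1)))⁻¹) := by ring
        _ = _ := by rw [h6, mul_one]
    rw [h5, coeff_C_mul, coeff_shift]

end

end Pool.Agent.H765.BZ.POLY
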