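import Pool.Agent.H765.BZ.Stm

/-! Gaussian integrals of power series are checked on the exponentials. -/

namespace Pool.Agent.H765.BZ.POLY1

open Pool.Agent.H765.BZ Pool.Agent.H765.CS
open PowerSeries Nat
open Pool.Agent.H765.GK

noncomputable section

/-- linear maps of which every coefficient depends on finitely many coefficients -/
structure Um (T : ℚ⟦X⟧ → ℚ⟦X⟧) : Prop where
  add : ∀ f g, T (f + g) = T f + T g
  smul : ∀ (a : ℚ) f, T (C a * f) = C a * T f
  fin : ∀ m, ∃ K, ∀ g : ℚ⟦X⟧, (∀ k ≤ K, coeff k g = 0) → coeff m (T g) = 0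

theorem coeff_hexp (b : ℚ) (k : ℕ) : coeff k (hexp b) = b ^ k * (1 / (k ! : ℚ)) := by
  rw [hexp, coeff_rescale, PowerSeries.coeff_exp]
  simp

theorem hexp_add (a b : ℚ) : hexp (a + b) = hexp a * hexp b := by
  rw [hexp, hexp, hexp, PowerSeries.exp_mul_exp_eq_exp_add]

theorem Um.sum {T : ℚ⟦X⟧ → ℚ⟦X⟧} (hT : Um T) {ι : Type*} (s : Finset ι) (a : ι → ℚ)
    (f : ι → ℚ⟦X⟧) : T (∑ i ∈ s, C (a i) * f i) = ∑ i ∈ s, C (a i) * T (f i) := by
  classical
  have h0 : T 0 = 0 := by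
    have := hT.smul 0 0
    simpa using this
  induction s using Finset.induction_on with
  | empty => simpa using h0
  | insert a s ha ih => rw [Finset.sum_insert ha, Finset.sum_insert ha, hT.add, hT.smul, ih]

theorem Um.sub {T T' : ℚ⟦X⟧ → ℚ⟦X⟧} (h : Um T) (h' : Um T') : Um (fun g => T g - T' g) := by
  refine ⟨fun f g => ?_, fun a f => ?_, fun m => ?_⟩
  · rw [h.add, h'.add]; ring
  · rw [h.smul, h'.smul]; ring
  · obtain ⟨K, hK⟩ := h.fin m
    obtain ⟨K', hK'⟩ := h'.fin m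
    refine ⟨max K K', fun g hg => ?_⟩
    rw [map_sub, hK g fun k hk => hg k (hk.trans (le_max_left _ _)),
      hK' g fun k hk => hg k (hk.trans (le_max_right _ _)), sub_zero]

theorem Um.sub_apply {T : ℚ⟦X⟧ → ℚ⟦X⟧} (h : Um T) (f g : ℚ⟦X⟧) : T (f - g) = T f - T g := by
  have h1 := h.smul (-1) g
  have h2 : (C (-1 : ℚ) : ℚ⟦X⟧) = -1 := by rw [map_neg, map_one]
  rw [h2] at h1
  rw [show f - g = f + -1 * g by ring, h.add, h1]
  ring

theorem Um.zero {T : ℚ⟦X⟧ → ℚ⟦X⟧} (hT : Um T) (h : ∀ c : ℕ, T (hexp c) = 0) (g : ℚ⟦X⟧) :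
    T g = 0 := by
  ext m
  obtain ⟨K, hK⟩ := hT.fin m
  have key : ∀ g : ℚ⟦X⟧, coeff m (T g) =
      ∑ k ∈ Finset.range (K + 1), coeff k g * coeff m (T (X ^ k)) := by
    intro g
    have h1 : g = (∑ k ∈ Finset.range (K + 1), C (coeff k g) * X ^ k) +
        (g - ∑ k ∈ Finset.range (K + 1), C (coeff k g) * X ^ k) := by ring
    have h2 : coeff m (T (g - ∑ k ∈ Finset.range (K + 1), C (coeff k g) * X ^ k)) = 0 := by
      apply hK
      intro k hk
      rw [map_sub, map_sum, Finset.sum_eq_single k]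
      · rw [coeff_C_mul, coeff_X_pow, if_pos rfl, mul_one, sub_self]
      · intro j _ hj
        rw [coeff_C_mul, coeff_X_pow, if_neg hj.symm, mul_zero]
      · intro h3
        exact absurd (Finset.mem_range.mpr (by omega)) h3
    conv_lhs => rw [h1]
    rw [hT.add, map_add, h2, add_zero, hT.sum, map_sum]
    apply Finset.sum_congr rfl
    intro k _
    rw [coeff_C_mul]
  set P : Polynomial ℚ := ∑ k ∈ Finset.range (K + 1),
    Polynomial.C (coeff m (T (X ^ k)) * (1 / (k ! : ℚ))) * Polynomial.X ^ k with hP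
  have hP0 : P = 0 := by
    apply Polynomial.eq_zero_of_infinite_isRoot
    apply Set.infinite_of_injective_forall_mem (f := fun c : ℕ => (c : ℚ)) Nat.cast_injective
    intro c
    rw [Set.mem_ofPred_eq, Polynomial.IsRoot, hP, Polynomial.eval_finsetSum]
    have h1 := key (hexp c)
    rw [h c, map_zero] at h1
    rw [eq_comm, h1]
    apply Finset.sum_congr rfl
    intro k _
    rw [Polynomial.eval_mul, Polynomial.eval_C, Polynomial.eval_pow, Polynomial.eval_X,
      coeff_hexp]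
    ring
  rw [key, map_zero]
  apply Finset.sum_eq_zero
  intro k hk
  have h1 := congrArg (Polynomial.coeff · k) hP0
  simp only [hP, Polynomial.finsetSum_coeff, Polynomial.coeff_C_mul, Polynomial.coeff_X_pow,
    mul_ite, mul_one, mul_zero, Polynomial.coeff_zero] at h1
  rw [Finset.sum_ite_eq, if_pos hk] at h1
  have h2 : (1 / (k ! : ℚ)) ≠ 0 := by positivity
  rw [(mul_eq_zero.mp h1).resolve_right h2, mul_zero]

/-- identities can be checked on the exponentials -/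
theorem Um.eq {T T' : ℚ⟦X⟧ → ℚ⟦X⟧} (h : Um T) (h' : Um T')
    (he : ∀ c : ℕ, T (hexp c) = T' (hexp c)) (g : ℚ⟦X⟧) : T g = T' g := by
  have h1 := (h.sub h').zero (fun c => by rw [he c, sub_self]) g
  exact sub_eq_zero.mp h1

theorem Um.mul_left {T : ℚ⟦X⟧ → ℚ⟦X⟧} (h : Um T) (a : ℚ⟦X⟧) : Um (fun g => a * T g) := by
  refine ⟨fun f g => ?_, fun b f => ?_, fun m => ?_⟩
  · rw [h.add, mul_add]
  · rw [h.smul]; ring
  · choose K hK using h.fin
    refine ⟨(Finset.range (m + 1)).sup K, fun g hg => ?_⟩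
    rw [coeff_mul]
    apply Finset.sum_eq_zero
    rintro ⟨i, j⟩ hij
    rw [Finset.HasAntidiagonal.mem_antidiagonal] at hij
    simp only at hij ⊢
    rw [hK j g, mul_zero]
    intro k hk
    apply hg
    exact hk.trans (Finset.le_sup (f := K) (Finset.mem_range.mpr (by omega)))

/-- the Gaussian integral -/
def Ev (v : ℚ) (g : ℚ⟦X⟧) : ℚ⟦X⟧ :=
  PowerSeries.mk fun i => ((2 * i - 1)‼ : ℚ) * v ^ i * coeff (2 * i) g

theorem Ev_sub (v : ℚ) (f g : ℚ⟦X⟧) : Ev v (f - g) = Ev v f - Ev v g := by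
  ext i
  rw [map_sub, Ev, Ev, Ev, coeff_mk, coeff_mk, coeff_mk, map_sub]
  ring

theorem two_mul_factorial (i : ℕ) : ((2 * i)! : ℚ) = ((2 * i - 1)‼ : ℚ) * 2 ^ i * (i ! : ℚ) := by
  rcases i with _ | i
  · simp
  · have h1 := Nat.factorial_eq_mul_doubleFactorial (2 * i + 1)
    rw [show 2 * i + 1 + 1 = 2 * (i + 1) by ring, Nat.doubleFactorial_two_mul] at h1
    rw [h1, show 2 * (i + 1) - 1 = 2 * i + 1 by omega]
    push_cast
    ring

theorem Ev_hexp (v b : ℚ) : Ev v (hexp b) = hexp (b ^ 2 * v / 2) := by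
  ext i
  rw [Ev, coeff_mk, coeff_hexp, coeff_hexp, two_mul_factorial]
  have h1 : ((2 * i - 1)‼ : ℚ) ≠ 0 := by
    exact_mod_cast (Nat.doubleFactorial_pos _).ne'
  have h2 : (i ! : ℚ) ≠ 0 := by positivity
  rw [div_pow, mul_pow, ← pow_mul]
  field_simp

theorem Um_gb (n : ℤ) : Um (gb n) := by
  refine ⟨fun f g => ?_, fun a f => ?_, fun m => ⟨2 * m, fun g hg => ?_⟩⟩
  · ext k
    rw [map_add, gb, gb, gb, coeff_mk, coeff_mk, coeff_mk, ← mul_add, ← Finset.sum_add_distrib]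
    congr 1
    apply Finset.sum_congr rfl
    intro s _
    rw [map_add, mul_add]
  · ext k
    rw [coeff_C_mul, gb, gb, coeff_mk, coeff_mk, Finset.mul_sum, Finset.mul_sum, Finset.mul_sum]
    apply Finset.sum_congr rfl
    intro s _
    rw [coeff_C_mul]
    ring
  · rw [gb, coeff_mk, Finset.sum_eq_zero, mul_zero]
    intro s _
    rw [hg _ (by omega), mul_zero]

theorem Um_kap (n : ℤ) : Um (kap n) := by
  refine ⟨fun f g => ?_, fun a f => ?_, fun m => ⟨2 * m, fun g hg => ?_⟩⟩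
  · ext k
    rw [map_add, kap, kap, kap, coeff_mk, coeff_mk, coeff_mk, ← Finset.sum_add_distrib]
    apply Finset.sum_congr rfl
    intro s _
    rw [map_add]
    ring
  · ext k
    rw [coeff_C_mul, kap, kap, coeff_mk, coeff_mk, Finset.mul_sum]
    apply Finset.sum_congr rfl
    intro s _
    rw [coeff_C_mul]
    ring
  · rw [kap, coeff_mk]
    apply Finset.sum_eq_zero
    intro s hs
    rw [Finset.mem_range] at hs
    rw [hg _ (by omega), zero_mul, zero_mul, zero_mul]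

theorem gb_hexp (n : ℤ) (hn : n ≠ 0) (c : ℚ) : gb n (hexp c) =
    Ev (-(n : ℚ)) (hexp (c + 1 / n) - hexp (c - 1 / n)) := by
  have hn0 : (n : ℚ) ≠ 0 := by exact_mod_cast hn
  ext k
  rw [gb, coeff_mk, Ev, coeff_mk]
  congr 1
  have h3 : hexp (c + 1 / n) - hexp (c - 1 / n) =
      (hexp (1 / n) - hexp (-(1 / n))) * hexp c := by
    rw [sub_mul, ← hexp_add, ← hexp_add]
    congr 2
    · ring
    · ring
  rw [h3, coeff_mul, Finset.Nat.sum_antidiagonal_eq_sum_range_succ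
    (fun i j => coeff i (hexp (1 / (n : ℚ)) - hexp (-(1 / (n : ℚ)))) * coeff j (hexp c))]
  apply Finset.sum_congr rfl
  intro s _
  rw [map_sub, coeff_hexp (1 / (n : ℚ)), coeff_hexp (-(1 / (n : ℚ))), neg_pow (1 / (n : ℚ)),
    one_div_pow]
  have h4 : (s ! : ℚ) ≠ 0 := by positivity
  field_simp

theorem kap_hexp (n : ℤ) (c : ℚ) : kap n (hexp c) =
    hexp (-(n : ℚ) * c ^ 2 / 2) * (hexp (-c) - hexp c) := by
  ext j
  rw [kap, coeff_mk, coeff_mul, Finset.Nat.sum_antidiagonal_eq_sum_range_succ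
    (fun i j => coeff i (hexp (-(n : ℚ) * c ^ 2 / 2)) * coeff j (hexp (-c) - hexp c))]
  apply Finset.sum_congr rfl
  intro i hi
  rw [Finset.mem_range] at hi
  obtain ⟨d, rfl⟩ : ∃ d, j = i + d := ⟨j - i, by omega⟩
  rw [Nat.add_sub_cancel_left, map_sub, coeff_hexp, coeff_hexp, coeff_hexp, coeff_hexp,
    neg_pow c, div_pow, mul_pow, ← pow_mul,
    show i + d + i = 2 * i + d by ring, pow_add c]
  have h1 : ((2 * i + d)! : ℚ) ≠ 0 := by positivity
  have h2 : (i ! : ℚ) ≠ 0 := by positivity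
  have h3 : (d ! : ℚ) ≠ 0 := by positivity
  field_simp

theorem t_POLY1 : S_POLY1 := by
  intro n g hn
  have hn0 : (n : ℚ) ≠ 0 := by exact_mod_cast hn
  refine Um.eq (Um_gb n) ((Um_kap n).mul_left (hexp (-1 / (2 * (n : ℚ))))) (fun c => ?_) g
  rw [gb_hexp n hn, kap_hexp, Ev_sub, Ev_hexp, Ev_hexp, mul_sub, mul_sub, ← hexp_add, ← hexp_add,
    ← hexp_add, ← hexp_add]
  congr 2
  · field_simp
    ring
  · field_simp
    ring

end

end Pool.Agent.H765.BZ.POLY1
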