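import Pool.Agent.H765.BZ.Stm

/-! Closure properties of the quotients of entire functions. -/

namespace Pool.Agent.H765.BZ.QEC

open PowerSeries Finset Nat Real Filter Topology
open Pool.Agent.H765.BZ Pool.Agent.H765.CS

theorem t_QEC : S_QEC := by
  refine ⟨?_, ?_, ?_, ?_⟩
  · rintro u v ⟨E, hE, hE1, hE2⟩ ⟨F, hF, hF1, hF2⟩
    refine ⟨E * F, mul_ne_zero hE hF, hE1.mul hF1, ?_⟩
    have h : (u + v) * (E * F) = (u * E) * F + (v * F) * E := by ring
    rw [h]
    exact (hE2.mul hF1).add (hF2.mul hE1)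
  · rintro c u ⟨E, hE, hE1, hE2⟩
    refine ⟨E, hE, hE1, ?_⟩
    have h : C c * u * E = C c * (u * E) := by ring
    rw [h]
    exact hE2.C_mul c
  · rintro u ⟨E, hE, hE1, hE2⟩
    refine ⟨E * E, mul_ne_zero hE hE, hE1.mul hE1, ?_⟩
    have h : th u * (E * E) = th (u * E) * E - (u * E) * th E := by
      rw [th_mul]; ring
    rw [h]
    exact (hE2.th.mul hE1).sub (hE2.mul hE1.th)
  · intro j ν hν
    have hL : Ln ν ≠ 0 := by
      intro h0
      have h1 := geo_mul hν
      rw [h0, mul_zero] at h1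
      exact zero_ne_one h1
    refine ⟨Ln ν ^ (j + 1), pow_ne_zero _ hL, (Ent.Ln ν).pow _, ?_⟩
    exact (Nm_ent hν j).1

end Pool.Agent.H765.BZ.QEC
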