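import Pool.Agent.H765.BZ.Stm2

set_option autoImplicit false

namespace Pool.Agent.H765.BZ.RATIO

open Pool.Agent.H765.BZ Pool.Agent.H765.CS
open PowerSeries

/-- the inequalities -/
theorem ineq (s x e1 e2 e3 : ℝ) (hs : 1 ≤ s) (h1 : s / 4 ≤ e1) (h1' : e1 ≤ s) (h2 : 0 ≤ e2)
    (h2' : e2 ≤ s) (h3 : 0 ≤ e3) (h3' : e3 ≤ s) :
    x ^ 2 / 192 ≤ x ^ 2 * (e1 ^ 2 + e2) / 12 ∧
    (x ^ 2 * (e1 ^ 2 + e2) / 12) ^ 3 ≤ 55296 * (-(x ^ 3 * (2 * e3 + 3 * e1 * e2 + e1 ^ 3)) / 54) ^ 2 ∧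
    (-(x ^ 3 * (2 * e3 + 3 * e1 * e2 + e1 ^ 3)) / 54) ^ 2 ≤
      87382 * (x ^ 2 * (e1 ^ 2 + e2) / 12) ^ 3 := by
  have hs0 : 0 ≤ s := by linarith
  have he1 : 0 ≤ e1 := by linarith
  have hss : s ≤ s ^ 2 := by nlinarith
  have hsss : s ^ 2 ≤ s ^ 3 := by nlinarith [mul_nonneg hs0 hs0]
  have ha : s ^ 2 / 16 ≤ e1 ^ 2 + e2 := by
    have : (s / 4) ^ 2 ≤ e1 ^ 2 := pow_le_pow_left₀ (by linarith) h1 2
    nlinarith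
  have ha' : e1 ^ 2 + e2 ≤ 2 * s ^ 2 := by
    have : e1 ^ 2 ≤ s ^ 2 := pow_le_pow_left₀ he1 h1' 2
    linarith
  have hb : s ^ 3 / 64 ≤ 2 * e3 + 3 * e1 * e2 + e1 ^ 3 := by
    have h4 : (s / 4) ^ 3 ≤ e1 ^ 3 := pow_le_pow_left₀ (by linarith) h1 3
    have h5 : 0 ≤ e1 * e2 := mul_nonneg he1 h2
    nlinarith
  have hb' : 2 * e3 + 3 * e1 * e2 + e1 ^ 3 ≤ 6 * s ^ 3 := by
    have h4 : e1 ^ 3 ≤ s ^ 3 := pow_le_pow_left₀ he1 h1' 3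
    have h5 : e1 * e2 ≤ s * s := mul_le_mul h1' h2' h2 hs0
    nlinarith
  obtain ⟨A, hA⟩ : ∃ A, e1 ^ 2 + e2 = A := ⟨_, rfl⟩
  obtain ⟨B, hB⟩ : ∃ B, 2 * e3 + 3 * e1 * e2 + e1 ^ 3 = B := ⟨_, rfl⟩
  rw [hA] at ha ha' ⊢
  rw [hB] at hb hb' ⊢
  have hx : 0 ≤ x ^ 2 := sq_nonneg x
  have hx6 : 0 ≤ x ^ 6 := by positivity
  have hA0 : 0 ≤ A := le_trans (by positivity) ha
  have hB0 : 0 ≤ B := le_trans (by positivity) hb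
  have e3a : A ^ 3 ≤ 8 * s ^ 6 := by
    have := pow_le_pow_left₀ hA0 ha' 3
    have e : (2 * s ^ 2) ^ 3 = 8 * s ^ 6 := by ring
    linarith
  have e3b : s ^ 6 / 4096 ≤ A ^ 3 := by
    have := pow_le_pow_left₀ (by positivity) ha 3
    have e : (s ^ 2 / 16) ^ 3 = s ^ 6 / 4096 := by ring
    linarith
  have e2a : B ^ 2 ≤ 36 * s ^ 6 := by
    have := pow_le_pow_left₀ hB0 hb' 2
    have e : (6 * s ^ 3) ^ 2 = 36 * s ^ 6 := by ring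
    linarith
  have e2b : s ^ 6 / 4096 ≤ B ^ 2 := by
    have := pow_le_pow_left₀ (by positivity) hb 2
    have e : (s ^ 3 / 64) ^ 2 = s ^ 6 / 4096 := by ring
    linarith
  refine ⟨?_, ?_, ?_⟩
  · have h6 : 1 / 16 ≤ A := by nlinarith
    have := mul_le_mul_of_nonneg_left h6 hx
    linarith
  · have e1' : (x ^ 2 * A / 12) ^ 3 = x ^ 6 * (A ^ 3 / 1728) := by ring
    have e2' : 55296 * (-(x ^ 3 * B) / 54) ^ 2 = x ^ 6 * (55296 * B ^ 2 / 2916) := by ring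
    rw [e1', e2']
    apply mul_le_mul_of_nonneg_left _ hx6
    linarith
  · have e1' : 87382 * (x ^ 2 * A / 12) ^ 3 = x ^ 6 * (87382 * A ^ 3 / 1728) := by ring
    have e2' : (-(x ^ 3 * B) / 54) ^ 2 = x ^ 6 * (B ^ 2 / 2916) := by ring
    rw [e1', e2']
    apply mul_le_mul_of_nonneg_left _ hx6
    have : 0 ≤ s ^ 6 := by positivity
    linarith

theorem sg_eq (a : Finset ℕ) (x : ℝ) :
    sg a x = Tg (rescale x (Gm a (a.card - 2))) := by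
  ext k
  unfold sg Tg
  rw [coeff_mk, coeff_mk, coeff_rescale]
  have : GR a = Gm a (a.card - 2) := rfl
  rw [this]
  ring

theorem t_RATIO (h1 : S_LOG) (h2 : S_NORM2) (h3 : S_NORM3) (h4 : S_SUMS) : S_RATIO := by
  intro a x r ha
  obtain ⟨c0, c1, c2, hG, -⟩ := h1
  obtain ⟨c3, hN3⟩ := h3
  obtain ⟨m, hm⟩ : ∃ m, a.card - 2 = m := ⟨_, rfl⟩
  have hm1 : 1 ≤ m := by have := ha.card; omega
  obtain ⟨hf0, hf1⟩ := hG a m x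
  rw [sg_eq, hm]
  obtain ⟨f, hf⟩ : ∃ f, rescale x (Gm a m) = f := ⟨_, rfl⟩
  rw [hf] at hf0 hf1 ⊢
  obtain ⟨L, hL⟩ : ∃ L : ℝ⟦X⟧, PowerSeries.mk (fun k => coeff k Lsh * x ^ k *
      (∑ l ∈ a, 1 / (l : ℝ) ^ (2 * k) - (m : ℝ))) = L := ⟨_, rfl⟩
  rw [hL] at hf1
  have hLk : ∀ k, coeff k L = coeff k Lsh * x ^ k * (∑ l ∈ a, 1 / (l : ℝ) ^ (2 * k) - (m : ℝ)) := by
    intro k
    rw [← hL, coeff_mk]
  have hL0 : constantCoeff L = 0 := by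
    rw [← coeff_zero_eq_constantCoeff_apply, hLk, coeff_zero_eq_constantCoeff_apply, c0]
    ring
  have hcu2 : cu2 (expR r * Tg f) = 15 / 2 * coeff 2 L + 3 * (coeff 1 L) ^ 2 :=
    (h2 f L r hf0 hL0 hf1).2
  have hcu3 := hN3 f L r hf0 hL0 hf1
  obtain ⟨s1, s1'⟩ := h4 a 1 ha.two (le_refl 1)
  obtain ⟨s2, s2'⟩ := h4 a 2 ha.two (by norm_num)
  obtain ⟨s3, s3'⟩ := h4 a 3 ha.two (by norm_num)
  have l1 := hLk 1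
  have l2 := hLk 2
  have l3 := hLk 3
  rw [c1] at l1
  rw [c2] at l2
  rw [c3] at l3
  obtain ⟨σ1, hσ1⟩ : ∃ σ, ∑ l ∈ a, 1 / (l : ℝ) ^ (2 * 1) = σ := ⟨_, rfl⟩
  obtain ⟨σ2, hσ2⟩ : ∃ σ, ∑ l ∈ a, 1 / (l : ℝ) ^ (2 * 2) = σ := ⟨_, rfl⟩
  obtain ⟨σ3, hσ3⟩ : ∃ σ, ∑ l ∈ a, 1 / (l : ℝ) ^ (2 * 3) = σ := ⟨_, rfl⟩
  rw [hσ1] at s1 s1' l1
  rw [hσ2] at s2 s2' l2
  rw [hσ3] at s3 s3' l3
  have hs : (1 : ℝ) ≤ m := by exact_mod_cast hm1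
  have key := ineq (m : ℝ) x (m - σ1) (m - σ2) (m - σ3) hs (by linarith) (by linarith)
    (by linarith) (by linarith) (by linarith) (by linarith)
  have e2 : cu2 (expR r * Tg f) = x ^ 2 * ((m - σ1) ^ 2 + (m - σ2)) / 12 := by
    rw [hcu2, l1, l2]
    ring
  have e3 : cu3 (expR r * Tg f) =
      -(x ^ 3 * (2 * (m - σ3) + 3 * (m - σ1) * (m - σ2) + (m - σ1) ^ 3)) / 54 := by
    rw [hcu3, l1, l2, l3]
    ring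
  rw [e2, e3]
  exact key

end Pool.Agent.H765.BZ.RATIO
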