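import Pool.Agent.H765.BZ.Stm

set_option autoImplicit false

/-! BZ-SQ (helper118). -/

namespace Pool.Agent.H765.BZ.SQ

open Pool.Agent.H765.BZ Pool.Agent.H765.CS
open Filter Topology

theorem inv_tendsto {F : Filter ℤ} (hF : F ≤ cofinite) :
    Tendsto (fun n : ℤ => ((n : ℝ))⁻¹) F (𝓝 0) := by
  have h1 : Tendsto (fun n : ℤ => (n : ℝ)) cofinite (cocompact ℝ) := Int.tendsto_coe_cofinite
  rw [← Metric.cobounded_eq_cocompact] at h1
  exact (tendsto_inv₀_cobounded.comp h1).mono_left hF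

theorem ne_zero {F : Filter ℤ} (hF : F ≤ cofinite) : ∀ᶠ n : ℤ in F, (n : ℝ) ≠ 0 := by
  have h1 : ∀ᶠ n : ℤ in cofinite, n ≠ 0 := (Set.finite_singleton (0 : ℤ)).compl_mem_cofinite
  exact (h1.filter_mono hF).mono fun n hn => Int.cast_ne_zero.2 hn

/-- the leading coefficient -/
theorem lead {F : Filter ℤ} (hF : F ≤ cofinite) (p : Polynomial ℝ) :
    Tendsto (fun n : ℤ => p.eval (n : ℝ) * ((n : ℝ)⁻¹) ^ p.natDegree) F
      (𝓝 (p.coeff p.natDegree)) := by
  have hi := inv_tendsto hF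
  have h1 : Tendsto (fun n : ℤ => ∑ i ∈ Finset.range (p.natDegree + 1),
      p.coeff i * ((n : ℝ)⁻¹) ^ (p.natDegree - i)) F
      (𝓝 (∑ i ∈ Finset.range (p.natDegree + 1), p.coeff i * (0 : ℝ) ^ (p.natDegree - i))) := by
    refine tendsto_finsetSum _ fun i _ => ?_
    exact (hi.pow _).const_mul _
  have h2 : ∑ i ∈ Finset.range (p.natDegree + 1), p.coeff i * (0 : ℝ) ^ (p.natDegree - i) =
      p.coeff p.natDegree := by
    rw [Finset.sum_range_succ, Nat.sub_self, pow_zero, mul_one, Finset.sum_eq_zero, zero_add]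
    intro i hi
    have := Finset.mem_range.1 hi
    rw [zero_pow (by omega), mul_zero]
  rw [h2] at h1
  refine h1.congr' ?_
  filter_upwards [ne_zero hF] with n hn
  rw [Polynomial.eval_eq_sum_range, Finset.sum_mul]
  refine Finset.sum_congr rfl fun i hi => ?_
  have hle : i ≤ p.natDegree := by
    have := Finset.mem_range.1 hi
    omega
  have h3 : ((n : ℝ)⁻¹) ^ p.natDegree = ((n : ℝ)⁻¹) ^ (p.natDegree - i) * ((n : ℝ)⁻¹) ^ i := by
    rw [← pow_add, Nat.sub_add_cancel hle]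
  have h4 : (n : ℝ) ^ i * ((n : ℝ)⁻¹) ^ i = 1 := by
    rw [← mul_pow, mul_inv_cancel₀ hn, one_pow]
  rw [h3]
  calc p.coeff i * ((n : ℝ)⁻¹) ^ (p.natDegree - i)
      = p.coeff i * ((n : ℝ)⁻¹) ^ (p.natDegree - i) * ((n : ℝ) ^ i * ((n : ℝ)⁻¹) ^ i) := by
        rw [h4, mul_one]
    _ = _ := by ring

/-- a convergent integer valued function is constant -/
theorem const_of_tendsto {F : Filter ℤ} [F.NeBot] {e : ℤ → ℤ} {L : ℝ}
    (h : Tendsto (fun n => ((e n : ℤ) : ℝ)) F (𝓝 L)) : ∃ t : ℤ, ∀ᶠ n in F, e n = t := by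
  have h1 : ∀ᶠ n in F, |((e n : ℤ) : ℝ) - L| < 1 / 4 := by
    have h2 := (Metric.tendsto_nhds.1 h) (1 / 4) (by norm_num)
    exact h2.mono fun n hn => by rwa [Real.dist_eq] at hn
  obtain ⟨m, hm⟩ := h1.exists
  refine ⟨e m, h1.mono fun n hn => ?_⟩
  have h2 : |((e n : ℤ) : ℝ) - ((e m : ℤ) : ℝ)| < 1 := by
    have h3 : ((e n : ℤ) : ℝ) - ((e m : ℤ) : ℝ) =
      (((e n : ℤ) : ℝ) - L) - (((e m : ℤ) : ℝ) - L) := by ring
    rw [h3]
    have h4 := abs_sub (((e n : ℤ) : ℝ) - L) (((e m : ℤ) : ℝ) - L)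
    linarith
  have h3 : |e n - e m| < 1 := by exact_mod_cast h2
  have h4 := Int.abs_lt_one_iff.1 h3
  omega

theorem t_SQ : S_SQ := by
  intro F c p A hF hA hc hlim
  have hA0 : (0 : ℝ) < (A : ℝ) := by exact_mod_cast hA
  have hi := inv_tendsto hF
  have hne := ne_zero hF
  -- `p(n) / n²`
  have h1 : Tendsto (fun n : ℤ => p.eval (n : ℝ) * ((n : ℝ)⁻¹) ^ 2) F (𝓝 ((A : ℝ) ^ 2)) := by
    have h2 := hlim.pow 2
    have h3 : (-(A : ℝ)) ^ 2 = (A : ℝ) ^ 2 := by ring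
    rw [h3] at h2
    refine h2.congr' ?_
    filter_upwards [hc] with n hn
    rw [← hn, div_eq_mul_inv, mul_pow]
  have hl := lead hF p
  have hp0 : p ≠ 0 := by
    intro h0
    rw [h0] at h1
    simp only [Polynomial.eval_zero, zero_mul] at h1
    have h2 := tendsto_nhds_unique h1 tendsto_const_nhds
    have h3 : 0 < (A : ℝ) ^ 2 := by positivity
    linarith
  have hlc : p.coeff p.natDegree ≠ 0 := by
    rw [Polynomial.coeff_natDegree]
    exact Polynomial.leadingCoeff_ne_zero.2 hp0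
  have hdeg : p.natDegree = 2 := by
    rcases lt_trichotomy p.natDegree 2 with h2 | h2 | h2
    · exfalso
      have h3 : Tendsto (fun n : ℤ => (p.eval (n : ℝ) * ((n : ℝ)⁻¹) ^ p.natDegree) *
          ((n : ℝ)⁻¹) ^ (2 - p.natDegree)) F
          (𝓝 (p.coeff p.natDegree * 0 ^ (2 - p.natDegree))) := hl.mul (hi.pow _)
      rw [zero_pow (by omega), mul_zero] at h3
      have h4 : Tendsto (fun n : ℤ => p.eval (n : ℝ) * ((n : ℝ)⁻¹) ^ 2) F (𝓝 0) := by
        refine h3.congr fun n => ?_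
        rw [mul_assoc, ← pow_add]
        congr 2
        omega
      have h5 := tendsto_nhds_unique h1 h4
      have h6 : 0 < (A : ℝ) ^ 2 := by positivity
      linarith
    · exact h2
    · exfalso
      have h3 : Tendsto (fun n : ℤ => (p.eval (n : ℝ) * ((n : ℝ)⁻¹) ^ 2) *
          ((n : ℝ)⁻¹) ^ (p.natDegree - 2)) F
          (𝓝 ((A : ℝ) ^ 2 * 0 ^ (p.natDegree - 2))) := h1.mul (hi.pow _)
      rw [zero_pow (by omega), mul_zero] at h3
      have h4 : Tendsto (fun n : ℤ => p.eval (n : ℝ) * ((n : ℝ)⁻¹) ^ p.natDegree) F (𝓝 0) := by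
        refine h3.congr fun n => ?_
        rw [mul_assoc, ← pow_add]
        congr 2
        omega
      exact hlc (tendsto_nhds_unique hl h4)
  have hcoef : p.coeff 2 = (A : ℝ) ^ 2 := by
    rw [hdeg] at hl
    exact tendsto_nhds_unique hl h1
  have hev : ∀ x : ℝ, p.eval x = p.coeff 0 + p.coeff 1 * x + (A : ℝ) ^ 2 * x ^ 2 := by
    intro x
    rw [Polynomial.eval_eq_sum_range, hdeg, Finset.sum_range_succ, Finset.sum_range_succ,
      Finset.sum_range_one, hcoef]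
    ring
  -- `c n + A n` converges
  have h2 : Tendsto (fun n : ℤ => (((c n : ℤ) : ℝ) - A * n) / n) F (𝓝 (-(A : ℝ) - A)) := by
    refine (hlim.sub_const (A : ℝ)).congr' ?_
    filter_upwards [hne] with n hn
    rw [sub_div, mul_div_assoc, div_self hn, mul_one]
  have hne2 : -(A : ℝ) - A ≠ 0 := by
    intro h3
    linarith
  have h3 : Tendsto (fun n : ℤ => p.coeff 1 + p.coeff 0 * (n : ℝ)⁻¹) F
      (𝓝 (p.coeff 1 + p.coeff 0 * 0)) := (hi.const_mul _).const_add _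
  have h4 := h3.div h2 hne2
  have h5 : Tendsto (fun n : ℤ => ((c n + A * n : ℤ) : ℝ)) F
      (𝓝 ((p.coeff 1 + p.coeff 0 * 0) / (-(A : ℝ) - A))) := by
    refine h4.congr' ?_
    filter_upwards [hne, hc, h2.eventually_ne hne2] with n hn hcn hn2
    have h6 : ((c n : ℤ) : ℝ) - A * n ≠ 0 := by
      intro h7
      rw [h7, zero_div] at hn2
      exact hn2 rfl
    rw [Pi.div_apply, div_eq_iff hn2]
    rw [hev] at hcn
    push_cast
    field_simp
    linear_combination (-1 : ℝ) * hcn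
  obtain ⟨t, ht⟩ := const_of_tendsto h5
  refine ⟨-t, ht.mono fun n hn => ?_⟩
  rw [← hn]
  ring

end Pool.Agent.H765.BZ.SQ
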