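import Pool.Agent.H765.BZ.Stm

/-! Sums of inverse even powers over finite sets of integers at least two. -/

namespace Pool.Agent.H765.BZ.SUMS

open Pool.Agent.H765.BZ Pool.Agent.H765.CS

theorem sum_Icc (N : ℕ) : ∑ l ∈ Finset.Icc 2 (N + 2), 1 / (l : ℝ) ^ 2 ≤ 3 / 4 - 1 / ((N : ℝ) + 2) := by
  induction N with
  | zero => norm_num
  | succ N ih =>
    have h1 : Finset.Icc 2 (N + 1 + 2) = insert (N + 3) (Finset.Icc 2 (N + 2)) := by
      ext l
      simp only [Finset.mem_Icc, Finset.mem_insert]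
      omega
    have h2 : N + 3 ∉ Finset.Icc 2 (N + 2) := by
      rw [Finset.mem_Icc]
      omega
    rw [h1, Finset.sum_insert h2]
    push_cast
    have h3 : (0 : ℝ) < (N : ℝ) + 2 := by positivity
    have h4 : (0 : ℝ) < (N : ℝ) + 3 := by positivity
    have h5 : 1 / ((N : ℝ) + 3) ^ 2 ≤ 1 / ((N : ℝ) + 2) - 1 / ((N : ℝ) + 3) := by
      rw [div_sub_div _ _ h3.ne' h4.ne', div_le_div_iff₀ (by positivity) (by positivity)]
      nlinarith
    have h6 : (N : ℝ) + 1 + 2 = (N : ℝ) + 3 := by ring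
    rw [h6]
    linarith

theorem t_SUMS : S_SUMS := by
  intro b k hb hk
  refine ⟨Finset.sum_nonneg fun l _ => by positivity, ?_⟩
  obtain ⟨N, hN⟩ : ∃ N, ∀ l ∈ b, l ≤ N + 2 :=
    ⟨b.sup id, fun l hl => (Finset.le_sup (f := id) hl).trans (Nat.le_add_right _ _)⟩
  have h1 : ∑ l ∈ b, 1 / (l : ℝ) ^ (2 * k) ≤ ∑ l ∈ b, 1 / (l : ℝ) ^ 2 := by
    refine Finset.sum_le_sum fun l hl => ?_
    have h2 : (1 : ℝ) ≤ (l : ℝ) := by
      have := hb l hl
      exact_mod_cast (by omega : 1 ≤ l)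
    refine one_div_le_one_div_of_le (by positivity) ?_
    exact pow_le_pow_right₀ h2 (by omega)
  have h3 : ∑ l ∈ b, 1 / (l : ℝ) ^ 2 ≤ ∑ l ∈ Finset.Icc 2 (N + 2), 1 / (l : ℝ) ^ 2 := by
    refine Finset.sum_le_sum_of_subset_of_nonneg ?_ fun l _ _ => by positivity
    intro l hl
    rw [Finset.mem_Icc]
    exact ⟨hb l hl, hN l hl⟩
  have h4 := sum_Icc N
  have h5 : (0 : ℝ) ≤ 1 / ((N : ℝ) + 2) := by positivity
  linarith

end Pool.Agent.H765.BZ.SUMS
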