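import Pool.Agent.H765.BZ.Stm

/-! Project BZ: task ZERO. -/

namespace Pool.Agent.H765.BZ.ZERO

open PowerSeries Finset Nat Real Filter Topology
open Pool.Agent.H765.BZ Pool.Agent.H765.CS
open scoped NNReal ENNReal

noncomputable section

/-- the formal series -/
def fs (E : ℝ⟦X⟧) : FormalMultilinearSeries ℝ ℝ ℝ :=
  FormalMultilinearSeries.ofScalars ℝ fun n => coeff n E

theorem fs_radius {E : ℝ⟦X⟧} (hE : Ent E) : (fs E).radius = ⊤ := by
  apply FormalMultilinearSeries.radius_eq_top_of_summable_norm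
  intro r
  refine (hE (r : ℝ) r.2).congr ?_
  intro n
  unfold fs
  rw [FormalMultilinearSeries.ofScalars_norm, Real.norm_eq_abs]

theorem fs_sum (E : ℝ⟦X⟧) (z : ℝ) : (fs E).sum z = ev z E := by
  unfold fs ev
  change FormalMultilinearSeries.ofScalarsSum (fun n => coeff n E) z = _
  rw [FormalMultilinearSeries.ofScalars_sum_eq]
  apply tsum_congr
  intro n
  rw [smul_eq_mul]

theorem t_ZERO : S_ZERO := by
  intro E hE0 hE
  have hrad := fs_radius hE
  have hball : HasFPowerSeriesOnBall (fs E).sum (fs E) 0 (fs E).radius :=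
    (fs E).hasFPowerSeriesOnBall (by rw [hrad]; exact ENNReal.coe_lt_top)
  have han : AnalyticOnNhd ℝ (fs E).sum Set.univ := by
    have h := hball.analyticOnNhd
    rw [hrad] at h
    intro z _
    apply h
    simp
  have hnz : ¬ ∀ᶠ z in 𝓝 (1 : ℝ), (fs E).sum z = 0 := by
    intro h
    have h1 := han.eqOn_zero_of_preconnected_of_eventuallyEq_zero isPreconnected_univ
      (Set.mem_univ 1) h
    have h2 : (fs E).sum = 0 := by
      funext z
      exact h1 (Set.mem_univ z)
    have h3 : HasFPowerSeriesAt (0 : ℝ → ℝ) (fs E) 0 := by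
      have := hball.hasFPowerSeriesAt
      rw [h2] at this
      exact this
    have h4 := h3.eq_zero
    unfold fs at h4
    rw [FormalMultilinearSeries.ofScalars_series_eq_zero] at h4
    apply hE0
    ext n
    exact congrFun h4 n
  obtain ⟨p, g, hg, hg1, hfg⟩ :=
    (han 1 (Set.mem_univ 1)).exists_eventuallyEq_pow_smul_nonzero_iff.2 hnz
  have hc : ContinuousAt (fun z => |g z|) 1 := hg.continuousAt.abs
  have hpos : 0 < |g 1| := abs_pos.2 hg1
  have h1 : ∀ᶠ z in 𝓝 (1 : ℝ), |g 1| / 2 < |g z| :=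
    hc.eventually (lt_mem_nhds (by linarith))
  have h2 : ∀ᶠ z in 𝓝 (1 : ℝ), |g z| < 2 * |g 1| :=
    hc.eventually (gt_mem_nhds (by linarith))
  obtain ⟨ε, hε, hall⟩ := Metric.eventually_nhds_iff.1 (hfg.and (h1.and h2))
  refine ⟨p, |g 1| / 2, 2 * |g 1|, ε, by linarith, hε, ?_⟩
  intro z hz1 hz2
  have hz : dist z 1 < ε := by
    rw [Real.dist_eq, abs_lt]
    constructor <;> linarith
  obtain ⟨e1, e2, e3⟩ := hall hz
  have h3 : |ev z E| = |g z| * (1 - z) ^ p := by
    rw [← fs_sum, e1, smul_eq_mul, abs_mul, abs_pow, abs_sub_comm, abs_of_pos (by linarith),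
      mul_comm]
  have h4 : 0 ≤ (1 - z) ^ p := pow_nonneg (by linarith) p
  rw [h3]
  exact ⟨mul_le_mul_of_nonneg_right e2.le h4, mul_le_mul_of_nonneg_right e3.le h4⟩

end

end Pool.Agent.H765.BZ.ZERO
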