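import Mathlib
import Pool.Agent.H765.BZ.Final2
import Pool.Agent.H765.BZ.NORM3
import Pool.Agent.H765.BZ.RATIO
import Pool.Agent.H765.BZ.PAR
import Pool.Agent.H765.BZ.DEG
import Pool.Agent.H765.BZ.CONST
import Pool.Agent.H765.BZ.LOG
import Pool.Agent.H765.BZ.ODE
import Pool.Agent.H765.BZ.NORM2
import Pool.Agent.H765.BZ.SUMS
import Pool.Agent.H765.BZ.DOM
import Pool.Agent.H765.BZ.LIM0
import Pool.Agent.H765.BZ.LIM1
import Pool.Agent.H765.BZ.LIM2
import Pool.Agent.H765.BZ.LIM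
import Pool.Agent.H765.BZ.ZERO
import Pool.Agent.H765.BZ.POLEB
import Pool.Agent.H765.BZ.POLE
import Pool.Agent.H765.BZ.QEC
import Pool.Agent.H765.BZ.ALIEN
import Pool.Agent.H765.BZ.LEADG
import Pool.Agent.H765.BZ.EXPPOLY
import Pool.Agent.H765.BZ.ALPHA
import Pool.Agent.H765.BZ.ORD
import Pool.Agent.H765.BZ.BETA
import Pool.Agent.H765.BZ.DSER
import Pool.Agent.H765.BZ.ENT
import Pool.Agent.H765.BZ.POLY1
import Pool.Agent.H765.BZ.POLY
import Pool.Agent.H765.BZ.MPOLY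
import Pool.Agent.H765.BZ.SQ
import Pool.Agent.H765.BZ.CONV

/-! Surgeries on knots and Seifert homology spheres: all lemmas together. -/

namespace Pool.Agent.H765.BZ

open PowerSeries
open Pool.Agent.H765.CS Pool.Agent.H765.MM Pool.Agent.H765.GK

noncomputable section

theorem lim : S_LIM := LIM.t_LIM (LIM0.t_LIM0 LOG.t_LOG NORM2.t_NORM2 SUMS.t_SUMS)
  (LIM1.t_LIM1 LOG.t_LOG ODE.t_ODE DOM.t_DOM) (LIM2.t_LIM2 LOG.t_LOG ODE.t_ODE SUMS.t_SUMS)

theorem alpha : S_ALPHA :=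
  ALPHA.t_ALPHA (ALIEN.t_ALIEN (POLE.t_POLE ZERO.t_ZERO POLEB.t_POLEB) QEC.t_QEC) LEADG.t_LEADG
    EXPPOLY.t_EXPPOLY

theorem ratio : S_RATIO := RATIO.t_RATIO LOG.t_LOG NORM2.t_NORM2 NORM3.t_NORM3 SUMS.t_SUMS

theorem seifert_finite {J : ℤ → ℚ⟦X⟧} {c : ℚ} (h : JonesFn J c)
    (hT : ∀ (p : ℕ) (q : ℤ) (hp : 2 ≤ p) (hq : IsCoprime (p : ℤ) q), (p : ℤ) < |q| →
      J ≠ colouredJones (torus p q hp hq)) : (seifertSet J).Finite :=
  main lim alpha (BETA.t_BETA ORD.t_ORD) DSER.t_DSER ENT.t_ENT (POLY.t_POLY POLY1.t_POLY1)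
    MPOLY.t_MPOLY SQ.t_SQ CONV.t_CONV LOG.t_LOG NORM2.t_NORM2 SUMS.t_SUMS ratio PAR.t_PAR
    DEG.t_DEG CONST.t_CONST h hT

/-- all surgeries on a torus knot are Seifert -/
theorem torus_seifert (p : ℕ) (q : ℤ) (hp : 2 ≤ p) (hq : IsCoprime (p : ℤ) q) (hpq : (p : ℤ) < |q|)
    {n : ℤ} (hn : n ≠ 0) : n ∈ seifertSet (colouredJones (torus p q hp hq)) := by
  set x : TorusSurgery := ⟨p, q, n, hp, hpq, hq, hn⟩ with hx
  exact ⟨hn, x.sphere, x.r, x.tau_eq⟩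

/-- characterisation of the torus knots -/
theorem seifert_infinite_iff {J : ℤ → ℚ⟦X⟧} {c : ℚ} (h : JonesFn J c) :
    (seifertSet J).Infinite ↔ ∃ (p : ℕ) (q : ℤ) (hp : 2 ≤ p) (hq : IsCoprime (p : ℤ) q),
      (p : ℤ) < |q| ∧ J = colouredJones (torus p q hp hq) := by
  constructor
  · intro hinf
    by_contra hc
    push Not at hc
    exact hinf (seifert_finite h fun p q hp hq hpq => hc p q hp hq hpq)
  · rintro ⟨p, q, hp, hq, hpq, rfl⟩
    have h1 : ({0}ᶜ : Set ℤ).Infinite := (Set.finite_singleton (0 : ℤ)).infinite_compl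
    exact h1.mono fun n hn => torus_seifert p q hp hq hpq hn

/-- graph knots -/
theorem seifert_infinite_graph_iff (K : GraphKnot) :
    (seifertSet (colouredJones K)).Infinite ↔
      ∃ (p : ℕ) (q : ℤ) (hp : 2 ≤ p) (hq : IsCoprime (p : ℤ) q),
        (p : ℤ) < |q| ∧ Isotopic K (torus p q hp hq) := by
  obtain ⟨c, hc, _⟩ := jonesFn_graph K
  rw [seifert_infinite_iff hc]
  constructor
  · rintro ⟨p, q, hp, hq, hpq, heq⟩
    refine ⟨p, q, hp, hq, hpq, (graph_main K _).mp fun N n => ?_⟩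
    rw [heq]
  · rintro ⟨p, q, hp, hq, hpq, hI⟩
    refine ⟨p, q, hp, hq, hpq, ?_⟩
    have h1 := (graph_main K (torus p q hp hq)).mpr hI
    have h2 : ∀ N : ℕ, colouredJones K N = colouredJones (torus p q hp hq) N := by
      intro N
      ext n
      exact h1 N n
    funext N
    obtain ⟨k, rfl | rfl⟩ := Int.eq_nat_or_neg N
    · exact h2 k
    · rw [colouredJones_odd, colouredJones_odd, h2 k]

end

end Pool.Agent.H765.BZ
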