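import Pool.Agent.H765.BZ.Stm

/-! LIM: limits of the normalised series along an ultrafilter. -/

namespace Pool.Agent.H765.BZ.LIM

open PowerSeries Finset Nat Real Filter Topology
open Pool.Agent.H765.BZ Pool.Agent.H765.CS

noncomputable section

theorem const_Gm (b : Finset ℕ) (m : ℕ) : constantCoeff (Gm b m) = 1 := by
  have h1 : constantCoeff shR = 1 := by
    rw [← coeff_zero_eq_constantCoeff_apply, shR, coeff_mk]
    norm_num
  rw [Gm, Ea, map_mul, map_prod, map_pow, constantCoeff_inv, h1]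
  have h2 : ∏ l ∈ b, constantCoeff (rescale (1 / (l : ℝ) ^ 2) shR) = 1 := by
    apply prod_eq_one
    intro l _
    rw [← coeff_zero_eq_constantCoeff_apply, coeff_rescale, pow_zero, one_mul,
      coeff_zero_eq_constantCoeff_apply, h1]
  rw [h2]
  norm_num

theorem Tg_zero (b : Finset ℕ) (m : ℕ) : Tg (rescale 0 (Gm b m)) = 1 := by
  ext k
  rw [Tg, coeff_mk, coeff_rescale, coeff_one]
  by_cases hk : k = 0
  · subst hk
    rw [if_pos rfl, pow_zero, one_mul, coeff_zero_eq_constantCoeff_apply, const_Gm]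
    norm_num
  · rw [if_neg hk, zero_pow hk, zero_mul, mul_zero]

theorem cv_expR (γ : ℝ) : Cv (expR γ) := by
  refine ⟨1, |γ|, abs_nonneg γ, fun k => ?_⟩
  rw [expR, coeff_rescale, one_mul, abs_mul, abs_pow]
  have h1 : |coeff k (PowerSeries.exp ℝ)| ≤ 1 := by
    rw [PowerSeries.coeff_exp]
    have h2 : (algebraMap ℚ ℝ) (1 / (k ! : ℚ)) = 1 / (k ! : ℝ) := by
      rw [map_div₀, map_one, map_natCast]
    rw [h2, abs_of_nonneg (by positivity)]
    rw [div_le_one (by positivity)]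
    exact_mod_cast Nat.one_le_iff_ne_zero.2 (Nat.factorial_ne_zero k)
  exact mul_le_of_le_one_right (by positivity) h1

theorem tendsto_inv_int : Tendsto (fun n : ℤ => ((n : ℝ))⁻¹) cofinite (𝓝 0) := by
  refine tendsto_inv₀_cobounded.comp ?_
  rw [Metric.cobounded_eq_cocompact]
  exact Int.tendsto_coe_cofinite

theorem t_LIM (h1 : S_LIM0) (h2 : S_LIM1) (h3 : S_LIM2) : S_LIM := by
  intro v α S a P r hS hall hlim
  obtain ⟨F, lam, γ, hF, hSF, hLD⟩ := h1 v α S a P r hS
    (fun n hn => ⟨(hall n hn).1, (hall n hn).2.1, (hall n hn).2.2.2⟩) hlim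
  by_cases hN : ∃ N, ∀ᶠ n in (F : Filter ℤ), (a n).card = N
  · obtain ⟨N, hN⟩ := hN
    have hSF' : ∀ᶠ n in (F : Filter ℤ), n ∈ S := hSF
    obtain ⟨n0, hn0, hn0S⟩ := (hN.and hSF').exists
    have h4 := (hall n0 hn0S).2.1.card
    obtain ⟨m, rfl⟩ : ∃ m, N = m + 2 := ⟨N - 2, by omega⟩
    have hm : 1 ≤ m := by omega
    obtain ⟨b, hb, hα⟩ := h2 F a _ _ lam γ α m hLD hN
    by_cases hlam : lam = 0
    · left
      rw [hα, hlam, Tg_zero, mul_one]
      exact cv_expR γ
    · right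
      obtain ⟨n1, hn1, hn1S⟩ := (hb.and hSF').exists
      have hfib := (hall n1 hn1S).2.1
      refine ⟨F, b, m, lam, γ, hF, hSF, hm, fun l hl => hfib.two l (hn1 hl), ?_, ?_, hlam,
        hN.and hb, hLD.2.1, hLD.2.2.1, hα⟩
      · intro l hl l' hl' hne
        exact hfib.cop l (hn1 hl) l' (hn1 hl') hne
      · by_contra hcard
        have hcard' : m + 2 ≤ b.card := by omega
        have hP : ∀ᶠ n in (F : Filter ℤ), |((P n : ℤ) : ℝ) / n| ≤ ((∏ l ∈ b, (l : ℤ) : ℤ) : ℝ) * |((n : ℝ))⁻¹| := by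
          filter_upwards [hN, hb, hSF'] with n e1 e2 e3
          have e4 : b = a n := Finset.eq_of_subset_of_card_le e2 (by omega)
          have e5 := (hall n e3).2.2.1
          rw [e4, ← e5, div_eq_mul_inv, abs_mul]
          push_cast
          exact le_rfl
        have h0 : Tendsto (fun n : ℤ => ((∏ l ∈ b, (l : ℤ) : ℤ) : ℝ) * |((n : ℝ))⁻¹|) F (𝓝 0) := by
          have h5 : Tendsto (fun n : ℤ => |((n : ℝ))⁻¹|) F (𝓝 0) := by
            have h6 := (tendsto_inv_int.mono_left hF).abs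
            rwa [abs_zero] at h6
          have h6 := h5.const_mul ((∏ l ∈ b, (l : ℤ) : ℤ) : ℝ)
          rwa [mul_zero] at h6
        have h7 : Tendsto (fun n : ℤ => ((P n : ℤ) : ℝ) / n) F (𝓝 0) :=
          squeeze_zero_norm' (by simpa only [Real.norm_eq_abs] using hP) h0
        exact hlam (tendsto_nhds_unique hLD.2.1 h7)
  · left
    refine h3 F a _ _ lam γ α hLD fun N => ?_
    have h4 : ¬ ∀ᶠ n in (F : Filter ℤ), (a n).card = N := fun h => hN ⟨N, h⟩
    exact Ultrafilter.eventually_not.2 h4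

end

end Pool.Agent.H765.BZ.LIM
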