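import Pool.Agent.H765.BZ.Stm

/-! Project BZ: S_MPOLY, polynomial families of series -/

set_option autoImplicit false

namespace Pool.Agent.H765.BZ.MPOLY

open PowerSeries Finset Nat Real
open Pool.Agent.H765.BZ Pool.Agent.H765.CS

noncomputable section

/-- the part which does not depend on `y` -/
def gg (b : Finset ℕ) (m : ℕ) : ℝ⟦X⟧ := Ea b * shR⁻¹ ^ m

/-- the series at the parameter `c` -/
def SS (b : Finset ℕ) (m : ℕ) (A c : ℝ) : ℝ⟦X⟧ := Tg (rescale (A * c) (Gy b m (1 / c ^ 2)))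

/-- the polynomial `c^k coeff k (SS c)` -/
def Pk (b : Finset ℕ) (m : ℕ) (A : ℝ) (k : ℕ) : Polynomial ℝ :=
  ∑ p ∈ antidiagonal k, Polynomial.C ((((2 * k + 1)‼ : ℕ) : ℝ) * A ^ k *
    (coeff p.1 shR * coeff p.2 (gg b m))) * Polynomial.X ^ (2 * p.2)

theorem Pk_eval (b : Finset ℕ) (m : ℕ) (A c : ℝ) (hc : c ≠ 0) (k : ℕ) :
    (Pk b m A k).eval c = c ^ k * coeff k (SS b m A c) := by
  have h1 : Gy b m (1 / c ^ 2) = rescale (1 / c ^ 2) shR * gg b m := by
    unfold Gy gg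
    ring
  unfold Pk SS Tg
  rw [coeff_mk, coeff_rescale, h1, coeff_mul, Polynomial.eval_finsetSum, mul_sum, mul_sum,
    mul_sum]
  refine Finset.sum_congr rfl fun p hp => ?_
  rw [HasAntidiagonal.mem_antidiagonal] at hp
  rw [Polynomial.eval_mul, Polynomial.eval_C, Polynomial.eval_pow, Polynomial.eval_X,
    coeff_rescale]
  have h2 : c ^ k * c ^ k * (1 / c ^ 2) ^ p.1 = c ^ (2 * p.2) := by
    rw [← hp, one_div, inv_pow, ← pow_mul]
    have h3 : c ^ (2 * p.1) ≠ 0 := pow_ne_zero _ hc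
    field_simp
    ring
  rw [← h2, mul_pow]
  ring

theorem const_shR : constantCoeff shR = 1 := by
  rw [← coeff_zero_eq_constantCoeff_apply, shR, coeff_mk]
  norm_num

theorem const_gg (b : Finset ℕ) (m : ℕ) : constantCoeff (gg b m) = 1 := by
  have h1 := const_shR
  rw [gg, Ea, map_mul, map_prod, map_pow, constantCoeff_inv, h1]
  have h2 : ∏ l ∈ b, constantCoeff (rescale (1 / (l : ℝ) ^ 2) shR) = 1 := by
    refine Finset.prod_eq_one fun l _ => ?_
    rw [← coeff_zero_eq_constantCoeff_apply, coeff_rescale, pow_zero, one_mul,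
      coeff_zero_eq_constantCoeff_apply, h1]
  rw [h2]
  norm_num

theorem SS_zero (b : Finset ℕ) (m : ℕ) (A c : ℝ) : coeff 0 (SS b m A c) = 1 := by
  have h1 : Gy b m (1 / c ^ 2) = rescale (1 / c ^ 2) shR * gg b m := by
    unfold Gy gg
    ring
  unfold SS Tg
  rw [coeff_mk, coeff_rescale, h1, coeff_zero_eq_constantCoeff_apply, map_mul, const_gg,
    ← coeff_zero_eq_constantCoeff_apply, coeff_rescale, coeff_zero_eq_constantCoeff_apply,
    const_shR]
  norm_num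

theorem coeff_expR (ρ : ℝ) (i : ℕ) : coeff i (expR ρ) = ρ ^ i * (1 / (i ! : ℝ)) := by
  unfold expR
  rw [coeff_rescale, coeff_exp]
  simp

theorem coeff_prod (ρ : ℝ) (S : ℝ⟦X⟧) (k : ℕ) : coeff k (expR ρ * S) =
    ∑ p ∈ antidiagonal k, ρ ^ p.1 * (1 / (p.1 ! : ℝ)) * coeff p.2 S := by
  rw [coeff_mul]
  refine Finset.sum_congr rfl fun p _ => ?_
  rw [coeff_expR]

theorem coeff_one (ρ : ℝ) (b : Finset ℕ) (m : ℕ) (A c : ℝ) :
    coeff 1 (expR ρ * SS b m A c) = coeff 1 (SS b m A c) + ρ := by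
  rw [coeff_prod, Finset.Nat.sum_antidiagonal_eq_sum_range_succ_mk, Finset.sum_range_succ,
    Finset.sum_range_one]
  simp [SS_zero]

theorem scaled (ρ c : ℝ) (hc : c ≠ 0) (b : Finset ℕ) (m : ℕ) (A : ℝ) (k : ℕ) :
    c ^ k * coeff k (expR ρ * SS b m A c) =
      ∑ p ∈ antidiagonal k, (1 / (p.1 ! : ℝ)) * (c * ρ) ^ p.1 * (Pk b m A p.2).eval c := by
  rw [coeff_prod, mul_sum]
  refine Finset.sum_congr rfl fun p hp => ?_
  rw [HasAntidiagonal.mem_antidiagonal] at hp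
  rw [Pk_eval b m A c hc, ← hp, pow_add, mul_pow]
  ring

theorem t_MPOLY : S_MPOLY := by
  intro b m A t Wp N hA ht hN h
  obtain ⟨cp, hcp⟩ : ∃ cp : Polynomial ℝ, cp = -(Polynomial.C A * Polynomial.X + Polynomial.C t) :=
    ⟨_, rfl⟩
  have hcpe : ∀ x : ℝ, cp.eval x = -(A * x + t) := by
    intro x
    rw [hcp]
    simp
  obtain ⟨Q, hQ⟩ : ∃ Q : Polynomial ℝ, Q = cp * Wp 1 - (Pk b m A 1).comp cp := ⟨_, rfl⟩
  have hQe : ∀ x : ℝ, Q.eval x = cp.eval x * (Wp 1).eval x - (Pk b m A 1).eval (cp.eval x) := by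
    intro x
    rw [hQ, Polynomial.eval_sub, Polynomial.eval_mul, Polynomial.eval_comp]
  -- the infinite set of parameters
  have hinf : ({x : ℝ | ∃ n ∈ N, (n : ℝ) = x} \ {-(t / A)}).Infinite := by
    refine Set.Infinite.sdiff ?_ (Set.finite_singleton _)
    have h1 : {x : ℝ | ∃ n ∈ N, (n : ℝ) = x} = (fun n : ℤ => (n : ℝ)) '' N := rfl
    rw [h1]
    exact hN.image (Int.cast_injective.injOn)
  have hne : ∀ x : ℝ, x ∉ ({-(t / A)} : Set ℝ) → cp.eval x ≠ 0 := by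
    intro x hx h0
    apply hx
    rw [hcpe] at h0
    rw [Set.mem_singleton_iff]
    field_simp
    linarith
  have key : ∀ k, cp ^ k * Wp k = ∑ p ∈ antidiagonal k, Polynomial.C (1 / (p.1 ! : ℝ)) * Q ^ p.1 *
      (Pk b m A p.2).comp cp := by
    intro k
    refine Polynomial.eq_of_infinite_eval_eq _ _ (hinf.mono ?_)
    rintro x ⟨⟨n, hn, rfl⟩, hx⟩
    have hc := hne _ hx
    obtain ⟨ρ, hρ⟩ := h n hn
    have hρ' : ∀ k, (Wp k).eval (n : ℝ) = coeff k (expR ρ * SS b m A (cp.eval (n : ℝ))) := by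
      intro k
      rw [hρ k, hcpe]
      rfl
    have hQn : Q.eval (n : ℝ) = cp.eval (n : ℝ) * ρ := by
      rw [hQe, hρ' 1, coeff_one, Pk_eval b m A _ hc]
      ring
    rw [Set.mem_ofPred_eq, Polynomial.eval_mul, Polynomial.eval_pow, hρ' k, scaled ρ _ hc,
      Polynomial.eval_finsetSum]
    refine Finset.sum_congr rfl fun p _ => ?_
    rw [Polynomial.eval_mul, Polynomial.eval_mul, Polynomial.eval_C, Polynomial.eval_pow,
      Polynomial.eval_comp, hQn]
  have hc0 : cp.eval 0 = -t := by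
    rw [hcpe]
    ring
  have hc0' : -t ≠ 0 := neg_ne_zero.2 ht
  refine ⟨Q.eval 0 / (-t), fun k => ?_⟩
  have h1 := congrArg (Polynomial.eval 0) (key k)
  rw [Polynomial.eval_mul, Polynomial.eval_pow, hc0, Polynomial.eval_finsetSum] at h1
  have h2 := scaled (Q.eval 0 / (-t)) (-t) hc0' b m A k
  have h3 : -t * (Q.eval 0 / (-t)) = Q.eval 0 := by
    rw [mul_div_cancel₀ _ hc0']
  rw [h3] at h2
  have h4 : (-t) ^ k * (Wp k).eval 0 = (-t) ^ k * coeff k (expR (Q.eval 0 / (-t)) *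
      SS b m A (-t)) := by
    rw [h1, h2]
    refine Finset.sum_congr rfl fun p _ => ?_
    rw [Polynomial.eval_mul, Polynomial.eval_mul, Polynomial.eval_C, Polynomial.eval_pow,
      Polynomial.eval_comp, hc0]
  exact mul_left_cancel₀ (pow_ne_zero k hc0') h4

end

end Pool.Agent.H765.BZ.MPOLY
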